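import Pool.Agent.K4H76.RP.Defs

/-!
# A small polynomial does not divide polynomials supported in far blocks
-/

set_option autoImplicit false

open Polynomial Finset

namespace Pool.Agent.K4H76.RP

/-- the product of the values of an integer polynomial at the roots of a monic irreducible one -/
lemma one_le_prod_eval {g p : ℤ[X]} (hm : g.Monic) (hi : Irreducible g) (hp : ¬ g ∣ p) :
    1 ≤ (((g.map (Int.castRingHom ℂ)).roots).map
      fun a => ‖(p.map (Int.castRingHom ℂ)).eval a‖).prod := by
  set G := g.map (Int.castRingHom ℂ) with hG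
  set P := p.map (Int.castRingHom ℂ) with hP
  have hGm : G.Monic := hm.map _
  have hdeg : G.natDegree = g.natDegree := hm.natDegree_map _
  have h1 := resultant_eq_prod_eval G P p.natDegree (natDegree_map_le) (IsAlgClosed.splits G)
  rw [hGm.leadingCoeff, one_pow, one_mul, hdeg, hG, hP, resultant_map_map] at h1
  have h2 : ((((g.map (Int.castRingHom ℂ)).roots).map
      fun a => ‖(p.map (Int.castRingHom ℂ)).eval a‖).prod) =
      ‖((g.resultant p : ℤ) : ℂ)‖ := by
    have h3 : ((g.resultant p : ℤ) : ℂ) = Int.castRingHom ℂ (g.resultant p) := by simp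
    rw [h3, h1]
    have h4 := map_multiset_prod (normHom : ℂ →*₀ ℝ)
      ((g.map (Int.castRingHom ℂ)).roots.map (eval · (p.map (Int.castRingHom ℂ))))
    rw [Multiset.map_map] at h4
    exact h4.symm
  rw [h2]
  have h5 : g.resultant p ≠ 0 := by
    intro h0
    have h6 : ((g.map (Int.castRingHom ℂ)).roots.map
        (eval · (p.map (Int.castRingHom ℂ)))).prod = 0 := by
      rw [← h1, h0, map_zero]
    rw [Multiset.prod_eq_zero_iff, Multiset.mem_map] at h6
    obtain ⟨a, ha, hpa⟩ := h6
    have ha0 : aeval a g = 0 := by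
      rw [mem_roots (hm.map _).ne_zero] at ha
      have : (g.map (Int.castRingHom ℂ)).eval a = 0 := ha
      rwa [eval_map, ← algebraMap_int_eq, ← aeval_def] at this
    have hp0 : aeval a p = 0 := by
      rwa [eval_map, ← algebraMap_int_eq, ← aeval_def] at hpa
    have hint : IsIntegral ℤ a := ⟨g, hm, by rwa [← aeval_def]⟩
    have h7 := minpoly.isIntegrallyClosed_dvd hint ha0
    have h8 := minpoly.isIntegrallyClosed_dvd hint hp0
    have h9 : g ∣ minpoly ℤ a := by
      obtain ⟨q, hq⟩ := h7
      rcases hi.isUnit_or_isUnit hq with h10 | h10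
      · exact absurd h10 (minpoly.not_isUnit ℤ a)
      · rw [hq]
        exact (h10.mul_right_dvd).2 dvd_rfl
    exact hp (h9.trans h8)
  rw [Complex.norm_intCast]
  exact_mod_cast Int.one_le_abs h5

/-- weights of the indices below `i * k` -/
lemma sum_blocks {c : ℕ → ℝ} {k d : ℕ} {A : ℝ} (hdk : d ≤ k) (i : ℕ)
    (h0 : ∀ j, d ≤ j % k → c j = 0) (h1 : ∀ j < i * k, j % k < d → c j ≤ A) :
    ∑ j ∈ range (i * k), c j ≤ i * (d * A) := by
  induction i with
  | zero => simp
  | succ i ih =>
    rw [Nat.succ_mul, sum_range_add]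
    have h2 := ih (fun j hj hjd => h1 j (by rw [Nat.succ_mul]; omega) hjd)
    have h3 : ∑ l ∈ range k, c (i * k + l) ≤ ∑ l ∈ range k, (if l < d then A else 0) := by
      refine sum_le_sum fun l hl => ?_
      rw [mem_range] at hl
      have hmod : (i * k + l) % k = l := by
        rw [Nat.add_comm, Nat.add_mul_mod_self_right, Nat.mod_eq_of_lt hl]
      split_ifs with hld
      · exact h1 _ (by rw [Nat.succ_mul]; omega) (by rw [hmod]; exact hld)
      · rw [h0 _ (by rw [hmod]; omega)]
    have h4 : ∑ l ∈ range k, (if l < d then A else 0) = d * A := by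
      rw [← sum_filter]
      have : (range k).filter (fun l => l < d) = range d := by
        ext l
        simp only [mem_filter, mem_range]
        omega
      rw [this]
      simp
    push_cast
    linarith

theorem block : S_BLOCK := by
  intro T d g hd1 hsm B n k b hB hn hdk hbB hb0 hlog hdvd
  obtain ⟨hgm, hgi, hgd, hM1, -⟩ := hsm
  by_contra hcon
  push Not at hcon
  obtain ⟨j0, hj0n, hj0⟩ := hcon
  have hk0 : 0 < k := lt_of_lt_of_le (by omega) hdk
  -- the largest block
  let J := (range n).filter (fun j => b j ≠ 0)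
  have hJ : J.Nonempty := ⟨j0, by simp [J, hj0n, hj0]⟩
  let i0 := J.sup' hJ (fun j => j / k)
  obtain ⟨j1, hj1, hj1i⟩ := Finset.exists_mem_eq_sup' hJ (fun j => j / k)
  have hj1' : j1 < n ∧ b j1 ≠ 0 := by simpa [J] using hj1
  have hi0 : i0 = j1 / k := hj1i
  have hmax : ∀ j < n, b j ≠ 0 → j / k ≤ i0 := fun j hj hbj =>
    Finset.le_sup' (fun j => j / k) (by simp [J, hj, hbj])
  have hi0n : i0 ≤ n := by
    rw [hi0]
    exact (Nat.div_le_self _ _).trans hj1'.1.le
  let b' : ℕ → ℤ := fun j => if j < n then b j else 0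
  have hb'B : ∀ j, (|b' j| : ℝ) ≤ B := by
    intro j
    simp only [b']
    split_ifs
    · exact hbB j
    · simp; linarith
  have hb'0 : ∀ j, d ≤ j % k → b' j = 0 := by
    intro j hj
    simp only [b']
    split_ifs
    · exact hb0 j hj
    · rfl
  have hb'far : ∀ j, i0 * k + d ≤ j → b' j = 0 := by
    intro j hj
    by_contra hne
    have hjn : j < n := by
      by_contra h
      exact hne (by simp [b', h])
    have hbj : b j ≠ 0 := by simpa [b', hjn] using hne
    have h1 := hmax j hjn hbj
    have h2 : i0 ≤ j / k := (Nat.le_div_iff_mul_le hk0).2 (by omega)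
    have h3 : j / k = i0 := le_antisymm h1 h2
    have h4 := Nat.div_add_mod j k
    rw [h3] at h4
    have h5 : d ≤ j % k := by
      have : k * i0 = i0 * k := mul_comm _ _
      omega
    exact hbj (hb0 j h5)
  set p : ℤ[X] := ∑ l ∈ range d, C (b' (i0 * k + l)) * X ^ l with hp
  have hsum : ∑ j ∈ range n, C (b j) * X ^ j =
      ∑ j ∈ range (i0 * k), C (b' j) * X ^ j + X ^ (i0 * k) * p := by
    have h1 : ∑ j ∈ range n, C (b j) * X ^ j = ∑ j ∈ range (n + (i0 * k + d)), C (b' j) * X ^ j := by
      rw [← sum_subset (range_mono (show n ≤ n + (i0 * k + d) by omega))]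
      · refine sum_congr rfl fun j hj => ?_
        rw [mem_range] at hj
        simp [b', hj]
      · intro j _ hj
        rw [mem_range] at hj
        simp [b', hj]
    have h2 : ∑ j ∈ range (i0 * k + d), C (b' j) * X ^ j =
        ∑ j ∈ range (n + (i0 * k + d)), C (b' j) * X ^ j := by
      refine sum_subset (range_mono (by omega)) ?_
      intro j _ hj
      rw [mem_range, not_lt] at hj
      rw [hb'far j hj, C_0, zero_mul]
    rw [h1, ← h2, sum_range_add, hp, mul_sum]
    congr 1
    refine sum_congr rfl fun l _ => ?_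
    rw [pow_add]
    ring
  have hpd : p.degree < d := by
    rw [degree_lt_iff_coeff_zero]
    intro m hm
    rw [hp, finsetSum_coeff]
    refine sum_eq_zero fun l hl => ?_
    rw [mem_range] at hl
    rw [coeff_C_mul, coeff_X_pow, if_neg (by omega), mul_zero]
  have hp0 : p ≠ 0 := by
    intro h0
    have h1 : p.coeff (j1 % k) = b j1 := by
      have hlt : j1 % k < d := by
        by_contra h
        exact hj1'.2 (hb0 j1 (not_lt.1 h))
      rw [hp, finsetSum_coeff]
      rw [sum_eq_single (j1 % k)]
      · have h2 : i0 * k + j1 % k = j1 := by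
          rw [hi0, mul_comm]
          exact Nat.div_add_mod j1 k
        simp [h2, b', hj1'.1]
      · intro l _ hl
        rw [coeff_C_mul, coeff_X_pow, if_neg (Ne.symm hl), mul_zero]
      · intro h
        exact absurd (mem_range.2 hlt) h
    rw [h0, coeff_zero] at h1
    exact hj1'.2 h1.symm
  have hndvd : ¬ g ∣ p := by
    intro h
    have h1 := degree_le_of_dvd h hp0
    rw [degree_eq_natDegree hgm.ne_zero, hgd] at h1
    exact absurd (lt_of_le_of_lt h1 hpd) (lt_irrefl _)
  have hprod := one_le_prod_eval hgm hgi hndvd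
  set G := g.map (Int.castRingHom ℂ) with hG
  set P := p.map (Int.castRingHom ℂ) with hP
  have hcard : G.roots.card = d := by
    rw [← (IsAlgClosed.splits G).natDegree_eq_card_roots, hG, hgm.natDegree_map, hgd]
  -- one root
  have hC0 : (0 : ℝ) ≤ B * d * n := by positivity
  have hn1 : (1 : ℝ) ≤ n := by exact_mod_cast hn
  have hroot : ∀ a ∈ G.roots, ‖P.eval a‖ * max 1 ‖a‖ ^ (k - d) ≤ B * d * n := by
    intro a ha
    have hPa : P.eval a = ∑ l ∈ range d, (b' (i0 * k + l) : ℂ) * a ^ l := by
      rw [hP, hp, Polynomial.map_sum, eval_finsetSum]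
      refine sum_congr rfl fun l _ => ?_
      simp
    rcases le_or_gt ‖a‖ 1 with h1 | h1
    · rw [max_eq_left h1, one_pow, mul_one, hPa]
      refine (norm_sum_le _ _).trans ?_
      refine (sum_le_sum (g := fun _ => B) fun l _ => ?_).trans ?_
      · rw [norm_mul, norm_pow, Complex.norm_intCast]
        calc (|((b' (i0 * k + l) : ℤ) : ℝ)|) * ‖a‖ ^ l ≤ B * 1 :=
              mul_le_mul (hb'B _) (pow_le_one₀ (norm_nonneg _) h1) (by positivity) (by linarith)
          _ = B := mul_one _
      · rw [sum_const, card_range, nsmul_eq_mul]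
        have : (0 : ℝ) ≤ d * B := by positivity
        nlinarith
    · rw [max_eq_right h1.le]
      have hF : (∑ j ∈ range (i0 * k), (b' j : ℂ) * a ^ j) + a ^ (i0 * k) * P.eval a = 0 := by
        have h2 : (((∑ j ∈ range n, C (b j) * X ^ j : ℤ[X])).map (Int.castRingHom ℂ)).eval a = 0 := by
          obtain ⟨q, hq⟩ := hdvd
          rw [hq, Polynomial.map_mul, eval_mul]
          have : G.eval a = 0 := by
            rw [mem_roots (hgm.map _).ne_zero] at ha
            exact ha
          rw [← hG, this, zero_mul]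
        rw [hsum, Polynomial.map_add, Polynomial.map_mul, Polynomial.map_pow, map_X,
          eval_add, eval_mul, eval_pow, eval_X, Polynomial.map_sum, eval_finsetSum] at h2
        rw [← h2]
        congr 1
        refine sum_congr rfl fun l _ => ?_
        simp
      have ha0 : 0 < ‖a‖ := by linarith
      rcases Nat.eq_zero_or_pos i0 with hi | hi
      · rw [hi] at hF
        simp only [zero_mul, range_zero, sum_empty, zero_add, pow_zero, one_mul] at hF
        rw [hF, norm_zero, zero_mul]
        exact hC0
      · -- the sum below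
        have hle : ‖a‖ ^ (i0 * k) * ‖P.eval a‖ ≤ i0 * (d * (B * ‖a‖ ^ ((i0 - 1) * k + d))) := by
          have h3 : a ^ (i0 * k) * P.eval a = -∑ j ∈ range (i0 * k), (b' j : ℂ) * a ^ j := by
            rw [eq_neg_iff_add_eq_zero, add_comm]
            exact hF
          have h4 : ‖a‖ ^ (i0 * k) * ‖P.eval a‖ = ‖∑ j ∈ range (i0 * k), (b' j : ℂ) * a ^ j‖ := by
            rw [← norm_pow, ← norm_mul, h3, norm_neg]
          rw [h4]
          refine (norm_sum_le _ _).trans ?_
          refine sum_blocks hdk i0 ?_ ?_
          · intro j hj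
            rw [hb'0 j hj]
            simp
          · intro j hj hjd
            rw [norm_mul, norm_pow, Complex.norm_intCast]
            refine mul_le_mul (hb'B _) (pow_le_pow_right₀ h1.le ?_) (by positivity) (by linarith)
            have h5 := Nat.div_add_mod j k
            have h6 : j / k < i0 := (Nat.div_lt_iff_lt_mul hk0).2 hj
            have h7 : k * (j / k) ≤ (i0 - 1) * k := by
              rw [mul_comm]
              exact Nat.mul_le_mul_right _ (by omega)
            omega
        have hexp : i0 * k = ((i0 - 1) * k + d) + (k - d) := by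
          have e1 : (i0 - 1 + 1) * k = (i0 - 1) * k + k := Nat.succ_mul _ _
          rw [Nat.sub_add_cancel hi] at e1
          omega
        rw [hexp, pow_add] at hle
        have hpos : 0 < ‖a‖ ^ ((i0 - 1) * k + d) := by positivity
        have h8 : ‖P.eval a‖ * ‖a‖ ^ (k - d) ≤ i0 * (d * B) := by
          refine le_of_mul_le_mul_left (a := ‖a‖ ^ ((i0 - 1) * k + d)) ?_ hpos
          calc ‖a‖ ^ ((i0 - 1) * k + d) * (‖P.eval a‖ * ‖a‖ ^ (k - d))
              = ‖a‖ ^ ((i0 - 1) * k + d) * ‖a‖ ^ (k - d) * ‖P.eval a‖ := by ring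
            _ ≤ i0 * (d * (B * ‖a‖ ^ ((i0 - 1) * k + d))) := hle
            _ = ‖a‖ ^ ((i0 - 1) * k + d) * (i0 * (d * B)) := by ring
        refine h8.trans ?_
        have h9 : (i0 : ℝ) ≤ n := by exact_mod_cast hi0n
        calc (i0 : ℝ) * (d * B) ≤ n * (d * B) := mul_le_mul_of_nonneg_right h9 (by positivity)
          _ = B * d * n := by ring
  -- the product over all roots
  have hall : (G.roots.map fun a => ‖P.eval a‖ * max 1 ‖a‖ ^ (k - d)).prod ≤ (B * d * n) ^ d := by
    have h1 := Multiset.prod_map_le_prod_map₀ (s := G.roots)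
      (fun a => ‖P.eval a‖ * max 1 ‖a‖ ^ (k - d)) (fun _ => B * d * n)
      (fun a _ => by positivity) hroot
    refine h1.trans ?_
    rw [Multiset.map_const', Multiset.prod_replicate, hcard]
  have hMg : M g = (G.roots.map fun a => max 1 ‖a‖).prod := by
    unfold M
    rw [← hG, mahlerMeasure_eq_leadingCoeff_mul_prod_roots, (hgm.map _).leadingCoeff, norm_one,
      one_mul]
  rw [Multiset.prod_map_mul, Multiset.prod_map_pow, ← hMg] at hall
  have hMpos : 0 < M g := by linarith
  have hfin : M g ^ (k - d) ≤ (B * d * n) ^ d := by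
    refine le_trans ?_ hall
    exact le_mul_of_one_le_left (by positivity) hprod
  have hl := Real.log_le_log (by positivity) hfin
  rw [Real.log_pow, Real.log_pow, Nat.cast_sub hdk] at hl
  linarith

end Pool.Agent.K4H76.RP
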