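import Mathlib

/-!
# Factors of small Mahler measure of random polynomials: definitions and pieces
-/

set_option autoImplicit false

open Polynomial Finset

namespace Pool.Agent.K4H76.RP

/-- The Mahler measure of an integer polynomial. -/
noncomputable def M (f : ℤ[X]) : ℝ := (f.map (Int.castRingHom ℂ)).mahlerMeasure

/-- Reduction modulo 2. -/
noncomputable def red (f : ℤ[X]) : (ZMod 2)[X] := f.map (Int.castRingHom (ZMod 2))

/-- The monic irreducible polynomials of degree `d` and Mahler measure in `(1, T]`. -/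
def Small (T : ℝ) (d : ℕ) (g : ℤ[X]) : Prop :=
  g.Monic ∧ Irreducible g ∧ g.natDegree = d ∧ 1 < M g ∧ M g ≤ T

/-- PIECE CLASS: few small polynomials in a class modulo 2. -/
def S_CLASS : Prop := ∀ T : ℝ, T < √2 → ∃ K : ℝ, 0 < K ∧ ∀ d : ℕ, 1 ≤ d →
  ∀ (c : (ZMod 2)[X]) (S : Finset ℤ[X]), (∀ g ∈ S, Small T d g ∧ red g = c) →
    (S.card : ℝ) ≤ K * (1 + Real.log d)

/-- PIECE DIV: the number of divisors of given degree of a polynomial over `ZMod 2`. -/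
def S_DIV : Prop := ∀ σ : ℝ, 0 < σ → σ < 1 → ∃ K : ℝ, 0 < K ∧ ∀ n : ℕ, 1 ≤ n →
  ∀ F : (ZMod 2)[X], F ≠ 0 → F.natDegree ≤ n → ∀ (d : ℕ) (S : Finset (ZMod 2)[X]),
    (∀ c ∈ S, c.Monic ∧ c ∣ F ∧ c.natDegree = d) →
      (S.card : ℝ) ≤ (2 : ℝ) ^ (σ * d) * Real.exp (K * (n : ℝ) ^ (1 - σ))

/-- PIECE BLOCK: a small polynomial does not divide polynomials supported in far blocks. -/
def S_BLOCK : Prop := ∀ (T : ℝ) (d : ℕ) (g : ℤ[X]), 1 ≤ d → Small T d g →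
  ∀ (B : ℝ) (n k : ℕ) (b : ℕ → ℤ), 1 ≤ B → 1 ≤ n → d ≤ k →
    (∀ j, (|b j| : ℝ) ≤ B) → (∀ j, d ≤ j % k → b j = 0) →
    d * Real.log (B * d * n) < ((k : ℝ) - d) * Real.log (M g) →
    g ∣ ∑ j ∈ range n, C (b j) * X ^ j → ∀ j < n, b j = 0

/-- PIECE DOB: Dobrowolski's theorem. -/
def S_DOB : Prop := ∃ c : ℝ, 0 < c ∧ ∀ (T : ℝ) (d : ℕ) (g : ℤ[X]), Small T d g →
  c / (Real.log (2 * d)) ^ 3 ≤ Real.log (M g)

/-- PIECE RED: reduction to monic irreducible factors. -/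
def S_RED : Prop := ∀ (T : ℝ), T < √2 → ∀ f g : ℤ[X], g ∣ f → 1 < M g → M g ≤ T →
  ∃ (d : ℕ) (h : ℤ[X]), 1 ≤ d ∧ Small T d h ∧ h ∣ f

end Pool.Agent.K4H76.RP
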