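import Mathlib
import Pool.Agent.K4H76.RP.Defs
import Pool.Agent.H388SL.Energy

set_option autoImplicit false

/-!
# Few small polynomials in a class modulo 2 (piece CLASS)
-/

open Polynomial Finset

namespace Pool.Agent.K4H76.RP

noncomputable section

/-- the polynomial over `ℂ` -/
def cc (g : ℤ[X]) : ℂ[X] := g.map (Int.castRingHom ℂ)

lemma cc_monic {g : ℤ[X]} (hg : g.Monic) : (cc g).Monic := hg.map _

lemma prod_int {g u : ℤ[X]} (hg : g.Monic) :
    ∃ r : ℤ, ((cc g).roots.map (cc u).eval).prod = (r : ℂ) := by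
  refine ⟨resultant g u g.natDegree u.natDegree, ?_⟩
  have h1 := resultant_eq_prod_eval (cc g) (cc u) u.natDegree natDegree_map_le
    (IsAlgClosed.splits (cc g))
  rw [(cc_monic hg).leadingCoeff, one_pow, one_mul] at h1
  rw [← h1]
  have h2 : (cc g).natDegree = g.natDegree := hg.natDegree_map _
  rw [h2]
  unfold cc
  rw [resultant_map_map]
  simp

/-- the product of the values at the roots is at least one -/
lemma one_le {g u : ℤ[X]} (hg : g.Monic) (hu : ∀ a ∈ (cc g).roots, (cc u).eval a ≠ 0) :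
    0 ≤ ((cc g).roots.map fun a => Real.log ‖(cc u).eval a‖).sum := by
  obtain ⟨r, hr⟩ := prod_int (g := g) (u := u) hg
  have h0 : ((cc g).roots.map (cc u).eval).prod ≠ 0 := by
    rw [Ne, Multiset.prod_eq_zero_iff]
    intro h
    rw [Multiset.mem_map] at h
    obtain ⟨a, ha, h1⟩ := h
    exact hu a ha h1
  have hr0 : r ≠ 0 := by
    rintro rfl
    rw [hr] at h0
    simp at h0
  have h1 : 1 ≤ ‖((cc g).roots.map (cc u).eval).prod‖ := by
    rw [hr, Complex.norm_intCast]
    exact_mod_cast Int.one_le_abs hr0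
  have h2 : ((cc g).roots.map fun a => Real.log ‖(cc u).eval a‖).sum =
      Real.log ‖((cc g).roots.map (cc u).eval).prod‖ := by
    have h3 : ‖((cc g).roots.map (cc u).eval).prod‖ =
        ((cc g).roots.map fun a => ‖(cc u).eval a‖).prod := by
      have := map_multiset_prod (normHom (α := ℂ)) ((cc g).roots.map (cc u).eval)
      simp only [Multiset.map_map] at this
      exact this
    rw [h3, Real.log_multiset_prod]
    · rw [Multiset.map_map]
      rfl
    · intro x hx
      rw [Multiset.mem_map] at hx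
      obtain ⟨a, ha, rfl⟩ := hx
      exact norm_ne_zero_iff.2 (hu a ha)
  rw [h2]
  exact Real.log_nonneg h1

lemma root_int {g : ℤ[X]} {a : ℂ} (hg : g.Monic) (ha : a ∈ (cc g).roots) :
    IsIntegral ℤ a ∧ aeval a g = 0 := by
  have h1 : (cc g).eval a = 0 := (mem_roots'.1 ha).2
  have h2 : aeval a g = 0 := by
    rw [aeval_def, ← eval_map]
    exact h1
  exact ⟨⟨g, hg, h2⟩, h2⟩

lemma eq_minpoly {g : ℤ[X]} {a : ℂ} (hg : g.Monic) (hi : Irreducible g) (ha : a ∈ (cc g).roots) :
    g = minpoly ℤ a := by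
  obtain ⟨h1, h2⟩ := root_int hg ha
  have h3 : minpoly ℤ a ∣ g := minpoly.isIntegrallyClosed_dvd h1 h2
  have h4 : Associated (minpoly ℤ a) g :=
    (hi.dvd_iff.1 h3).resolve_left (minpoly.irreducible h1).not_isUnit |>.symm
  exact (eq_of_monic_of_associated (minpoly.monic h1) hg h4).symm

lemma nodup {g : ℤ[X]} (hg : g.Monic) (hi : Irreducible g) : (cc g).roots.Nodup := by
  have h1 : Irreducible (g.map (algebraMap ℤ ℚ)) :=
    (hg.irreducible_iff_irreducible_map_fraction_map (K := ℚ)).1 hi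
  have h2 : (g.map (algebraMap ℤ ℚ)).Separable := h1.separable
  have h3 : ((g.map (algebraMap ℤ ℚ)).map (algebraMap ℚ ℂ)).Separable := h2.map
  have h4 : (g.map (algebraMap ℤ ℚ)).map (algebraMap ℚ ℂ) = cc g := by
    rw [Polynomial.map_map]
    unfold cc
    congr 1
  rw [h4] at h3
  exact nodup_roots h3

/-- the set of the roots -/
def R (g : ℤ[X]) : Finset ℂ := (cc g).roots.toFinset

lemma sum_R {g : ℤ[X]} (hg : g.Monic) (hi : Irreducible g) (F : ℂ → ℝ) :
    ∑ a ∈ R g, F a = ((cc g).roots.map F).sum := by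
  unfold R
  rw [Finset.sum_multiset_map_count]
  refine sum_congr rfl fun a ha => ?_
  rw [Multiset.mem_toFinset] at ha
  rw [Multiset.count_eq_one_of_mem (nodup hg hi) ha, one_smul]

lemma card_R {g : ℤ[X]} (hg : g.Monic) (hi : Irreducible g) : (R g).card = g.natDegree := by
  unfold R
  rw [Multiset.toFinset_card_of_nodup (nodup hg hi)]
  rw [← (IsAlgClosed.splits (cc g)).natDegree_eq_card_roots]
  exact hg.natDegree_map _

lemma mem_R {g : ℤ[X]} {a : ℂ} : a ∈ R g ↔ a ∈ (cc g).roots := by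
  unfold R
  rw [Multiset.mem_toFinset]

lemma disj {g h : ℤ[X]} (hg : g.Monic) (hi : Irreducible g) (hh : h.Monic) (hj : Irreducible h)
    (hne : g ≠ h) : Disjoint (R g) (R h) := by
  rw [Finset.disjoint_left]
  intro a ha hb
  rw [mem_R] at ha hb
  exact hne ((eq_minpoly hg hi ha).trans (eq_minpoly hh hj hb).symm)

/-- the roots and the Mahler measure -/
lemma sum_max {g : ℤ[X]} (hg : g.Monic) (hi : Irreducible g) :
    ∑ a ∈ R g, Real.log (max 1 ‖a‖) = Real.log (M g) := by
  have h := logMahlerMeasure_eq_log_leadingCoeff_add_sum_log_roots (cc g)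
  rw [logMahlerMeasure_eq_log_MahlerMeasure, (cc_monic hg).leadingCoeff, norm_one, Real.log_one,
    zero_add] at h
  unfold M
  rw [sum_R hg hi]
  unfold cc at h ⊢
  rw [h]
  congr 1
  refine Multiset.map_congr rfl fun a _ => ?_
  rw [Real.posLog_eq_log_max_one (norm_nonneg _)]

/-- off-diagonal terms -/
lemma off {g h : ℤ[X]} {d : ℕ} (hg : g.Monic) (hi : Irreducible g) (hh : h.Monic)
    (hj : Irreducible h) (hne : g ≠ h) (hd : g.natDegree = d) (hr : red g = red h) :
    (d : ℝ) * Real.log 2 ≤ ∑ a ∈ R g, ∑ b ∈ R h, (if a = b then 0 else Real.log ‖a - b‖) := by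
  have hdis := disj hg hi hh hj hne
  have hne' : ∀ a ∈ R g, ∀ b ∈ R h, a ≠ b := by
    intro a ha b hb hab
    subst hab
    exact Finset.disjoint_left.1 hdis ha hb
  -- inner sum
  have h1 : ∀ a ∈ R g, ∑ b ∈ R h, (if a = b then 0 else Real.log ‖a - b‖) =
      Real.log ‖(cc h).eval a‖ := by
    intro a ha
    have e1 : (cc h).eval a = ((cc h).roots.map fun b => a - b).prod := by
      conv_lhs => rw [(IsAlgClosed.splits (cc h)).eq_prod_roots_of_monic (cc_monic hh)]
      rw [eval_multiset_prod, Multiset.map_map]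
      congr 1
      refine Multiset.map_congr rfl fun b _ => ?_
      simp
    have e2 : ‖(cc h).eval a‖ = ((cc h).roots.map fun b => ‖a - b‖).prod := by
      rw [e1]
      have := map_multiset_prod (normHom (α := ℂ)) ((cc h).roots.map fun b => a - b)
      simp only [Multiset.map_map] at this
      exact this
    rw [e2, Real.log_multiset_prod, Multiset.map_map, ← sum_R hh hj]
    · refine sum_congr rfl fun b hb => ?_
      rw [if_neg (hne' a ha b hb)]
      rfl
    · intro x hx
      rw [Multiset.mem_map] at hx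
      obtain ⟨b, hb, rfl⟩ := hx
      exact norm_ne_zero_iff.2 (sub_ne_zero.2 (hne' a ha b (mem_R.2 hb)))
  rw [sum_congr rfl h1]
  -- h - g = 2 u
  obtain ⟨u, hu⟩ : C (2 : ℤ) ∣ h - g := by
    rw [C_dvd_iff_dvd_coeff]
    intro i
    have h2 : (red h).coeff i = (red g).coeff i := by rw [hr]
    unfold red at h2
    rw [coeff_map, coeff_map] at h2
    have h3 : ((h.coeff i - g.coeff i : ℤ) : ZMod 2) = 0 := by
      push_cast
      rw [sub_eq_zero]
      exact h2
    rw [coeff_sub]
    exact (ZMod.intCast_zmod_eq_zero_iff_dvd _ 2).1 h3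
  have hval : ∀ a ∈ R g, (cc h).eval a = 2 * (cc u).eval a := by
    intro a ha
    have h4 : (cc g).eval a = 0 := (mem_roots'.1 (mem_R.1 ha)).2
    have h5 : cc h = cc g + C 2 * cc u := by
      unfold cc
      have : h = g + C 2 * u := by rw [← hu]; ring
      conv_lhs => rw [this]
      rw [Polynomial.map_add, Polynomial.map_mul, Polynomial.map_C]
      congr 2
    rw [h5, eval_add, h4, eval_mul, eval_C, zero_add]
  have hne0 : ∀ a ∈ R g, (cc u).eval a ≠ 0 := by
    intro a ha h0
    have h6 : (cc h).eval a = 0 := by rw [hval a ha, h0, mul_zero]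
    have h7 : a ∈ R h := by
      rw [mem_R, mem_roots (cc_monic hh).ne_zero]
      exact h6
    exact hne' a ha a h7 rfl
  have h8 : ∑ a ∈ R g, Real.log ‖(cc h).eval a‖ =
      (d : ℝ) * Real.log 2 + ∑ a ∈ R g, Real.log ‖(cc u).eval a‖ := by
    rw [← hd, ← card_R hg hi, ← nsmul_eq_mul, ← sum_const, ← sum_add_distrib]
    refine sum_congr rfl fun a ha => ?_
    rw [hval a ha, norm_mul, Real.log_mul (by norm_num) (norm_ne_zero_iff.2 (hne0 a ha))]
    norm_num
  rw [h8]
  have h9 := one_le hg (u := u) (fun a ha => hne0 a (mem_R.2 ha))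
  rw [← sum_R hg hi] at h9
  linarith

/-- diagonal terms -/
lemma diag {g : ℤ[X]} (hg : g.Monic) (hi : Irreducible g) :
    0 ≤ ∑ a ∈ R g, ∑ b ∈ R g, (if a = b then 0 else Real.log ‖a - b‖) := by
  have hnd := nodup hg hi
  have h1 : ∀ a ∈ R g, ∑ b ∈ R g, (if a = b then 0 else Real.log ‖a - b‖) =
      Real.log ‖(cc (derivative g)).eval a‖ ∧ (cc (derivative g)).eval a ≠ 0 := by
    intro a ha
    have ha' := mem_R.1 ha
    have e0 : cc (derivative g) = derivative (cc g) := by
      unfold cc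
      rw [derivative_map]
    have e1 : (cc (derivative g)).eval a = (((cc g).roots.erase a).map fun b => a - b).prod := by
      rw [e0]
      conv_lhs => rw [(IsAlgClosed.splits (cc g)).eq_prod_roots_of_monic (cc_monic hg)]
      rw [eval_multiset_prod_X_sub_C_derivative ha']
    have e2 : ‖(cc (derivative g)).eval a‖ = (((cc g).roots.erase a).map fun b => ‖a - b‖).prod := by
      rw [e1]
      have := map_multiset_prod (normHom (α := ℂ)) (((cc g).roots.erase a).map fun b => a - b)
      simp only [Multiset.map_map] at this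
      exact this
    have hmem : ∀ b ∈ (cc g).roots.erase a, b ∈ R g ∧ a ≠ b := by
      intro b hb
      refine ⟨mem_R.2 (Multiset.mem_of_mem_erase hb), ?_⟩
      rintro rfl
      exact hnd.notMem_erase hb
    have hnz : ∀ x ∈ ((cc g).roots.erase a).map (fun b => ‖a - b‖), x ≠ 0 := by
      intro x hx
      rw [Multiset.mem_map] at hx
      obtain ⟨b, hb, rfl⟩ := hx
      exact norm_ne_zero_iff.2 (sub_ne_zero.2 (hmem b hb).2)
    refine ⟨?_, ?_⟩
    · rw [e2, Real.log_multiset_prod hnz, Multiset.map_map]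
      rw [sum_R hg hi, ← Multiset.cons_erase ha', Multiset.map_cons, Multiset.sum_cons, if_pos rfl,
        zero_add, Multiset.erase_cons_head]
      congr 1
      refine Multiset.map_congr rfl fun b hb => ?_
      rw [if_neg (hmem b hb).2]
      rfl
    · rw [e1, Ne, Multiset.prod_eq_zero_iff, Multiset.mem_map]
      rintro ⟨b, hb, h⟩
      exact (hmem b hb).2 (sub_eq_zero.1 h)
  rw [sum_congr rfl fun a ha => (h1 a ha).1]
  have h9 := one_le hg (u := derivative g) (fun a ha => (h1 a (mem_R.2 ha)).2)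
  rwa [← sum_R hg hi] at h9

/-- the inequality for one class -/
lemma main_ineq {T : ℝ} (_hT1 : 1 < T) {d : ℕ} (hd : 1 ≤ d) (c : (ZMod 2)[X]) (S : Finset ℤ[X])
    (hS : ∀ g ∈ S, Small T d g ∧ red g = c) (hk : 1 ≤ S.card) :
    (S.card : ℝ) * (Real.log 2 - 2 * Real.log T) ≤
      Real.log 2 + 1 + Real.log S.card + Real.log d := by
  set k : ℝ := (S.card : ℝ) with hkdef
  have hk1 : (1 : ℝ) ≤ k := by rw [hkdef]; exact_mod_cast hk
  have hd1 : (1 : ℝ) ≤ d := by exact_mod_cast hd
  set s : Finset ℂ := S.biUnion R with hs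
  have hpd : (S : Set ℤ[X]).PairwiseDisjoint R := by
    intro g hg h hh hne
    exact disj (hS g hg).1.1 (hS g hg).1.2.1 (hS h hh).1.1 (hS h hh).1.2.1 hne
  have hcard : (s.card : ℝ) = k * d := by
    rw [hs, card_biUnion hpd]
    have : ∀ g ∈ S, (R g).card = d := fun g hg => by
      rw [card_R (hS g hg).1.1 (hS g hg).1.2.1, (hS g hg).1.2.2.1]
    rw [sum_congr rfl this, sum_const, smul_eq_mul]
    push_cast
    rfl
  set D : ℝ := k * d with hD
  have hD1 : 1 ≤ D := by rw [hD]; nlinarith
  have hD0 : 0 < D := by linarith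
  have hE := Pool.Agent.H388SL.energy s (fun _ => 1) (fun _ _ => zero_le_one) (fun z : ℂ => z)
    (fun i _ j _ hij => hij) (t := 1 - 1 / D) (by
      rw [sub_nonneg, div_le_one hD0]; exact hD1) (by
      have : 0 < 1 / D := by positivity
      linarith)
  simp only [one_mul, one_pow, sum_const, nsmul_eq_mul, mul_one] at hE
  rw [hcard] at hE
  -- lower bound
  have hlow : k * (k - 1) * (d * Real.log 2) ≤
      ∑ i ∈ s, ∑ j ∈ s, (if i = j then 0 else Real.log ‖i - j‖) := by
    rw [hs, sum_biUnion hpd]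
    have e1 : ∀ g ∈ S, ∑ i ∈ R g, ∑ j ∈ S.biUnion R, (if i = j then 0 else Real.log ‖i - j‖) =
        ∑ h ∈ S, ∑ i ∈ R g, ∑ j ∈ R h, (if i = j then 0 else Real.log ‖i - j‖) := by
      intro g _
      rw [sum_comm' (s := S) (t := fun _ => R g) (t' := R g) (s' := fun _ => S) (by tauto)]
      refine sum_congr rfl fun i _ => ?_
      rw [sum_biUnion hpd]
    rw [sum_congr rfl e1]
    have e2 : ∀ g ∈ S, (k - 1) * (d * Real.log 2) ≤
        ∑ h ∈ S, ∑ i ∈ R g, ∑ j ∈ R h, (if i = j then 0 else Real.log ‖i - j‖) := by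
      intro g hg
      rw [← add_sum_erase S _ hg]
      have h1 := diag (hS g hg).1.1 (hS g hg).1.2.1
      have h2 : ((S.erase g).card : ℝ) * (d * Real.log 2) ≤
          ∑ h ∈ S.erase g, ∑ i ∈ R g, ∑ j ∈ R h, (if i = j then 0 else Real.log ‖i - j‖) := by
        rw [← nsmul_eq_mul, ← sum_const]
        refine sum_le_sum fun h hh => ?_
        rw [mem_erase] at hh
        exact off (hS g hg).1.1 (hS g hg).1.2.1 (hS h hh.2).1.1 (hS h hh.2).1.2.1
          (Ne.symm hh.1) (hS g hg).1.2.2.1 ((hS g hg).2.trans (hS h hh.2).2.symm)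
      have h3 : ((S.erase g).card : ℝ) = k - 1 := by
        rw [card_erase_of_mem hg, Nat.cast_sub hk, Nat.cast_one]
      rw [h3] at h2
      linarith
    calc k * (k - 1) * (d * Real.log 2) = ∑ g ∈ S, (k - 1) * (d * Real.log 2) := by
          rw [sum_const, nsmul_eq_mul]; ring
      _ ≤ _ := sum_le_sum e2
  -- Mahler measures
  have hmax : ∑ i ∈ s, Real.log (max 1 ‖i‖) ≤ k * Real.log T := by
    rw [hs, sum_biUnion hpd]
    calc ∑ g ∈ S, ∑ i ∈ R g, Real.log (max 1 ‖i‖) ≤ ∑ g ∈ S, Real.log T := by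
          refine sum_le_sum fun g hg => ?_
          rw [sum_max (hS g hg).1.1 (hS g hg).1.2.1]
          exact Real.log_le_log (by linarith [(hS g hg).1.2.2.2.1]) (hS g hg).1.2.2.2.2
      _ = _ := by rw [sum_const, nsmul_eq_mul]
  have hlog1 : Real.log (2 / (1 + (1 - 1 / D))) ≤ 1 / D := by
    have h1 : (0 : ℝ) < 1 + (1 - 1 / D) := by
      have : 1 / D ≤ 1 := by rw [div_le_one hD0]; exact hD1
      linarith
    have h2 := Real.log_le_sub_one_of_pos (show 0 < 2 / (1 + (1 - 1 / D)) by positivity)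
    refine h2.trans ?_
    rw [div_sub_one h1.ne', div_le_div_iff₀ h1 hD0]
    have : 1 / D ≤ 1 := by rw [div_le_one hD0]; exact hD1
    have h3 : 1 / D * D = 1 := by field_simp
    nlinarith
  have hlog2 : Real.log (1 / (1 - (1 - 1 / D))) = Real.log k + Real.log d := by
    rw [sub_sub_cancel, one_div_one_div, hD, Real.log_mul (by linarith) (by linarith)]
  rw [hlog2] at hE
  have ht0 : 0 ≤ (1 - 1 / D) * ‖∑ i ∈ s, ((1 : ℝ) : ℂ) * Pool.Agent.H388SL.refl i‖ ^ 2 := by
    refine mul_nonneg ?_ (by positivity)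
    rw [sub_nonneg, div_le_one hD0]; exact hD1
  have hE' : k * (k - 1) * (d * Real.log 2) ≤
      2 * D * (k * Real.log T) + D ^ 2 * (1 / D) + D * (Real.log k + Real.log d) := by
    have h5 : 2 * D * ∑ i ∈ s, Real.log (max 1 ‖i‖) ≤ 2 * D * (k * Real.log T) :=
      mul_le_mul_of_nonneg_left hmax (by linarith)
    have h6 : D ^ 2 * Real.log (2 / (1 + (1 - 1 / D))) ≤ D ^ 2 * (1 / D) :=
      mul_le_mul_of_nonneg_left hlog1 (by positivity)
    simp only [Complex.ofReal_one, one_mul] at ht0 hE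
    linarith [hlow, hE, ht0]
  have h7 : D ^ 2 * (1 / D) = D := by field_simp
  rw [h7] at hE'
  have h8 : D * ((k - 1) * Real.log 2) ≤ D * (2 * (k * Real.log T) + 1 + (Real.log k + Real.log d)) := by
    calc D * ((k - 1) * Real.log 2) = k * (k - 1) * (d * Real.log 2) := by rw [hD]; ring
      _ ≤ _ := hE'
      _ = _ := by ring
  have h9 := le_of_mul_le_mul_left h8 hD0
  linarith

theorem class_bound : S_CLASS := by
  intro T hT
  by_cases hT1 : T ≤ 1
  · refine ⟨1, one_pos, fun d hd c S hS => ?_⟩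
    have hS0 : S = ∅ := by
      rw [Finset.eq_empty_iff_forall_notMem]
      intro g hg
      have := (hS g hg).1.2.2.2
      linarith [this.1, this.2]
    rw [hS0]
    have : 0 ≤ Real.log d := Real.log_nonneg (by exact_mod_cast hd)
    simp
    linarith
  rw [not_le] at hT1
  have hδ : 0 < Real.log 2 - 2 * Real.log T := by
    have h1 : Real.log T < Real.log (√2) := Real.log_lt_log (by linarith) hT
    rw [Real.log_sqrt (by norm_num)] at h1
    linarith
  set δ := Real.log 2 - 2 * Real.log T with hδdef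
  refine ⟨2 / δ * (1 + Real.log 2 + |Real.log (δ / 2)|), by
    have : 0 < Real.log 2 := Real.log_pos (by norm_num)
    positivity, fun d hd c S hS => ?_⟩
  have hlogd : 0 ≤ Real.log d := Real.log_nonneg (by exact_mod_cast hd)
  have hlog2 : 0 < Real.log 2 := Real.log_pos (by norm_num)
  rcases Nat.eq_zero_or_pos S.card with h0 | hpos
  · rw [h0]
    push_cast
    positivity
  have h1 := main_ineq hT1 hd c S hS hpos
  have hk0 : (0 : ℝ) < S.card := by exact_mod_cast hpos
  have h2 := Real.log_le_sub_one_of_pos (show 0 < δ / 2 * (S.card : ℝ) by positivity)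
  rw [Real.log_mul (by positivity) (by positivity)] at h2
  have h3 := neg_abs_le (Real.log (δ / 2))
  have h4 : (S.card : ℝ) * (δ / 2) ≤ Real.log 2 + |Real.log (δ / 2)| + Real.log d := by
    have : (S.card : ℝ) * δ ≤ Real.log 2 + 1 + Real.log S.card + Real.log d := h1
    nlinarith
  have h5 : (S.card : ℝ) ≤ 2 / δ * (Real.log 2 + |Real.log (δ / 2)| + Real.log d) := by
    rw [div_mul_eq_mul_div, le_div_iff₀ hδ]
    linarith
  refine h5.trans ?_
  rw [mul_assoc]
  refine mul_le_mul_of_nonneg_left ?_ (by positivity)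
  have h6 : 0 ≤ |Real.log (δ / 2)| := abs_nonneg _
  nlinarith

end

end Pool.Agent.K4H76.RP
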