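import Mathlib
import Pool.Agent.K4H76.RP.Defs

/-!
# Independent coefficients
-/

set_option autoImplicit false

open Polynomial Finset

namespace Pool.Agent.K4H76.RP

/-- The polynomial with the coefficients `a`. -/
noncomputable def poly {n : ℕ} (a : Fin (n + 1) → ℤ) : ℤ[X] := ∑ j, C (a j) * X ^ (j : ℕ)

open Classical in
/-- The probability of `E` for independent coefficients in `[-H, H]` with the distributions `w j`. -/
noncomputable def prob {n : ℕ} (H : ℕ) (w : Fin (n + 1) → ℤ → ℝ) (E : (Fin (n + 1) → ℤ) → Prop) :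
    ℝ :=
  ∑ a ∈ Fintype.piFinset (fun _ : Fin (n + 1) => Icc (-(H : ℤ)) H), if E a then ∏ j, w j (a j) else 0

section
variable {n : ℕ} {H : ℕ} {w : Fin (n + 1) → ℤ → ℝ}

lemma prob_nonneg (h0 : ∀ j x, 0 ≤ w j x) (E : (Fin (n + 1) → ℤ) → Prop) : 0 ≤ prob H w E := by
  classical
  unfold prob
  refine sum_nonneg fun a _ => ?_
  split_ifs
  · exact prod_nonneg fun j _ => h0 j _
  · exact le_rfl

open Classical in
lemma prob_eq (E : (Fin (n + 1) → ℤ) → Prop) : prob H w E =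
    ∑ a ∈ (Fintype.piFinset (fun _ : Fin (n + 1) => Icc (-(H : ℤ)) H)).filter E,
      ∏ j, w j (a j) := by
  unfold prob
  rw [sum_filter]

lemma prob_mono (h0 : ∀ j x, 0 ≤ w j x) {E F : (Fin (n + 1) → ℤ) → Prop} 
    (h : ∀ a, (∀ j, a j ∈ Icc (-(H : ℤ)) H) → ∏ j, w j (a j) ≠ 0 → E a → F a) :
    prob H w E ≤ prob H w F := by
  classical
  unfold prob
  refine sum_le_sum fun a ha => ?_
  have hp : 0 ≤ ∏ j, w j (a j) := prod_nonneg fun j _ => h0 j _
  by_cases hE : E a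
  · rw [if_pos hE]
    by_cases hz : ∏ j, w j (a j) = 0
    · rw [hz]
      simp
    · rw [if_pos (h a (fun j => Fintype.mem_piFinset.1 ha j) hz hE)]
  · rw [if_neg hE]
    split_ifs
    · exact hp
    · exact le_rfl

lemma prob_union {ι : Type*} (h0 : ∀ j x, 0 ≤ w j x) (s : Finset ι)
    (E : (Fin (n + 1) → ℤ) → Prop) (F : ι → (Fin (n + 1) → ℤ) → Prop)
    (h : ∀ a, (∀ j, a j ∈ Icc (-(H : ℤ)) H) → ∏ j, w j (a j) ≠ 0 → E a → ∃ i ∈ s, F i a) :
    prob H w E ≤ ∑ i ∈ s, prob H w (F i) := by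
  classical
  unfold prob
  rw [sum_comm]
  refine sum_le_sum fun a ha => ?_
  have hp : 0 ≤ ∏ j, w j (a j) := prod_nonneg fun j _ => h0 j _
  have hnn : ∀ i ∈ s, 0 ≤ (if F i a then ∏ j, w j (a j) else 0) := by
    intro i _
    split_ifs
    · exact hp
    · exact le_rfl
  by_cases hE : E a
  · rw [if_pos hE]
    by_cases hz : ∏ j, w j (a j) = 0
    · rw [hz]
      simp
    · obtain ⟨i, hi, hF⟩ := h a (fun j => Fintype.mem_piFinset.1 ha j) hz hE
      calc ∏ j, w j (a j) = (if F i a then ∏ j, w j (a j) else 0) := by rw [if_pos hF]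
        _ ≤ _ := single_le_sum hnn hi
  · rw [if_neg hE]
    exact sum_nonneg hnn

/-- **Concentration.** -/
lemma conc (h0 : ∀ j x, 0 ≤ w j x) (h1 : ∀ j, ∑ x ∈ Icc (-(H : ℤ)) H, w j x = 1)
    (J : Finset (Fin (n + 1))) {q : ℝ} (hq : ∀ j ∈ J, ∀ x ∈ Icc (-(H : ℤ)) H, w j x ≤ q)
    (hq0 : 0 ≤ q)
    (E : (Fin (n + 1) → ℤ) → Prop)
    (hE : ∀ a a', (∀ j, a j ∈ Icc (-(H : ℤ)) H) → (∀ j, a' j ∈ Icc (-(H : ℤ)) H) → E a → E a' →
      (∀ j, j ∉ J → a j = a' j) → a = a') :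
    prob H w E ≤ q ^ J.card := by
  classical
  rw [prob_eq]
  set S := (Fintype.piFinset (fun _ : Fin (n + 1) => Icc (-(H : ℤ)) H)).filter E with hS
  set φ : (Fin (n + 1) → ℤ) → (Fin (n + 1) → ℤ) := fun a j => if j ∈ J then 0 else a j with hφ
  set w' : Fin (n + 1) → ℤ → ℝ := fun j x => if j ∈ J then 1 else w j x with hw'
  have hw'0 : ∀ j x, 0 ≤ w' j x := by
    intro j x
    simp only [hw']
    split_ifs
    · exact zero_le_one
    · exact h0 j x
  have h2 : ∀ a ∈ S, ∏ j, w j (a j) ≤ q ^ J.card * ∏ j, w' j (φ a j) := by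
    intro a haS
    rw [hS, mem_filter, Fintype.mem_piFinset] at haS
    have h3 : ∏ j, w j (a j) = (∏ j ∈ J, w j (a j)) * ∏ j ∈ Jᶜ, w j (a j) :=
      (prod_mul_prod_compl J _).symm
    have h4 : ∏ j, w' j (φ a j) = ∏ j ∈ Jᶜ, w j (a j) := by
      rw [← prod_mul_prod_compl J]
      have h5 : ∏ j ∈ J, w' j (φ a j) = 1 := by
        refine prod_eq_one fun j hj => ?_
        simp only [hw']
        rw [if_pos hj]
      rw [h5, one_mul]
      refine prod_congr rfl fun j hj => ?_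
      have hj' : j ∉ J := mem_compl.1 hj
      simp only [hw', hφ]
      rw [if_neg hj', if_neg hj']
    rw [h3, h4]
    refine mul_le_mul_of_nonneg_right ?_ (prod_nonneg fun j _ => h0 j _)
    calc ∏ j ∈ J, w j (a j) ≤ ∏ j ∈ J, q :=
          prod_le_prod (fun j _ => h0 j _) fun j hj => hq j hj _ (haS.1 j)
      _ = q ^ J.card := by rw [prod_const]
  have hinj : Set.InjOn φ (S : Set (Fin (n + 1) → ℤ)) := by
    intro a ha a' ha' h
    rw [Finset.mem_coe, hS, mem_filter, Fintype.mem_piFinset] at ha ha'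
    refine hE a a' ha.1 ha'.1 ha.2 ha'.2 fun j hj => ?_
    have h3 := congrFun h j
    simp only [hφ] at h3
    rwa [if_neg hj, if_neg hj] at h3
  have h3 : ∑ a ∈ S, ∏ j, w' j (φ a j) ≤ 1 := by
    have h4 : ∑ a ∈ S, ∏ j, w' j (φ a j) = ∑ v ∈ S.image φ, ∏ j, w' j (v j) := by
      rw [sum_image hinj]
    set A' : Fin (n + 1) → Finset ℤ := fun j => if j ∈ J then {0} else Icc (-(H : ℤ)) H with hA'
    have h5 : S.image φ ⊆ Fintype.piFinset A' := by
      intro v hv
      obtain ⟨a, ha, rfl⟩ := mem_image.1 hv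
      rw [hS, mem_filter, Fintype.mem_piFinset] at ha
      rw [Fintype.mem_piFinset]
      intro j
      simp only [hφ, hA']
      by_cases hj : j ∈ J
      · rw [if_pos hj, if_pos hj]
        exact mem_singleton_self _
      · rw [if_neg hj, if_neg hj]
        exact ha.1 j
    rw [h4]
    calc ∑ v ∈ S.image φ, ∏ j, w' j (v j) ≤ ∑ v ∈ Fintype.piFinset A', ∏ j, w' j (v j) :=
          sum_le_sum_of_subset_of_nonneg h5 fun v _ _ => prod_nonneg fun j _ => hw'0 j _
      _ = ∏ j, ∑ x ∈ A' j, w' j x := (prod_univ_sum A' w').symm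
      _ = 1 := by
          refine prod_eq_one fun j _ => ?_
          simp only [hw', hA']
          by_cases hj : j ∈ J
          · simp [hj]
          · simp only [hj, if_false]
            exact h1 j
  calc ∑ a ∈ S, ∏ j, w j (a j) ≤ ∑ a ∈ S, q ^ J.card * ∏ j, w' j (φ a j) := sum_le_sum h2
    _ = q ^ J.card * ∑ a ∈ S, ∏ j, w' j (φ a j) := by rw [mul_sum]
    _ ≤ q ^ J.card * 1 := mul_le_mul_of_nonneg_left h3 (pow_nonneg hq0 _)
    _ = _ := mul_one _

/-- the largest probability in a class modulo 2 -/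
lemma exists_W {w : ℤ → ℝ} (h0 : ∀ x, 0 ≤ w x) {r : ℝ} 
    (hr : ∀ x y, Even x → Odd y → w x + w y ≤ r) :
    ∃ W : ℤ → ℝ, (∀ b, 0 ≤ W b) ∧ (∀ x, w x ≤ W (x % 2)) ∧ W 0 + W 1 ≤ r := by
  have hb0 : BddAbove (Set.range fun x : {x : ℤ // Even x} => w x.1) := by
    refine ⟨r, ?_⟩
    rintro _ ⟨x, rfl⟩
    have := hr x.1 1 x.2 odd_one
    have := h0 1
    simp only
    linarith
  have hb1 : BddAbove (Set.range fun x : {x : ℤ // Odd x} => w x.1) := by
    refine ⟨r, ?_⟩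
    rintro _ ⟨x, rfl⟩
    have := hr 0 x.1 Even.zero x.2
    have := h0 0
    simp only
    linarith
  have : Nonempty {x : ℤ // Even x} := ⟨⟨0, Even.zero⟩⟩
  have : Nonempty {x : ℤ // Odd x} := ⟨⟨1, odd_one⟩⟩
  set W0 : ℝ := ⨆ x : {x : ℤ // Even x}, w x.1 with hW0
  set W1 : ℝ := ⨆ x : {x : ℤ // Odd x}, w x.1 with hW1
  have hW00 : 0 ≤ W0 := le_trans (h0 0) (le_ciSup hb0 ⟨0, Even.zero⟩)
  have hW10 : 0 ≤ W1 := le_trans (h0 1) (le_ciSup hb1 ⟨1, odd_one⟩)
  refine ⟨fun b => if b = 0 then W0 else W1, ?_, ?_, ?_⟩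
  · intro b
    simp only
    split_ifs
    · exact hW00
    · exact hW10
  · intro x
    simp only
    rcases Int.even_or_odd x with hx | hx
    · rw [if_pos (Int.even_iff.1 hx)]
      exact le_ciSup hb0 ⟨x, hx⟩
    · rw [if_neg (by rw [Int.odd_iff.1 hx]; norm_num)]
      exact le_ciSup hb1 ⟨x, hx⟩
  · have e1 : (if (0 : ℤ) = 0 then W0 else W1) = W0 := if_pos rfl
    have e2 : (if (1 : ℤ) = 0 then W0 else W1) = W1 := if_neg (by norm_num)
    change (if (0 : ℤ) = 0 then W0 else W1) + (if (1 : ℤ) = 0 then W0 else W1) ≤ r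
    rw [e1, e2]
    have h2 : W1 ≤ r - W0 := by
      refine ciSup_le fun y => ?_
      have h3 : W0 ≤ r - w y.1 := by
        refine ciSup_le fun x => ?_
        have := hr x.1 y.1 x.2 y.2
        linarith
      linarith
    linarith

/-- **Counting with parities.** -/
lemma large (h0 : ∀ j x, 0 ≤ w j x) (h1 : ∀ j, ∑ x ∈ Icc (-(H : ℤ)) H, w j x = 1)
    {d : ℕ} (hd : d ≤ n) {r : ℝ}
    (hr : ∀ j : Fin (n + 1), (j : ℕ) < n → ∀ x y, Even x → Odd y → w j x + w j y ≤ r)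
    (E : (Fin (n + 1) → ℤ) → Prop) {K : ℝ} (hK : 0 ≤ K)
    (hE : ∀ S : Finset (Fin (n + 1) → ℤ), (∀ a ∈ S, (∀ j, a j ∈ Icc (-(H : ℤ)) H) ∧ E a ∧
        ∏ j, w j (a j) ≠ 0) →
      (∀ a ∈ S, ∀ a' ∈ S, ∀ j : Fin (n + 1), a j % 2 = a' j % 2 ∧ (d ≤ (j : ℕ) → a j = a' j)) →
      (S.card : ℝ) ≤ K) :
    prob H w E ≤ K * r ^ d := by
  classical
  have hex : ∀ j : Fin (n + 1), ∃ W : ℤ → ℝ, (∀ b, 0 ≤ W b) ∧ ((j : ℕ) < d → 
      (∀ x, w j x ≤ W (x % 2)) ∧ W 0 + W 1 ≤ r) := by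
    intro j
    by_cases hj : (j : ℕ) < d
    · obtain ⟨W, hW0, hW1, hW2⟩ := exists_W (h0 j) (hr j (lt_of_lt_of_le hj hd))
      exact ⟨W, hW0, fun _ => ⟨hW1, hW2⟩⟩
    · exact ⟨fun _ => 0, fun _ => le_rfl, fun h => absurd h hj⟩
  choose W hW0 hW using hex
  set φ : (Fin (n + 1) → ℤ) → (Fin (n + 1) → ℤ) := 
    fun a j => if (j : ℕ) < d then a j % 2 else a j with hφ
  set w' : Fin (n + 1) → ℤ → ℝ := fun j x => if (j : ℕ) < d then W j x else w j x with hw'
  set A' : Fin (n + 1) → Finset ℤ := fun j => if (j : ℕ) < d then {0, 1} else Icc (-(H : ℤ)) H 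
    with hA'
  have hw'0 : ∀ j x, 0 ≤ w' j x := by
    intro j x
    simp only [hw']
    split_ifs
    · exact hW0 j x
    · exact h0 j x
  set S := (Fintype.piFinset (fun _ : Fin (n + 1) => Icc (-(H : ℤ)) H)).filter 
    (fun a => E a ∧ ∏ j, w j (a j) ≠ 0) with hS
  have hprob : prob H w E = ∑ a ∈ S, ∏ j, w j (a j) := by
    rw [prob_eq]
    symm
    refine sum_subset ?_ ?_
    · intro a ha
      rw [hS, mem_filter] at ha
      rw [mem_filter]
      exact ⟨ha.1, ha.2.1⟩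
    · intro a ha hna
      rw [mem_filter] at ha
      by_contra hne
      exact hna (by rw [hS, mem_filter]; exact ⟨ha.1, ha.2, hne⟩)
  have hmaps : ∀ a ∈ S, φ a ∈ Fintype.piFinset A' := by
    intro a ha
    rw [hS, mem_filter, Fintype.mem_piFinset] at ha
    rw [Fintype.mem_piFinset]
    intro j
    simp only [hφ, hA']
    by_cases hj : (j : ℕ) < d
    · rw [if_pos hj, if_pos hj]
      rcases Int.emod_two_eq_zero_or_one (a j) with h | h <;> rw [h] <;> simp
    · rw [if_neg hj, if_neg hj]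
      exact ha.1 j
  have hpt : ∀ a ∈ S, ∏ j, w j (a j) ≤ ∏ j, w' j (φ a j) := by
    intro a _
    refine prod_le_prod (fun j _ => h0 j _) fun j _ => ?_
    simp only [hφ, hw']
    by_cases hj : (j : ℕ) < d
    · rw [if_pos hj, if_pos hj]
      exact (hW j hj).1 (a j)
    · rw [if_neg hj, if_neg hj]
  have hfib : ∀ v ∈ Fintype.piFinset A', ((S.filter (fun a => φ a = v)).card : ℝ) ≤ K := by
    intro v _
    refine hE _ ?_ ?_
    · intro a ha
      rw [mem_filter, hS, mem_filter, Fintype.mem_piFinset] at ha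
      exact ⟨ha.1.1, ha.1.2.1, ha.1.2.2⟩
    · intro a ha a' ha' j
      rw [mem_filter] at ha ha'
      have h2 := congrFun (ha.2.trans ha'.2.symm) j
      simp only [hφ] at h2
      by_cases hj : (j : ℕ) < d
      · rw [if_pos hj, if_pos hj] at h2
        exact ⟨h2, fun h => absurd hj (not_lt.2 h)⟩
      · rw [if_neg hj, if_neg hj] at h2
        exact ⟨by rw [h2], fun _ => h2⟩
  rw [hprob]
  calc ∑ a ∈ S, ∏ j, w j (a j) ≤ ∑ a ∈ S, ∏ j, w' j (φ a j) := sum_le_sum hpt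
    _ = ∑ v ∈ Fintype.piFinset A', ∑ a ∈ S.filter (fun a => φ a = v), ∏ j, w' j (φ a j) :=
        (sum_fiberwise_of_maps_to hmaps _).symm
    _ = ∑ v ∈ Fintype.piFinset A', ((S.filter (fun a => φ a = v)).card : ℝ) * 
          ∏ j, w' j (v j) := by
        refine sum_congr rfl fun v _ => ?_
        rw [← nsmul_eq_mul, ← sum_const]
        refine sum_congr rfl fun a ha => ?_
        rw [(mem_filter.1 ha).2]
    _ ≤ ∑ v ∈ Fintype.piFinset A', K * ∏ j, w' j (v j) := by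
        refine sum_le_sum fun v hv => ?_
        exact mul_le_mul_of_nonneg_right (hfib v hv) (prod_nonneg fun j _ => hw'0 j _)
    _ = K * ∏ j, ∑ x ∈ A' j, w' j x := by
        rw [← mul_sum, prod_univ_sum]
    _ ≤ K * r ^ d := by
        refine mul_le_mul_of_nonneg_left ?_ hK
        have h3 : ∀ j : Fin (n + 1), ∑ x ∈ A' j, w' j x ≤ if (j : ℕ) < d then r else 1 := by
          intro j
          simp only [hA', hw']
          by_cases hj : (j : ℕ) < d
          · simp only [hj, if_true]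
            rw [sum_pair (by norm_num)]
            exact (hW j hj).2
          · simp only [hj, if_false]
            exact (h1 j).le
        calc ∏ j, ∑ x ∈ A' j, w' j x ≤ ∏ j : Fin (n + 1), (if (j : ℕ) < d then r else 1) :=
              prod_le_prod (fun j _ => sum_nonneg fun x _ => hw'0 j x) fun j _ => h3 j
          _ = r ^ d := by
              rw [prod_ite, prod_const_one, mul_one, prod_const]
              congr 1
              rw [Fin.card_filter_val_lt]
              omega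

end

end Pool.Agent.K4H76.RP
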