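import Mathlib
import Pool.Agent.K4H76.RP.Prob

/-!
# Counting the small factors
-/

set_option autoImplicit false

open Polynomial Finset

namespace Pool.Agent.K4H76.RP

section
variable {n : ℕ} {H : ℕ} {w : Fin (n + 1) → ℤ → ℝ}

lemma poly_coeff (a : Fin (n + 1) → ℤ) (j : Fin (n + 1)) : (poly a).coeff (j : ℕ) = a j := by
  classical
  unfold poly
  rw [finsetSum_coeff]
  simp_rw [coeff_C_mul, coeff_X_pow]
  rw [sum_eq_single j]
  · simp
  · intro i _ hij
    rw [if_neg, mul_zero]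
    intro h
    exact hij (Fin.ext h.symm)
  · intro h
    exact absurd (mem_univ j) h

lemma poly_coeff_big (a : Fin (n + 1) → ℤ) {j : ℕ} (hj : n < j) : (poly a).coeff j = 0 := by
  classical
  unfold poly
  rw [finsetSum_coeff]
  refine sum_eq_zero fun i _ => ?_
  rw [coeff_C_mul, coeff_X_pow, if_neg, mul_zero]
  intro h
  have := i.2
  omega

lemma poly_natDegree_le (a : Fin (n + 1) → ℤ) : (poly a).natDegree ≤ n := by
  rw [natDegree_le_iff_coeff_eq_zero]
  intro j hj
  exact poly_coeff_big a hj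

/-- a monic polynomial of degree `d` which divides two polynomials with the same upper
coefficients -/
lemma eq_of_dvd_poly {g : ℤ[X]} {d : ℕ} (hd : g.natDegree = d) 
    {a a' : Fin (n + 1) → ℤ} (h : g ∣ poly a) (h' : g ∣ poly a')
    (hu : ∀ j : Fin (n + 1), d ≤ (j : ℕ) → a j = a' j) : a = a' := by
  have h1 : g ∣ poly a - poly a' := dvd_sub h h'
  have h2 : poly a - poly a' = 0 := by
    by_contra hne
    have h3 := natDegree_le_of_dvd h1 hne
    have h4 : (poly a - poly a').natDegree < d ∨ d = 0 := by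
      rcases Nat.eq_zero_or_pos d with h0 | h0
      · exact Or.inr h0
      · left
        rw [natDegree_lt_iff_degree_lt hne, degree_lt_iff_coeff_zero]
        intro j hj
        rw [coeff_sub]
        by_cases hjn : j < n + 1
        · have e1 := poly_coeff a ⟨j, hjn⟩
          have e2 := poly_coeff a' ⟨j, hjn⟩
          simp only at e1 e2
          rw [e1, e2, hu ⟨j, hjn⟩ hj, sub_self]
        · rw [poly_coeff_big a (by omega), poly_coeff_big a' (by omega), sub_self]
    rcases h4 with h4 | h4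
    · omega
    · apply hne
      have h5 : a = a' := by
        funext j
        exact hu j (by omega)
      rw [h5, sub_self]
  funext j
  have h3 := congrArg (fun p => p.coeff (j : ℕ)) h2
  simp only [coeff_sub, coeff_zero, poly_coeff] at h3
  linarith

lemma red_monic {g : ℤ[X]} (hg : g.Monic) : (red g).Monic := hg.map _

lemma red_natDegree {g : ℤ[X]} (hg : g.Monic) : (red g).natDegree = g.natDegree :=
  hg.natDegree_map _

lemma red_dvd {g f : ℤ[X]} (h : g ∣ f) : red g ∣ red f := Polynomial.map_dvd _ h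

/-- the number of elements of a finset in terms of the classes -/
lemma card_classes {T K1 : ℝ} {d : ℕ} 
    (hK : ∀ (c : (ZMod 2)[X]) (S : Finset ℤ[X]), (∀ g ∈ S, Small T d g ∧ red g = c) →
      (S.card : ℝ) ≤ K1)
    (G : Finset ℤ[X]) (hG : ∀ g ∈ G, Small T d g) [DecidableEq (ZMod 2)[X]] : 
    (G.card : ℝ) ≤ ((G.image red).card : ℝ) * K1 := by
  classical
  have h1 : G.card = ∑ c ∈ G.image red, (G.filter fun g => red g = c).card :=
    card_eq_sum_card_fiberwise fun g hg => mem_image_of_mem _ hg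
  rw [h1]
  push_cast
  calc ∑ c ∈ G.image red, ((G.filter fun g => red g = c).card : ℝ) ≤ ∑ c ∈ G.image red, K1 := by
        refine sum_le_sum fun c _ => hK c _ fun g hg => ?_
        rw [mem_filter] at hg
        exact ⟨hG g hg.1, hg.2⟩
    _ = _ := by rw [sum_const, nsmul_eq_mul]

lemma card_monic (d : ℕ) (S : Finset (ZMod 2)[X]) (hS : ∀ c ∈ S, c.Monic ∧ c.natDegree = d) :
    S.card ≤ 2 ^ d := by
  classical
  have h1 : S.card ≤ (univ : Finset (Fin d → ZMod 2)).card := by
    refine card_le_card_of_injOn (fun c i => c.coeff (i : ℕ)) (fun _ _ => mem_univ _) ?_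
    intro c hc c' hc' h
    have hc1 := hS c hc
    have hc2 := hS c' hc'
    ext j
    rcases lt_trichotomy j d with hj | hj | hj
    · exact congrFun h ⟨j, hj⟩
    · have e1 : c.coeff j = 1 := by
        rw [hj, ← hc1.2]
        exact hc1.1
      have e2 : c'.coeff j = 1 := by
        rw [hj, ← hc2.2]
        exact hc2.1
      rw [e1, e2]
    · rw [coeff_eq_zero_of_natDegree_lt (by omega), coeff_eq_zero_of_natDegree_lt (by omega)]
  refine h1.trans ?_
  rw [card_univ, Fintype.card_fun, ZMod.card, Fintype.card_fin]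

/-- the fibres for large degrees -/
lemma fiber_bound {T K1 K2 : ℝ} {d : ℕ} (hK1 : 0 ≤ K1)
    (hK : ∀ (c : (ZMod 2)[X]) (S : Finset ℤ[X]), (∀ g ∈ S, Small T d g ∧ red g = c) →
      (S.card : ℝ) ≤ K1)
    (hD : ∀ F : (ZMod 2)[X], F ≠ 0 → F.natDegree ≤ n → ∀ (S : Finset (ZMod 2)[X]),
      (∀ c ∈ S, c.Monic ∧ c ∣ F ∧ c.natDegree = d) → (S.card : ℝ) ≤ K2) (hK2 : 0 ≤ K2)
    (S : Finset (Fin (n + 1) → ℤ)) (hS : ∀ a ∈ S, ∃ g, Small T d g ∧ g ∣ poly a)
    (hodd : ∀ a ∈ S, Odd (a (Fin.last n)))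
    (hag : ∀ a ∈ S, ∀ a' ∈ S, ∀ j : Fin (n + 1), a j % 2 = a' j % 2 ∧ 
      (d ≤ (j : ℕ) → a j = a' j)) : (S.card : ℝ) ≤ K1 * K2 := by
  classical
  rcases S.eq_empty_or_nonempty with rfl | ⟨a0, ha0⟩
  · simp only [card_empty, Nat.cast_zero]
    exact mul_nonneg hK1 hK2
  choose! g hg using hS
  have hinj : Set.InjOn g (S : Set (Fin (n + 1) → ℤ)) := by
    intro a ha a' ha' h
    have h1 := hg a ha
    have h2 := hg a' ha'
    refine eq_of_dvd_poly h1.1.2.2.1 h1.2 (h ▸ h2.2) fun j hj => (hag a ha a' ha' j).2 hj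
  have hcard : (S.image g).card = S.card := card_image_of_injOn hinj
  have hred : ∀ a ∈ S, red (poly a) = red (poly a0) := by
    intro a ha
    ext j
    unfold red
    rw [coeff_map, coeff_map]
    by_cases hjn : j < n + 1
    · have e1 := poly_coeff a ⟨j, hjn⟩
      have e2 := poly_coeff a0 ⟨j, hjn⟩
      simp only at e1 e2
      rw [e1, e2]
      have h3 := (hag a ha a0 ha0 ⟨j, hjn⟩).1
      rw [eq_intCast, eq_intCast]
      exact (ZMod.intCast_eq_intCast_iff' _ _ 2).2 (by exact_mod_cast h3)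
    · rw [poly_coeff_big a (by omega), poly_coeff_big a0 (by omega)]
  have hne : red (poly a0) ≠ 0 := by
    intro h0
    have h1 := congrArg (fun p => p.coeff n) h0
    simp only [red, coeff_map, coeff_zero] at h1
    have e1 := poly_coeff a0 (Fin.last n)
    rw [Fin.val_last] at e1
    rw [e1, eq_intCast, ZMod.intCast_zmod_eq_zero_iff_dvd] at h1
    have h2 := hodd a0 ha0
    rw [← Int.not_even_iff_odd, even_iff_two_dvd] at h2
    exact h2 (by exact_mod_cast h1)
  have hdeg : (red (poly a0)).natDegree ≤ n := natDegree_map_le.trans (poly_natDegree_le a0)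
  have h1 := card_classes hK (S.image g) (by
    intro f hf
    obtain ⟨a, ha, rfl⟩ := mem_image.1 hf
    exact (hg a ha).1)
  have h2 := hD (red (poly a0)) hne hdeg ((S.image g).image red) (by
    intro c hc
    obtain ⟨f, hf, rfl⟩ := mem_image.1 hc
    obtain ⟨a, ha, rfl⟩ := mem_image.1 hf
    have h3 := hg a ha
    refine ⟨red_monic h3.1.1, ?_, ?_⟩
    · rw [← hred a ha]
      exact red_dvd h3.2
    · rw [red_natDegree h3.1.1, h3.1.2.2.1])
  rw [hcard] at h1
  calc (S.card : ℝ) ≤ (((S.image g).image red).card : ℝ) * K1 := h1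
    _ ≤ K2 * K1 := mul_le_mul_of_nonneg_right h2 hK1
    _ = _ := mul_comm _ _

/-- factors of large degree -/
lemma large_degree (h0 : ∀ j x, 0 ≤ w j x) (h1 : ∀ j, ∑ x ∈ Icc (-(H : ℤ)) H, w j x = 1)
    {d : ℕ} (hd : d ≤ n) {r : ℝ}
    (hr : ∀ j : Fin (n + 1), (j : ℕ) < n → ∀ x y, Even x → Odd y → w j x + w j y ≤ r)
    (hodd : ∀ x, Even x → w (Fin.last n) x = 0)
    {T K1 K2 : ℝ} (hK1 : 0 ≤ K1)
    (hK : ∀ (c : (ZMod 2)[X]) (S : Finset ℤ[X]), (∀ g ∈ S, Small T d g ∧ red g = c) →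
      (S.card : ℝ) ≤ K1)
    (hD : ∀ F : (ZMod 2)[X], F ≠ 0 → F.natDegree ≤ n → ∀ (S : Finset (ZMod 2)[X]),
      (∀ c ∈ S, c.Monic ∧ c ∣ F ∧ c.natDegree = d) → (S.card : ℝ) ≤ K2) (hK2 : 0 ≤ K2) :
    prob H w (fun a => ∃ g, Small T d g ∧ g ∣ poly a) ≤ K1 * K2 * r ^ d := by
  refine large h0 h1 hd hr _ (mul_nonneg hK1 hK2) ?_
  intro S hS hag
  refine fiber_bound hK1 hK hD hK2 S (fun a ha => (hS a ha).2.1) ?_ hag
  intro a ha
  rcases Int.even_or_odd (a (Fin.last n)) with h | h
  · exact absurd (prod_eq_zero (mem_univ (Fin.last n)) (hodd _ h)) (hS a ha).2.2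
  · exact h

lemma w_le {w : ℤ → ℝ} (h0 : ∀ x, 0 ≤ w x) {r : ℝ} 
    (hr : ∀ x y, Even x → Odd y → w x + w y ≤ r) (x : ℤ) : w x ≤ r := by
  rcases Int.even_or_odd x with h | h
  · have := hr x 1 h odd_one
    have := h0 1
    linarith
  · have := hr 0 x Even.zero h
    have := h0 0
    linarith

/-- divisibility by one polynomial -/
lemma one_factor (hB : S_BLOCK) (h0 : ∀ j x, 0 ≤ w j x) 
    (h1 : ∀ j, ∑ x ∈ Icc (-(H : ℤ)) H, w j x = 1) (hH : 1 ≤ H) (hn : 1 ≤ n)
    {d : ℕ} (hd : 1 ≤ d) {r : ℝ} (hr0 : 0 ≤ r) (hr1 : r ≤ 1)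
    (hr : ∀ j : Fin (n + 1), (j : ℕ) < n → ∀ x y, Even x → Odd y → w j x + w j y ≤ r)
    {T : ℝ} {g : ℤ[X]} (hg : Small T d g) {k : ℕ} (hk : d ≤ k)
    (hlog : d * Real.log (2 * H * d * n) < ((k : ℝ) - d) * Real.log (M g)) :
    prob H w (fun a => g ∣ poly a) ≤ r ^ (d * (n / k)) := by
  classical
  set J : Finset (Fin (n + 1)) := univ.filter fun j => (j : ℕ) < n ∧ (j : ℕ) % k < d with hJ
  have hk0 : 0 < k := by omega
  have hcard : d * (n / k) ≤ J.card := by
    have h2 : (univ : Finset (Fin d × Fin (n / k))).card ≤ J.card := by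
      have hlt : ∀ p : Fin d × Fin (n / k), (p.2 : ℕ) * k + (p.1 : ℕ) < n := by
        intro p
        have e1 : ((p.2 : ℕ) + 1) * k ≤ (n / k) * k := Nat.mul_le_mul_right k p.2.2
        have e2 : (n / k) * k ≤ n := Nat.div_mul_le_self n k
        have e3 := p.1.2
        nlinarith
      refine card_le_card_of_injOn (fun p => (⟨(p.2 : ℕ) * k + (p.1 : ℕ), by
        have := hlt p
        omega⟩ : Fin (n + 1))) ?_ ?_
      · intro p _
        rw [Finset.mem_coe, hJ, mem_filter]
        refine ⟨mem_univ _, hlt p, ?_⟩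
        simp only
        rw [Nat.add_comm, Nat.add_mul_mod_self_right, Nat.mod_eq_of_lt (by
          have := p.1.2
          omega)]
        exact p.1.2
      · intro p _ p' _ h
        simp only [Fin.mk.injEq] at h
        have e1 : ((p.2 : ℕ) * k + (p.1 : ℕ)) / k = p.2 := by
          rw [Nat.add_comm, Nat.add_mul_div_right _ _ hk0, Nat.div_eq_of_lt (by
            have := p.1.2
            omega), zero_add]
        have e2 : ((p'.2 : ℕ) * k + (p'.1 : ℕ)) / k = p'.2 := by
          rw [Nat.add_comm, Nat.add_mul_div_right _ _ hk0, Nat.div_eq_of_lt (by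
            have := p'.1.2
            omega), zero_add]
        have e3 : (p.2 : ℕ) = p'.2 := by rw [← e1, ← e2, h]
        have e4 : (p.1 : ℕ) = p'.1 := by
          rw [e3] at h
          omega
        exact Prod.ext (Fin.ext e4) (Fin.ext e3)
    rw [card_univ, Fintype.card_prod, Fintype.card_fin, Fintype.card_fin] at h2
    exact h2
  have hconc := conc (E := fun a => g ∣ poly a) h0 h1 J (q := r) (by
    intro j hj x _
    rw [hJ, mem_filter] at hj
    exact w_le (h0 j) (hr j hj.2.1) x) hr0 (by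
    intro a a' ha ha' h h' hag
    have h2 : g ∣ poly a - poly a' := dvd_sub h h'
    set b : ℕ → ℤ := fun j => if hj : j < n + 1 then a ⟨j, hj⟩ - a' ⟨j, hj⟩ else 0 with hb
    have h3 : poly a - poly a' = ∑ j ∈ range n, C (b j) * X ^ j := by
      have h4 : poly a - poly a' = ∑ j ∈ range (n + 1), C (b j) * X ^ j := by
        unfold poly
        rw [← sum_sub_distrib, ← Fin.sum_univ_eq_sum_range (fun j => C (b j) * X ^ j) (n + 1)]
        refine sum_congr rfl fun j _ => ?_
        rw [← sub_mul, ← C_sub]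
        simp only [hb]
        rw [dif_pos j.2]
      rw [h4, sum_range_succ]
      have h5 : b n = 0 := by
        simp only [hb]
        rw [dif_pos (Nat.lt_succ_self n), sub_eq_zero]
        refine hag _ ?_
        rw [hJ, mem_filter]
        intro h6
        exact absurd h6.2.1 (lt_irrefl n)
      rw [h5]
      simp
    rw [h3] at h2
    have h4 := hB T d g hd hg (2 * H) n k b (by
      have : (1 : ℝ) ≤ H := by exact_mod_cast hH
      linarith) hn hk (by
      intro j
      simp only [hb]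
      split_ifs with hj
      · have e1 := mem_Icc.1 (ha ⟨j, hj⟩)
        have e2 := mem_Icc.1 (ha' ⟨j, hj⟩)
        have e3 : |a ⟨j, hj⟩ - a' ⟨j, hj⟩| ≤ 2 * (H : ℤ) := by
          rw [abs_le]
          constructor <;> omega
        exact_mod_cast e3
      · simp) (by
      intro j hj
      simp only [hb]
      split_ifs with hj'
      · rw [sub_eq_zero]
        refine hag _ ?_
        rw [hJ, mem_filter]
        intro h6
        have := h6.2.2
        simp only at this
        omega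
      · rfl) hlog h2
    funext j
    by_cases hj : (j : ℕ) < n
    · have h5 := h4 j hj
      simp only [hb] at h5
      rw [dif_pos j.2] at h5
      linarith
    · refine hag j ?_
      rw [hJ, mem_filter]
      intro h6
      exact hj h6.2.1)
  exact hconc.trans (pow_le_pow_of_le_one hr0 hr1 hcard)

/-- factors of a fixed degree, by the union bound -/
lemma small_degree (hB : S_BLOCK) (h0 : ∀ j x, 0 ≤ w j x) 
    (h1 : ∀ j, ∑ x ∈ Icc (-(H : ℤ)) H, w j x = 1) (hH : 1 ≤ H) (hn : 1 ≤ n)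
    {d : ℕ} (hd : 1 ≤ d) {r : ℝ} (hr0 : 0 ≤ r) (hr1 : r ≤ 1)
    (hr : ∀ j : Fin (n + 1), (j : ℕ) < n → ∀ x y, Even x → Odd y → w j x + w j y ≤ r)
    {T K1 : ℝ} (hK1 : 0 ≤ K1)
    (hK : ∀ (c : (ZMod 2)[X]) (S : Finset ℤ[X]), (∀ g ∈ S, Small T d g ∧ red g = c) →
      (S.card : ℝ) ≤ K1) {k : ℕ} (hk : d ≤ k)
    (hlog : ∀ g, Small T d g → 
      d * Real.log (2 * H * d * n) < ((k : ℝ) - d) * Real.log (M g)) :
    prob H w (fun a => ∃ g, Small T d g ∧ g ∣ poly a) ≤ 2 ^ d * K1 * r ^ (d * (n / k)) := by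
  classical
  set S := (Fintype.piFinset (fun _ : Fin (n + 1) => Icc (-(H : ℤ)) H)).filter 
    (fun a => ∃ g, Small T d g ∧ g ∣ poly a) with hS
  have hex : ∀ a ∈ S, ∃ g, Small T d g ∧ g ∣ poly a := fun a ha => (mem_filter.1 ha).2
  choose! g hg using hex
  have h2 : prob H w (fun a => ∃ g, Small T d g ∧ g ∣ poly a) ≤ 
      ∑ f ∈ S.image g, prob H w (fun a => f ∣ poly a) := by
    refine prob_union h0 _ _ _ ?_
    intro a ha _ hE
    have haS : a ∈ S := by
      rw [hS, mem_filter, Fintype.mem_piFinset]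
      exact ⟨ha, hE⟩
    exact ⟨g a, mem_image_of_mem _ haS, (hg a haS).2⟩
  have h3 : ∀ f ∈ S.image g, Small T d f := by
    intro f hf
    obtain ⟨a, ha, rfl⟩ := mem_image.1 hf
    exact (hg a ha).1
  have h4 := card_classes hK (S.image g) h3
  have h5 : ((S.image g).image red).card ≤ 2 ^ d := by
    refine card_monic d _ ?_
    intro c hc
    obtain ⟨f, hf, rfl⟩ := mem_image.1 hc
    have h6 := h3 f hf
    exact ⟨red_monic h6.1, by rw [red_natDegree h6.1, h6.2.2.1]⟩
  calc prob H w (fun a => ∃ g, Small T d g ∧ g ∣ poly a) 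
      ≤ ∑ f ∈ S.image g, prob H w (fun a => f ∣ poly a) := h2
    _ ≤ ∑ f ∈ S.image g, r ^ (d * (n / k)) := sum_le_sum fun f hf => 
        one_factor hB h0 h1 hH hn hd hr0 hr1 hr (h3 f hf) hk (hlog f (h3 f hf))
    _ = ((S.image g).card : ℝ) * r ^ (d * (n / k)) := by rw [sum_const, nsmul_eq_mul]
    _ ≤ (2 ^ d * K1) * r ^ (d * (n / k)) := by
        refine mul_le_mul_of_nonneg_right ?_ (pow_nonneg hr0 _)
        refine h4.trans (mul_le_mul_of_nonneg_right ?_ hK1)
        exact_mod_cast h5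

/-- the sum over the degrees -/
lemma all_degrees (hR : S_RED) {T : ℝ} (hT : T < √2) (h0 : ∀ j x, 0 ≤ w j x)
    (hodd : ∀ x, Even x → w (Fin.last n) x = 0) :
    prob H w (fun a => ∃ g, g ∣ poly a ∧ 1 < M g ∧ M g ≤ T) ≤
      ∑ d ∈ Icc 1 n, prob H w (fun a => ∃ g, Small T d g ∧ g ∣ poly a) := by
  classical
  refine prob_union h0 _ _ _ ?_
  rintro a _ hne ⟨g, hga, hg1, hgT⟩
  obtain ⟨d, h, hd, hh, hdvd⟩ := hR T hT (poly a) g hga hg1 hgT
  have h1 : a (Fin.last n) ≠ 0 := by
    intro h2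
    exact hne (prod_eq_zero (mem_univ (Fin.last n)) (hodd _ (by rw [h2]; exact Even.zero)))
  have h2 : poly a ≠ 0 := by
    intro h3
    have e1 := poly_coeff a (Fin.last n)
    rw [h3, coeff_zero] at e1
    exact h1 e1.symm
  have h3 := natDegree_le_of_dvd hdvd h2
  have h4 := poly_natDegree_le a
  rw [hh.2.2.1] at h3
  exact ⟨d, mem_Icc.2 ⟨hd, h3.trans h4⟩, h, hh, hdvd⟩

end

end Pool.Agent.K4H76.RP
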