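import Mathlib
import Pool.Agent.K4H76.RP.Prob

/-!
# Random polynomials with arbitrary independent coefficients: pieces
-/

set_option autoImplicit false

open Polynomial Finset

namespace Pool.Agent.K4H76.RP

/-- both parities have probability at most `q` for the inner coefficients -/
def Par {n : ℕ} (H : ℕ) (w : Fin (n + 1) → ℤ → ℝ) (q : ℝ) : Prop :=
  ∀ j : Fin (n + 1), 0 < (j : ℕ) → (j : ℕ) < n →
    ∑ x ∈ (Icc (-(H : ℤ)) H).filter (fun x => x % 2 = 0), w j x ≤ q ∧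
    ∑ x ∈ (Icc (-(H : ℤ)) H).filter (fun x => x % 2 = 1), w j x ≤ q

/-- the window of length `d` in the middle -/
def Win (n d : ℕ) (j : Fin (n + 1)) : Prop := n < 2 * (j : ℕ) + d ∧ 2 * (j : ℕ) < n + d

/-- PIECE RECIP: polynomials of small Mahler measure are reciprocal. -/
def S_RECIP : Prop := ∀ T : ℝ, T < (1 + √17) / 4 → ∀ (d : ℕ) (g : ℤ[X]), Small T d g →
  g.reverse = g ∧ g.coeff 0 = 1

/-- PIECE REFL -/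
def S_REFL : Prop := ∀ g : ℤ[X], g.Monic → g.reverse = g → ∀ (n : ℕ) (f : ℤ[X]), 
  f.natDegree ≤ n → g ∣ f → g ∣ f.reflect n

/-- PIECE ZERO -/
def S_ZERO : Prop := ∀ (n H : ℕ) (w : Fin (n + 1) → ℤ → ℝ) (q : ℝ), 1 ≤ n → 0 ≤ q → q ≤ 1 →
  (∀ j x, 0 ≤ w j x) → (∀ j, ∑ x ∈ Icc (-(H : ℤ)) H, w j x = 1) → Par H w q → 
  prob H w (fun a => ∀ j, (a j + a j.rev) % 2 = 0) ≤ q ^ ((n - 1) / 2)

/-- PIECE PAIR -/
def S_PAIR : Prop := ∀ (n H : ℕ) (w : Fin (n + 1) → ℤ → ℝ) (q : ℝ), 0 ≤ q → q ≤ 1 →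
  (∀ j x, 0 ≤ w j x) → (∀ j, ∑ x ∈ Icc (-(H : ℤ)) H, w j x = 1) → Par H w q → 
  ∀ d : ℕ, 1 ≤ d → d ≤ n → ∀ (E : (Fin (n + 1) → ℤ) → Prop) (K : ℝ), 0 ≤ K →
  (∀ S : Finset (Fin (n + 1) → ℤ), (∀ a ∈ S, (∀ j, a j ∈ Icc (-(H : ℤ)) H) ∧ E a) →
    (∀ a ∈ S, ∀ a' ∈ S, ∀ j : Fin (n + 1), (a j + a j.rev) % 2 = (a' j + a' j.rev) % 2 ∧ 
      (¬ Win n d j → a j = a' j)) → (S.card : ℝ) ≤ K) →
  prob H w E ≤ K * q ^ ((d - 1) / 2)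

end Pool.Agent.K4H76.RP
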