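import Mathlib
import Pool.Agent.K4H76.RP.Count
import Pool.Agent.K4H76.RP.Defs2

/-!
# Counting the small factors: arbitrary distributions
-/

set_option autoImplicit false

open Polynomial Finset

namespace Pool.Agent.K4H76.RP

section
variable {n : ℕ} {H : ℕ} {w : Fin (n + 1) → ℤ → ℝ}

lemma poly_sub (a a' : Fin (n + 1) → ℤ) : poly a - poly a' = poly (fun j => a j - a' j) := by
  unfold poly
  rw [← sum_sub_distrib]
  refine sum_congr rfl fun j _ => ?_
  rw [← sub_mul, ← C_sub]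

lemma reflect_poly (a : Fin (n + 1) → ℤ) : (poly a).reflect n = poly (fun j => a j.rev) := by
  ext j
  rw [coeff_reflect]
  by_cases hj : j < n + 1
  · rw [revAt_le (by omega)]
    have e1 := poly_coeff a (⟨j, hj⟩ : Fin (n + 1)).rev
    have e2 := poly_coeff (fun j => a j.rev) ⟨j, hj⟩
    rw [Fin.val_rev] at e1
    simp only at e1 e2
    rw [e2, ← e1]
    congr 1
    omega
  · rw [revAt_eq_self_of_lt (by omega), poly_coeff_big a (by omega), 
      poly_coeff_big _ (by omega)]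

/-- the antisymmetric part -/
noncomputable def asym (a : Fin (n + 1) → ℤ) : ℤ[X] := poly (fun j => a j - a j.rev)

lemma dvd_of_dvd_C_mul {g : ℤ[X]} (hi : Irreducible g) (hd : 1 ≤ g.natDegree) {D : ℤ}
    (hD : D ≠ 0) {p : ℤ[X]} (h : g ∣ C D * p) : g ∣ p := by
  rcases hi.prime.dvd_or_dvd h with h1 | h1
  · exfalso
    have h2 := natDegree_le_of_dvd h1 (C_ne_zero.2 hD)
    rw [natDegree_C] at h2
    omega
  · exact h1

/-- The polynomials `Q a` are divisible by all reciprocal factors of `h + D ∑ a_j X^j`, and modulo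
two they only depend on the parities of `a_j + a_{n-j}`. -/
structure Aux (h : ℤ[X]) (D : ℤ) (Q : (Fin (n + 1) → ℤ) → ℤ[X]) : Prop where
  deg : ∀ a, (Q a).natDegree ≤ n
  par : ∀ a a', (∀ j : Fin (n + 1), (a j + a j.rev) % 2 = (a' j + a' j.rev) % 2) → 
    red (Q a) = red (Q a')
  dvd : ∀ (g : ℤ[X]) (a : Fin (n + 1) → ℤ), g.Monic → Irreducible g → 1 ≤ g.natDegree → 
    g.reverse = g → g ∣ h + C D * poly a → g ∣ Q a
  zero : ∀ a, h + C D * poly a = 0 → red (Q a) = 0

/-- a polynomial supported in a window which is not longer than the degree -/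
lemma win_zero {g : ℤ[X]} {d : ℕ} (hd : g.natDegree = d) (hd1 : 1 ≤ d) (hdn : d ≤ n)
    (h0 : g.coeff 0 = 1) {b : Fin (n + 1) → ℤ} (hb : ∀ j, ¬ Win n d j → b j = 0) 
    (h : g ∣ poly b) : ∀ j, b j = 0 := by
  set j0 : ℕ := (n - d) / 2 + 1 with hj0
  have hlow : X ^ j0 ∣ poly b := by
    rw [X_pow_dvd_iff]
    intro j hj
    have hjn : j < n + 1 := by omega
    have e1 := poly_coeff b ⟨j, hjn⟩
    simp only at e1
    rw [e1]
    refine hb _ fun hw => ?_
    have := hw.1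
    simp only at this
    omega
  obtain ⟨p, hp⟩ := hlow
  have hcop : IsCoprime g X := by
    refine ⟨1, -g.divX, ?_⟩
    have e1 := divX_mul_X_add g
    rw [h0] at e1
    calc 1 * g + -g.divX * X = 1 * (g.divX * X + C 1) + -g.divX * X := by rw [e1]
      _ = 1 := by
        rw [C_1]
        ring
  have hgp : g ∣ p := by
    rw [hp] at h
    exact (hcop.pow_right (n := j0)).dvd_of_dvd_mul_left h
  have hp0 : p = 0 := by
    by_contra hne
    have e1 := natDegree_le_of_dvd hgp hne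
    have e2 : (poly b).natDegree = j0 + p.natDegree := by
      rw [hp, natDegree_mul (pow_ne_zero _ X_ne_zero) hne, natDegree_X_pow]
    have e3 : (poly b).natDegree ≤ (n + d - 1) / 2 := by
      rw [natDegree_le_iff_coeff_eq_zero]
      intro j hj
      by_cases hjn : j < n + 1
      · have e1 := poly_coeff b ⟨j, hjn⟩
        simp only at e1
        rw [e1]
        refine hb _ fun hw => ?_
        have := hw.2
        simp only at this
        omega
      · exact poly_coeff_big b (by omega)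
    omega
  intro j
  have e1 := poly_coeff b j
  rw [hp, hp0, mul_zero, coeff_zero] at e1
  exact e1.symm

/-- the fibres for large degrees -/
lemma fiber_bound2 {T K1 K2 : ℝ} 
    {d : ℕ} (hrec : ∀ g : ℤ[X], Small T d g → g.reverse = g ∧ g.coeff 0 = 1)
    (hd1 : 1 ≤ d) (hdn : d ≤ n) (hK1 : 0 ≤ K1)
    (hK : ∀ (c : (ZMod 2)[X]) (S : Finset ℤ[X]), (∀ g ∈ S, Small T d g ∧ red g = c) →
      (S.card : ℝ) ≤ K1)
    (hD : ∀ F : (ZMod 2)[X], F ≠ 0 → F.natDegree ≤ n → ∀ (S : Finset (ZMod 2)[X]),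
      (∀ c ∈ S, c.Monic ∧ c ∣ F ∧ c.natDegree = d) → (S.card : ℝ) ≤ K2) (hK2 : 0 ≤ K2)
    {h : ℤ[X]} {D : ℤ} (hD0 : D ≠ 0) {Q : (Fin (n + 1) → ℤ) → ℤ[X]} (hQ : Aux h D Q)
    (S : Finset (Fin (n + 1) → ℤ)) 
    (hS : ∀ a ∈ S, (∃ g, Small T d g ∧ g ∣ h + C D * poly a) ∧ red (Q a) ≠ 0)
    (hag : ∀ a ∈ S, ∀ a' ∈ S, ∀ j : Fin (n + 1), (a j + a j.rev) % 2 = (a' j + a' j.rev) % 2 ∧ 
      (¬ Win n d j → a j = a' j)) : (S.card : ℝ) ≤ K1 * K2 := by
  classical
  rcases S.eq_empty_or_nonempty with rfl | ⟨a0, ha0⟩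
  · simp only [card_empty, Nat.cast_zero]
    exact mul_nonneg hK1 hK2
  have hS1 : ∀ a ∈ S, ∃ g, Small T d g ∧ g ∣ h + C D * poly a := fun a ha => (hS a ha).1
  choose! g hg using hS1
  have hgd : ∀ a ∈ S, 1 ≤ (g a).natDegree := by
    intro a ha
    rw [(hg a ha).1.2.2.1]
    exact hd1
  have hinj : Set.InjOn g (S : Set (Fin (n + 1) → ℤ)) := by
    intro a ha a' ha' hgg
    have h1 := hg a ha
    have h2 := hg a' ha'
    have h3 : g a ∣ C D * (poly a - poly a') := by
      have h4 : C D * (poly a - poly a') = (h + C D * poly a) - (h + C D * poly a') := by ring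
      rw [h4]
      exact dvd_sub h1.2 (hgg ▸ h2.2)
    have h5 := dvd_of_dvd_C_mul h1.1.2.1 (hgd a ha) hD0 h3
    rw [poly_sub] at h5
    have h6 := win_zero h1.1.2.2.1 hd1 hdn (hrec _ h1.1).2 (fun j hj => by
      rw [sub_eq_zero]
      exact (hag a ha a' ha' j).2 hj) h5
    funext j
    exact sub_eq_zero.1 (h6 j)
  have hcard : (S.image g).card = S.card := card_image_of_injOn hinj
  have hred : ∀ a ∈ S, red (Q a) = red (Q a0) := by
    intro a ha
    exact hQ.par a a0 fun j => (hag a ha a0 ha0 j).1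
  have hne : red (Q a0) ≠ 0 := (hS a0 ha0).2
  have hdeg : (red (Q a0)).natDegree ≤ n := natDegree_map_le.trans (hQ.deg a0)
  have h1 := card_classes hK (S.image g) (by
    intro f hf
    obtain ⟨a, ha, rfl⟩ := mem_image.1 hf
    exact (hg a ha).1)
  have h2 := hD (red (Q a0)) hne hdeg ((S.image g).image red) (by
    intro c hc
    obtain ⟨f, hf, rfl⟩ := mem_image.1 hc
    obtain ⟨a, ha, rfl⟩ := mem_image.1 hf
    have h3 := hg a ha
    refine ⟨red_monic h3.1.1, ?_, ?_⟩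
    · rw [← hred a ha]
      exact red_dvd (hQ.dvd _ a h3.1.1 h3.1.2.1 (hgd a ha) (hrec _ h3.1).1 h3.2)
    · rw [red_natDegree h3.1.1, h3.1.2.2.1])
  rw [hcard] at h1
  calc (S.card : ℝ) ≤ (((S.image g).image red).card : ℝ) * K1 := h1
    _ ≤ K2 * K1 := mul_le_mul_of_nonneg_right h2 hK1
    _ = _ := mul_comm _ _

/-- factors of large degree -/
lemma large_degree2 (hpair : S_PAIR) 
    (h0 : ∀ j x, 0 ≤ w j x) (h1 : ∀ j, ∑ x ∈ Icc (-(H : ℤ)) H, w j x = 1)
    {q : ℝ} (hq0 : 0 ≤ q) (hq1 : q ≤ 1) (hpar : Par H w q)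
    {T K1 K2 : ℝ} {d : ℕ} (hrec : ∀ g : ℤ[X], Small T d g → g.reverse = g ∧ g.coeff 0 = 1)
    (hd1 : 1 ≤ d) (hdn : d ≤ n) (hK1 : 0 ≤ K1)
    (hK : ∀ (c : (ZMod 2)[X]) (S : Finset ℤ[X]), (∀ g ∈ S, Small T d g ∧ red g = c) →
      (S.card : ℝ) ≤ K1)
    (hD : ∀ F : (ZMod 2)[X], F ≠ 0 → F.natDegree ≤ n → ∀ (S : Finset (ZMod 2)[X]),
      (∀ c ∈ S, c.Monic ∧ c ∣ F ∧ c.natDegree = d) → (S.card : ℝ) ≤ K2) (hK2 : 0 ≤ K2)
    {h : ℤ[X]} {D : ℤ} (hD0 : D ≠ 0) {Q : (Fin (n + 1) → ℤ) → ℤ[X]} (hQ : Aux h D Q) :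
    prob H w (fun a => (∃ g, Small T d g ∧ g ∣ h + C D * poly a) ∧ red (Q a) ≠ 0) ≤ 
      K1 * K2 * q ^ ((d - 1) / 2) := by
  refine hpair n H w q hq0 hq1 h0 h1 hpar d hd1 hdn _ (K1 * K2) (mul_nonneg hK1 hK2) ?_
  intro S hS hag
  exact fiber_bound2 hrec hd1 hdn hK1 hK hD hK2 hD0 hQ S (fun a ha => (hS a ha).2) hag

lemma atom_le (h0 : ∀ j x, 0 ≤ w j x) {q : ℝ} (hpar : Par H w q) {j : Fin (n + 1)}
    (hj0 : 0 < (j : ℕ)) (hjn : (j : ℕ) < n) {x : ℤ} (hx : x ∈ Icc (-(H : ℤ)) H) : w j x ≤ q := by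
  obtain ⟨p0, p1⟩ := hpar j hj0 hjn
  rcases Int.emod_two_eq_zero_or_one x with h | h
  · refine le_trans ?_ p0
    exact single_le_sum (f := fun x => w j x) (fun y _ => h0 j y) (mem_filter.2 ⟨hx, h⟩)
  · refine le_trans ?_ p1
    exact single_le_sum (f := fun x => w j x) (fun y _ => h0 j y) (mem_filter.2 ⟨hx, h⟩)

/-- divisibility by one polynomial -/
lemma one_factor2 (hB : S_BLOCK) (h0 : ∀ j x, 0 ≤ w j x) 
    (h1 : ∀ j, ∑ x ∈ Icc (-(H : ℤ)) H, w j x = 1) (hH : 1 ≤ H) (hn : 1 ≤ n)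
    {d : ℕ} (hd : 1 ≤ d) {q : ℝ} (hq0 : 0 ≤ q) (hq1 : q ≤ 1) (hpar : Par H w q)
    {T : ℝ} {g : ℤ[X]} (hg : Small T d g) {k : ℕ} (hk : d ≤ k)
    (hlog : d * Real.log (2 * H * d * n) < ((k : ℝ) - d) * Real.log (M g))
    {h : ℤ[X]} {D : ℤ} (hD0 : D ≠ 0) :
    prob H w (fun a => g ∣ h + C D * poly a) ≤ q ^ (d * (n / k) - 1) := by
  classical
  set J0 : Finset (Fin (n + 1)) := univ.filter fun j => (j : ℕ) < n ∧ (j : ℕ) % k < d with hJ0
  set J : Finset (Fin (n + 1)) := J0.erase 0 with hJ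
  have hk0 : 0 < k := by omega
  have hcard0 : d * (n / k) ≤ J0.card := by
    have h2 : (univ : Finset (Fin d × Fin (n / k))).card ≤ J0.card := by
      have hlt : ∀ p : Fin d × Fin (n / k), (p.2 : ℕ) * k + (p.1 : ℕ) < n := by
        intro p
        have e1 : ((p.2 : ℕ) + 1) * k ≤ (n / k) * k := Nat.mul_le_mul_right k p.2.2
        have e2 : (n / k) * k ≤ n := Nat.div_mul_le_self n k
        have e3 := p.1.2
        nlinarith
      refine card_le_card_of_injOn (fun p => (⟨(p.2 : ℕ) * k + (p.1 : ℕ), by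
        have := hlt p
        omega⟩ : Fin (n + 1))) ?_ ?_
      · intro p _
        rw [Finset.mem_coe, hJ0, mem_filter]
        refine ⟨mem_univ _, hlt p, ?_⟩
        simp only
        rw [Nat.add_comm, Nat.add_mul_mod_self_right, Nat.mod_eq_of_lt (by
          have := p.1.2
          omega)]
        exact p.1.2
      · intro p _ p' _ h
        simp only [Fin.mk.injEq] at h
        have e1 : ((p.2 : ℕ) * k + (p.1 : ℕ)) / k = p.2 := by
          rw [Nat.add_comm, Nat.add_mul_div_right _ _ hk0, Nat.div_eq_of_lt (by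
            have := p.1.2
            omega), zero_add]
        have e2 : ((p'.2 : ℕ) * k + (p'.1 : ℕ)) / k = p'.2 := by
          rw [Nat.add_comm, Nat.add_mul_div_right _ _ hk0, Nat.div_eq_of_lt (by
            have := p'.1.2
            omega), zero_add]
        have e3 : (p.2 : ℕ) = p'.2 := by rw [← e1, ← e2, h]
        have e4 : (p.1 : ℕ) = p'.1 := by
          rw [e3] at h
          omega
        exact Prod.ext (Fin.ext e4) (Fin.ext e3)
    rw [card_univ, Fintype.card_prod, Fintype.card_fin, Fintype.card_fin] at h2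
    exact h2
  have hcard : d * (n / k) - 1 ≤ J.card := by
    have h2 := pred_card_le_card_erase (s := J0) (a := 0)
    rw [← hJ] at h2
    omega
  have hgd : 1 ≤ g.natDegree := by
    rw [hg.2.2.1]
    exact hd
  have hconc := conc (E := fun a => g ∣ h + C D * poly a) h0 h1 J (q := q) (by
    intro j hj x hx
    rw [hJ, mem_erase, hJ0, mem_filter] at hj
    refine atom_le h0 hpar ?_ hj.2.2.1 hx
    rcases Nat.eq_zero_or_pos (j : ℕ) with h2 | h2
    · exact absurd (Fin.ext h2) hj.1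
    · exact h2) hq0 (by
    intro a a' ha ha' hga hga' hag
    have h3' : g ∣ C D * (poly a - poly a') := by
      have h4 : C D * (poly a - poly a') = (h + C D * poly a) - (h + C D * poly a') := by ring
      rw [h4]
      exact dvd_sub hga hga'
    have h2 := dvd_of_dvd_C_mul hg.2.1 hgd hD0 h3'
    set b : ℕ → ℤ := fun j => if hj : j < n + 1 then a ⟨j, hj⟩ - a' ⟨j, hj⟩ else 0 with hb
    have hnot : ∀ j : Fin (n + 1), ¬ ((j : ℕ) < n ∧ (j : ℕ) % k < d) → a j = a' j := by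
      intro j hj
      refine hag j ?_
      rw [hJ, mem_erase, hJ0, mem_filter]
      intro h6
      exact hj h6.2.2
    have h3 : poly a - poly a' = ∑ j ∈ range n, C (b j) * X ^ j := by
      have h4 : poly a - poly a' = ∑ j ∈ range (n + 1), C (b j) * X ^ j := by
        unfold poly
        rw [← sum_sub_distrib, ← Fin.sum_univ_eq_sum_range (fun j => C (b j) * X ^ j) (n + 1)]
        refine sum_congr rfl fun j _ => ?_
        rw [← sub_mul, ← C_sub]
        simp only [hb]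
        rw [dif_pos j.2]
      rw [h4, sum_range_succ]
      have h5 : b n = 0 := by
        simp only [hb]
        rw [dif_pos (Nat.lt_succ_self n), sub_eq_zero]
        exact hnot _ fun h6 => absurd h6.1 (lt_irrefl n)
      rw [h5]
      simp
    rw [h3] at h2
    have h4 := hB T d g hd hg (2 * H) n k b (by
      have : (1 : ℝ) ≤ H := by exact_mod_cast hH
      linarith) hn hk (by
      intro j
      simp only [hb]
      split_ifs with hj
      · have e1 := mem_Icc.1 (ha ⟨j, hj⟩)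
        have e2 := mem_Icc.1 (ha' ⟨j, hj⟩)
        have e3 : |a ⟨j, hj⟩ - a' ⟨j, hj⟩| ≤ 2 * (H : ℤ) := by
          rw [abs_le]
          constructor <;> omega
        exact_mod_cast e3
      · simp) (by
      intro j hj
      simp only [hb]
      split_ifs with hj'
      · rw [sub_eq_zero]
        refine hnot _ fun h6 => ?_
        have := h6.2
        simp only at this
        omega
      · rfl) hlog h2
    funext j
    by_cases hj : (j : ℕ) < n
    · have h5 := h4 j hj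
      simp only [hb] at h5
      rw [dif_pos j.2] at h5
      linarith
    · exact hnot j fun h6 => hj h6.1)
  exact hconc.trans (pow_le_pow_of_le_one hq0 hq1 hcard)

/-- factors of a fixed degree, by the union bound -/
lemma small_degree2 (hB : S_BLOCK) (h0 : ∀ j x, 0 ≤ w j x) 
    (h1 : ∀ j, ∑ x ∈ Icc (-(H : ℤ)) H, w j x = 1) (hH : 1 ≤ H) (hn : 1 ≤ n)
    {d : ℕ} (hd : 1 ≤ d) {q : ℝ} (hq0 : 0 ≤ q) (hq1 : q ≤ 1) (hpar : Par H w q)
    {T K1 : ℝ} (hK1 : 0 ≤ K1)
    (hK : ∀ (c : (ZMod 2)[X]) (S : Finset ℤ[X]), (∀ g ∈ S, Small T d g ∧ red g = c) →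
      (S.card : ℝ) ≤ K1) {k : ℕ} (hk : d ≤ k)
    (hlog : ∀ g, Small T d g → 
      d * Real.log (2 * H * d * n) < ((k : ℝ) - d) * Real.log (M g))
    {h : ℤ[X]} {D : ℤ} (hD0 : D ≠ 0) :
    prob H w (fun a => ∃ g, Small T d g ∧ g ∣ h + C D * poly a) ≤ 
      2 ^ d * K1 * q ^ (d * (n / k) - 1) := by
  classical
  set S := (Fintype.piFinset (fun _ : Fin (n + 1) => Icc (-(H : ℤ)) H)).filter 
    (fun a => ∃ g, Small T d g ∧ g ∣ h + C D * poly a) with hS
  have hex : ∀ a ∈ S, ∃ g, Small T d g ∧ g ∣ h + C D * poly a := 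
    fun a ha => (mem_filter.1 ha).2
  choose! g hg using hex
  have h2 : prob H w (fun a => ∃ g, Small T d g ∧ g ∣ h + C D * poly a) ≤ 
      ∑ f ∈ S.image g, prob H w (fun a => f ∣ h + C D * poly a) := by
    refine prob_union h0 _ _ _ ?_
    intro a ha _ hE
    have haS : a ∈ S := by
      rw [hS, mem_filter, Fintype.mem_piFinset]
      exact ⟨ha, hE⟩
    exact ⟨g a, mem_image_of_mem _ haS, (hg a haS).2⟩
  have h3 : ∀ f ∈ S.image g, Small T d f := by
    intro f hf
    obtain ⟨a, ha, rfl⟩ := mem_image.1 hf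
    exact (hg a ha).1
  have h4 := card_classes hK (S.image g) h3
  have h5 : ((S.image g).image red).card ≤ 2 ^ d := by
    refine card_monic d _ ?_
    intro c hc
    obtain ⟨f, hf, rfl⟩ := mem_image.1 hc
    have h6 := h3 f hf
    exact ⟨red_monic h6.1, by rw [red_natDegree h6.1, h6.2.2.1]⟩
  calc prob H w (fun a => ∃ g, Small T d g ∧ g ∣ h + C D * poly a) 
      ≤ ∑ f ∈ S.image g, prob H w (fun a => f ∣ h + C D * poly a) := h2
    _ ≤ ∑ f ∈ S.image g, q ^ (d * (n / k) - 1) := sum_le_sum fun f hf => 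
        one_factor2 hB h0 h1 hH hn hd hq0 hq1 hpar (h3 f hf) hk (hlog f (h3 f hf)) hD0
    _ = ((S.image g).card : ℝ) * q ^ (d * (n / k) - 1) := by rw [sum_const, nsmul_eq_mul]
    _ ≤ (2 ^ d * K1) * q ^ (d * (n / k) - 1) := by
        refine mul_le_mul_of_nonneg_right ?_ (pow_nonneg hq0 _)
        refine h4.trans (mul_le_mul_of_nonneg_right ?_ hK1)
        exact_mod_cast h5

/-- the sum over the degrees -/
lemma all_degrees2 (hR : S_RED) {T : ℝ} (hT : T < √2) (h0 : ∀ j x, 0 ≤ w j x)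
    {h : ℤ[X]} (hn : h.natDegree ≤ n) {D : ℤ} {Q : (Fin (n + 1) → ℤ) → ℤ[X]} (hQ : Aux h D Q) :
    prob H w (fun a => ∃ g, g ∣ h + C D * poly a ∧ 1 < M g ∧ M g ≤ T) ≤
      prob H w (fun a => red (Q a) = 0) + 
      ∑ d ∈ Icc 1 n, prob H w (fun a => (∃ g, Small T d g ∧ g ∣ h + C D * poly a) ∧ 
        red (Q a) ≠ 0) := by
  classical
  have key := prob_union (H := H) (w := w) h0 (insert 0 (Icc 1 n)) 
    (fun a => ∃ g, g ∣ h + C D * poly a ∧ 1 < M g ∧ M g ≤ T)
    (fun d a => if d = 0 then red (Q a) = 0 else 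
      ((∃ g, Small T d g ∧ g ∣ h + C D * poly a) ∧ red (Q a) ≠ 0)) (by
    rintro a _ _ ⟨g, hga, hg1, hgT⟩
    by_cases hz : red (Q a) = 0
    · refine ⟨0, mem_insert_self _ _, ?_⟩
      simp only [if_true]
      exact hz
    · obtain ⟨d, h', hd, hh', hdvd⟩ := hR T hT _ g hga hg1 hgT
      have h2 : h + C D * poly a ≠ 0 := fun h3 => hz (hQ.zero a h3)
      have hdeg : (h + C D * poly a).natDegree ≤ n := by
        refine (natDegree_add_le _ _).trans (max_le hn ?_)
        exact (natDegree_C_mul_le _ _).trans (poly_natDegree_le a)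
      have h3 := natDegree_le_of_dvd hdvd h2
      rw [hh'.2.2.1] at h3
      refine ⟨d, mem_insert_of_mem (mem_Icc.2 ⟨hd, h3.trans hdeg⟩), ?_⟩
      rw [if_neg (by omega)]
      exact ⟨⟨h', hh', hdvd⟩, hz⟩)
  rw [sum_insert (by simp)] at key
  refine key.trans (le_of_eq ?_)
  simp only [if_true]
  congr 1
  refine sum_congr rfl fun d hd => ?_
  have hd0 : d ≠ 0 := by
    rw [mem_Icc] at hd
    omega
  simp only [hd0, if_false]

end

end Pool.Agent.K4H76.RP
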