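import Pool.Agent.K4H76.RP.Defs

/-! # The number of divisors of given degree of a polynomial over `ZMod 2` -/

set_option autoImplicit false

open Polynomial Finset

namespace Pool.Agent.K4H76.RP

open UniqueFactorizationMonoid


/-- monic polynomials of degree `j` over `ZMod 2` -/
theorem card_deg (T : Finset (ZMod 2)[X]) (j : ℕ) (hT : ∀ P ∈ T, P.Monic ∧ P.natDegree = j) :
    T.card ≤ 2 ^ j := by
  have h1 : T.card ≤ (Finset.univ : Finset (Fin j → ZMod 2)).card := by
    refine Finset.card_le_card_of_injOn (fun P i => P.coeff i) (fun _ _ => Finset.mem_univ _) ?_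
    intro P hP Q hQ hPQ
    obtain ⟨hPm, hPd⟩ := hT P hP
    obtain ⟨hQm, hQd⟩ := hT Q hQ
    ext i
    rcases lt_trichotomy i j with h | h | h
    · exact congrFun hPQ ⟨i, h⟩
    · subst h
      have e1 : P.coeff i = 1 := by rw [← hPd]; exact hPm.coeff_natDegree
      have e2 : Q.coeff i = 1 := by rw [← hQd]; exact hQm.coeff_natDegree
      rw [e1, e2]
    · rw [coeff_eq_zero_of_natDegree_lt (by omega), coeff_eq_zero_of_natDegree_lt (by omega)]
  simpa [Fintype.card_pi, ZMod.card] using h1

/-- degree of a monic divisor from its factorisation -/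
theorem deg_eq (F c : (ZMod 2)[X]) (hF : F ≠ 0) (hc : c.Monic) (hcF : c ∣ F) :
    c.natDegree = ∑ P : {P // P ∈ (normalizedFactors F).toFinset},
      (normalizedFactors c).count P.1 * P.1.natDegree := by
  have hc0 : c ≠ 0 := hc.ne_zero
  have h1 : (normalizedFactors c).prod = c := by
    rw [prod_normalizedFactors_eq hc0]
    exact hc.normalize_eq_self
  have hle : normalizedFactors c ≤ normalizedFactors F :=
    (dvd_iff_normalizedFactors_le_normalizedFactors hc0 hF).1 hcF
  have hmon : ∀ P ∈ normalizedFactors c, P.Monic := fun P hP => by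
    have hn := normalize_normalized_factor P hP
    have hP0 : P ≠ 0 := (irreducible_of_normalized_factor P hP).ne_zero
    rw [← hn]
    exact monic_normalize hP0
  have h2 : c.natDegree = ((normalizedFactors c).map natDegree).sum := by
    conv_lhs => rw [← h1]
    exact natDegree_multiset_prod_of_monic _ hmon
  rw [h2, Finset.sum_multiset_map_count, Finset.sum_coe_sort (normalizedFactors F).toFinset
    (fun P => (normalizedFactors c).count P * P.natDegree)]
  have hsub : (normalizedFactors c).toFinset ⊆ (normalizedFactors F).toFinset :=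
    Multiset.toFinset_subset.2 (Multiset.subset_of_le hle)
  rw [← Finset.sum_subset hsub]
  · simp only [smul_eq_mul]
  · intro P _ hP
    rw [Multiset.mem_toFinset] at hP
    rw [Multiset.count_eq_zero_of_notMem hP, zero_mul]

/-- the Euler product bound -/
theorem euler (z : ℝ) (hz0 : 0 < z) (hz1 : z < 1) (F : (ZMod 2)[X]) (hF : F ≠ 0)
    (S : Finset (ZMod 2)[X]) (hS : ∀ c ∈ S, c.Monic ∧ c ∣ F) :
    ∑ c ∈ S, z ^ c.natDegree ≤
      Real.exp ((∑ P ∈ (normalizedFactors F).toFinset, z ^ P.natDegree) / (1 - z)) := by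
  classical
  set T := (normalizedFactors F).toFinset with hT
  set N := Multiset.card (normalizedFactors F) with hN
  have hTd : ∀ P ∈ T, 1 ≤ P.natDegree := by
    intro P hP
    rw [hT, Multiset.mem_toFinset] at hP
    exact (irreducible_of_normalized_factor P hP).natDegree_pos
  have h1 : ∑ c ∈ S, z ^ c.natDegree ≤
      ∑ e ∈ Fintype.piFinset (fun _ : {P // P ∈ T} => Finset.range (N + 1)),
        ∏ P : {P // P ∈ T}, (z ^ P.1.natDegree) ^ (e P) := by
    have h2 : ∀ c ∈ S, z ^ c.natDegree = ∏ P : {P // P ∈ T},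
        (z ^ P.1.natDegree) ^ ((normalizedFactors c).count P.1) := by
      intro c hc
      rw [deg_eq F c hF (hS c hc).1 (hS c hc).2, ← Finset.prod_pow_eq_pow_sum]
      refine Finset.prod_congr rfl (fun P _ => ?_)
      rw [← pow_mul, mul_comm]
    rw [Finset.sum_congr rfl h2]
    have hinj : Set.InjOn (fun c : (ZMod 2)[X] => fun P : {P // P ∈ T} =>
        (normalizedFactors c).count P.1) (S : Set (ZMod 2)[X]) := by
      intro c hc c' hc' hcc
      have hc0 : c ≠ 0 := (hS c hc).1.ne_zero
      have hc0' : c' ≠ 0 := (hS c' hc').1.ne_zero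
      have e1 : (normalizedFactors c).prod = c := by
        rw [prod_normalizedFactors_eq hc0]; exact (hS c hc).1.normalize_eq_self
      have e2 : (normalizedFactors c').prod = c' := by
        rw [prod_normalizedFactors_eq hc0']; exact (hS c' hc').1.normalize_eq_self
      have l1 := (dvd_iff_normalizedFactors_le_normalizedFactors hc0 hF).1 (hS c hc).2
      have l2 := (dvd_iff_normalizedFactors_le_normalizedFactors hc0' hF).1 (hS c' hc').2
      rw [← e1, ← e2]
      congr 1
      ext P
      by_cases hP : P ∈ T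
      · exact congrFun hcc ⟨P, hP⟩
      · rw [hT, Multiset.mem_toFinset] at hP
        rw [Multiset.count_eq_zero_of_notMem (fun h => hP (Multiset.mem_of_le l1 h)),
          Multiset.count_eq_zero_of_notMem (fun h => hP (Multiset.mem_of_le l2 h))]
    rw [← Finset.sum_image (f := fun e : ({P // P ∈ T} → ℕ) =>
      ∏ P : {P // P ∈ T}, (z ^ P.1.natDegree) ^ (e P)) hinj]
    refine Finset.sum_le_sum_of_subset_of_nonneg ?_ ?_
    · intro e he
      rw [Finset.mem_image] at he
      obtain ⟨c, hc, rfl⟩ := he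
      rw [Fintype.mem_piFinset]
      intro P
      rw [Finset.mem_range, Nat.lt_succ_iff]
      have l1 := (dvd_iff_normalizedFactors_le_normalizedFactors (hS c hc).1.ne_zero hF).1
        (hS c hc).2
      exact (Multiset.count_le_card _ _).trans (Multiset.card_le_card l1)
    · intro e _ _
      exact Finset.prod_nonneg (fun P _ => by positivity)
  refine h1.trans ?_
  rw [← Finset.prod_univ_sum (fun _ : {P // P ∈ T} => Finset.range (N + 1))
    (fun P i => (z ^ P.1.natDegree) ^ i)]
  rw [Finset.sum_div, Real.exp_sum, ← Finset.prod_coe_sort T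
    (fun P => Real.exp (z ^ P.natDegree / (1 - z)))]
  refine Finset.prod_le_prod (fun P _ => Finset.sum_nonneg (fun i _ => by positivity)) ?_
  intro P _
  set x := z ^ P.1.natDegree with hx
  have hx0 : 0 ≤ x := by positivity
  have hxz : x ≤ z := by
    calc x ≤ z ^ 1 := pow_le_pow_of_le_one hz0.le hz1.le (hTd P.1 P.2)
      _ = z := pow_one z
  have hx1 : x < 1 := lt_of_le_of_lt hxz hz1
  have hgeo : ∑ i ∈ range (N + 1), x ^ i ≤ 1 / (1 - x) := by
    have := Summable.sum_le_tsum (range (N + 1)) (fun i _ => pow_nonneg hx0 i)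
      (summable_geometric_of_lt_one hx0 hx1)
    rw [tsum_geometric_of_lt_one hx0 hx1] at this
    rwa [one_div]
  refine hgeo.trans ?_
  have h3 : 1 / (1 - x) = x / (1 - x) + 1 := by
    field_simp [(by linarith : (1 - x) ≠ 0)]
    ring
  rw [h3]
  refine (Real.add_one_le_exp _).trans ?_
  apply Real.exp_le_exp.2
  exact div_le_div_of_nonneg_left hx0 (by linarith) (by linarith)

/-- the sum over the irreducible factors -/
theorem sum_factors (σ : ℝ) (hσ0 : 0 < σ) (hσ1 : σ < 1) (n : ℕ) (hn : 1 ≤ n)
    (T : Finset (ZMod 2)[X]) (hT : ∀ P ∈ T, P.Monic ∧ 1 ≤ P.natDegree)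
    (hTn : ∑ P ∈ T, P.natDegree ≤ n) :
    ∑ P ∈ T, ((2 : ℝ) ^ (-σ)) ^ P.natDegree ≤
      ((2 * 2 ^ (-σ)) / (2 * 2 ^ (-σ) - 1) + 1) * (n : ℝ) ^ (1 - σ) := by
  classical
  set z : ℝ := (2 : ℝ) ^ (-σ) with hz
  have hz0 : 0 < z := by positivity
  have hz1 : z < 1 := by
    rw [hz]
    exact Real.rpow_lt_one_of_one_lt_of_neg (by norm_num) (by linarith)
  have h2z : 2 * z = (2 : ℝ) ^ (1 - σ) := by
    rw [hz, sub_eq_add_neg, Real.rpow_add (by norm_num), Real.rpow_one]
  have h2z1 : 1 < 2 * z := by
    rw [h2z]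
    exact Real.one_lt_rpow (by norm_num) (by linarith)
  set J := Nat.log 2 n with hJ
  have hJ1 : 2 ^ J ≤ n := Nat.pow_log_le_self 2 (by omega)
  have hJ2 : n < 2 ^ (J + 1) := Nat.lt_pow_succ_log_self (by norm_num) n
  have hn0 : (0 : ℝ) < n := by exact_mod_cast hn
  have hpow : (2 * z) ^ J ≤ (n : ℝ) ^ (1 - σ) := by
    rw [h2z, ← Real.rpow_natCast, ← Real.rpow_mul (by norm_num), mul_comm (1 - σ),
      Real.rpow_mul (by norm_num), Real.rpow_natCast]
    exact Real.rpow_le_rpow (by positivity) (by exact_mod_cast hJ1) (by linarith)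
  rw [← Finset.sum_filter_add_sum_filter_not T (fun P => P.natDegree < J + 1)]
  have hA : ∑ P ∈ T.filter (fun P => P.natDegree < J + 1), z ^ P.natDegree ≤
      (2 * z) / (2 * z - 1) * (n : ℝ) ^ (1 - σ) := by
    have h1 : ∑ P ∈ T.filter (fun P => P.natDegree < J + 1), z ^ P.natDegree =
        ∑ j ∈ range (J + 1), ∑ P ∈ (T.filter (fun P => P.natDegree < J + 1)).filter
          (fun P => P.natDegree = j), z ^ P.natDegree := by
      rw [Finset.sum_fiberwise_of_maps_to]
      intro P hP
      rw [Finset.mem_filter] at hP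
      exact Finset.mem_range.2 hP.2
    rw [h1]
    have h2 : ∀ j ∈ range (J + 1), ∑ P ∈ (T.filter (fun P => P.natDegree < J + 1)).filter
          (fun P => P.natDegree = j), z ^ P.natDegree ≤ (2 * z) ^ j := by
      intro j _
      have h3 : ∀ P ∈ (T.filter (fun P => P.natDegree < J + 1)).filter
          (fun P => P.natDegree = j), z ^ P.natDegree = z ^ j := by
        intro P hP
        rw [Finset.mem_filter] at hP
        rw [hP.2]
      rw [Finset.sum_congr rfl h3, Finset.sum_const, nsmul_eq_mul, mul_pow]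
      have h4 := card_deg ((T.filter (fun P => P.natDegree < J + 1)).filter
          (fun P => P.natDegree = j)) j (fun P hP => by
            rw [Finset.mem_filter, Finset.mem_filter] at hP
            exact ⟨(hT P hP.1.1).1, hP.2⟩)
      exact mul_le_mul_of_nonneg_right (by exact_mod_cast h4) (by positivity)
    refine (Finset.sum_le_sum h2).trans ?_
    rw [geom_sum_eq h2z1.ne']
    rw [div_mul_eq_mul_div]
    apply div_le_div_of_nonneg_right _ (by linarith)
    have : (2 * z) ^ (J + 1) = (2 * z) * (2 * z) ^ J := by rw [pow_succ]; ring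
    rw [this]
    have := mul_le_mul_of_nonneg_left hpow (by linarith : 0 ≤ 2 * z)
    linarith
  have hB : ∑ P ∈ T.filter (fun P => ¬ P.natDegree < J + 1), z ^ P.natDegree ≤
      (n : ℝ) ^ (1 - σ) := by
    have h1 : ∀ P ∈ T.filter (fun P => ¬ P.natDegree < J + 1), z ^ P.natDegree ≤ z ^ (J + 1) := by
      intro P hP
      rw [Finset.mem_filter, not_lt] at hP
      exact pow_le_pow_of_le_one hz0.le hz1.le hP.2
    have h2 : ((T.filter (fun P => ¬ P.natDegree < J + 1)).card : ℝ) ≤ n := by
      have : (T.filter (fun P => ¬ P.natDegree < J + 1)).card ≤ n := by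
        calc (T.filter (fun P => ¬ P.natDegree < J + 1)).card ≤ T.card :=
              Finset.card_filter_le _ _
          _ = ∑ P ∈ T, 1 := by simp
          _ ≤ ∑ P ∈ T, P.natDegree := Finset.sum_le_sum (fun P hP => (hT P hP).2)
          _ ≤ n := hTn
      exact_mod_cast this
    have h3 : z ^ (J + 1) ≤ (n : ℝ) ^ (-σ) := by
      rw [hz, ← Real.rpow_natCast, ← Real.rpow_mul (by norm_num), mul_comm (-σ),
        Real.rpow_mul (by norm_num), Real.rpow_natCast]
      exact Real.rpow_le_rpow_of_nonpos hn0 (by exact_mod_cast hJ2.le) (by linarith)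
    calc ∑ P ∈ T.filter (fun P => ¬ P.natDegree < J + 1), z ^ P.natDegree
        ≤ ∑ P ∈ T.filter (fun P => ¬ P.natDegree < J + 1), z ^ (J + 1) := Finset.sum_le_sum h1
      _ = (T.filter (fun P => ¬ P.natDegree < J + 1)).card * z ^ (J + 1) := by
          rw [Finset.sum_const, nsmul_eq_mul]
      _ ≤ n * (n : ℝ) ^ (-σ) := mul_le_mul h2 h3 (by positivity) hn0.le
      _ = (n : ℝ) ^ (1 - σ) := by
          rw [sub_eq_add_neg, Real.rpow_add hn0, Real.rpow_one]
  rw [add_mul, one_mul]
  exact add_le_add hA hB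

theorem div_bound : S_DIV := by
  intro σ hσ0 hσ1
  set z : ℝ := (2 : ℝ) ^ (-σ) with hz
  have hz0 : 0 < z := by positivity
  have hz1 : z < 1 := by
    rw [hz]
    exact Real.rpow_lt_one_of_one_lt_of_neg (by norm_num) (by linarith)
  have h2z : 2 * z = (2 : ℝ) ^ (1 - σ) := by
    rw [hz, sub_eq_add_neg, Real.rpow_add (by norm_num), Real.rpow_one]
  have h2z1 : 1 < 2 * z := by
    rw [h2z]
    exact Real.one_lt_rpow (by norm_num) (by linarith)
  have hKpos : 0 < ((2 * z) / (2 * z - 1) + 1) / (1 - z) := by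
    have : 0 < 2 * z - 1 := by linarith
    have : 0 < 1 - z := by linarith
    positivity
  refine ⟨((2 * z) / (2 * z - 1) + 1) / (1 - z), hKpos, ?_⟩
  intro n hn F hF hFn d S hS
  have hmon : ∀ P ∈ (normalizedFactors F).toFinset, P.Monic ∧ 1 ≤ P.natDegree := by
    intro P hP
    rw [Multiset.mem_toFinset] at hP
    have hirr := irreducible_of_normalized_factor P hP
    refine ⟨?_, hirr.natDegree_pos⟩
    rw [← normalize_normalized_factor P hP]
    exact monic_normalize hirr.ne_zero
  have hsum : ∑ P ∈ (normalizedFactors F).toFinset, P.natDegree ≤ n := by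
    have h1 : F.natDegree = ((normalizedFactors F).map natDegree).sum := by
      have e1 : (normalizedFactors F).prod = normalize F := prod_normalizedFactors_eq hF
      have e2 : (normalize F).natDegree = F.natDegree := by
        exact natDegree_eq_of_degree_eq degree_normalize
      rw [← e2, ← e1]
      refine natDegree_multiset_prod_of_monic _ (fun P hP => ?_)
      exact (hmon P (Multiset.mem_toFinset.2 hP)).1
    calc ∑ P ∈ (normalizedFactors F).toFinset, P.natDegree
        ≤ ∑ P ∈ (normalizedFactors F).toFinset, (normalizedFactors F).count P • P.natDegree := by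
          refine Finset.sum_le_sum (fun P hP => ?_)
          rw [Multiset.mem_toFinset] at hP
          have := Multiset.one_le_count_iff_mem.2 hP
          rw [smul_eq_mul]
          exact Nat.le_mul_of_pos_left _ this
      _ = F.natDegree := by rw [h1, Finset.sum_multiset_map_count]
      _ ≤ n := hFn
  have h1 := euler z hz0 hz1 F hF S (fun c hc => ⟨(hS c hc).1, (hS c hc).2.1⟩)
  have h2 := sum_factors σ hσ0 hσ1 n hn _ hmon hsum
  have h3 : ∑ c ∈ S, z ^ c.natDegree = S.card * z ^ d := by
    rw [Finset.sum_congr rfl (fun c hc => by rw [(hS c hc).2.2]), Finset.sum_const, nsmul_eq_mul]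
  have h4 : (S.card : ℝ) * z ^ d ≤
      Real.exp (((2 * z) / (2 * z - 1) + 1) / (1 - z) * (n : ℝ) ^ (1 - σ)) := by
    rw [← h3]
    refine h1.trans (Real.exp_le_exp.2 ?_)
    rw [div_mul_eq_mul_div]
    exact div_le_div_of_nonneg_right h2 (by linarith)
  have h5 : (2 : ℝ) ^ (σ * d) * z ^ d = 1 := by
    rw [hz, ← Real.rpow_natCast (2 ^ (-σ) : ℝ), ← Real.rpow_mul (by norm_num),
      ← Real.rpow_add (by norm_num)]
    rw [show σ * (d : ℝ) + -σ * d = 0 by ring, Real.rpow_zero]
  have h6 : (0 : ℝ) ≤ (2 : ℝ) ^ (σ * d) := by positivity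
  calc (S.card : ℝ) = (2 : ℝ) ^ (σ * d) * (S.card * z ^ d) := by
        rw [mul_left_comm, h5, mul_one]
    _ ≤ _ := mul_le_mul_of_nonneg_left h4 h6

end Pool.Agent.K4H76.RP
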