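import Mathlib
import Pool.Agent.K4H76.RP.Defs
import Pool.Agent.H196R3.LId
import Pool.Agent.H388SL.DobC

/-!
# Dobrowolski's theorem and the reduction to monic irreducible factors
-/

set_option autoImplicit false

open Polynomial Finset

namespace Pool.Agent.K4H76.RP

theorem map_ne {f : ℤ[X]} (hf : f ≠ 0) : f.map (Int.castRingHom ℂ) ≠ 0 := by
  rwa [Ne, Polynomial.map_eq_zero_iff (Int.castRingHom ℂ).injective_int]

theorem M_mul (f g : ℤ[X]) : M (f * g) = M f * M g := by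
  unfold M
  rw [Polynomial.map_mul, mahlerMeasure_mul]

theorem lead_le_M (f : ℤ[X]) : |(f.leadingCoeff : ℝ)| ≤ M f := by
  have h := Polynomial.leadingCoeff_le_mahlerMeasure (f.map (Int.castRingHom ℂ))
  rw [leadingCoeff_map_of_injective (Int.castRingHom ℂ).injective_int] at h
  have h1 : ‖(Int.castRingHom ℂ) f.leadingCoeff‖ = |(f.leadingCoeff : ℝ)| := by
    rw [eq_intCast, Complex.norm_intCast]
  rw [h1] at h
  exact h

theorem one_le_M {f : ℤ[X]} (hf : f ≠ 0) : 1 ≤ M f := by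
  refine le_trans ?_ (lead_le_M f)
  have h1 : 1 ≤ |f.leadingCoeff| := Int.one_le_abs (leadingCoeff_ne_zero.2 hf)
  exact_mod_cast h1

theorem M_le_of_dvd {f g : ℤ[X]} (hg : g ≠ 0) (h : f ∣ g) : M f ≤ M g := by
  obtain ⟨k, rfl⟩ := h
  have hk : k ≠ 0 := right_ne_zero_of_mul hg
  have hf : f ≠ 0 := left_ne_zero_of_mul hg
  rw [M_mul]
  have h1 := one_le_M hk
  have h2 := one_le_M hf
  nlinarith

theorem M_one : M 1 = 1 := by
  unfold M
  rw [Polynomial.map_one, mahlerMeasure_one]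

theorem M_X_pow_sub_one (m : ℕ) (hm : 0 < m) : M (X ^ m - 1) = 1 := by
  unfold M
  rw [mahlerMeasure_eq_leadingCoeff_mul_prod_roots]
  have h1 : ((X ^ m - 1 : ℤ[X]).map (Int.castRingHom ℂ)) = X ^ m - 1 := by
    rw [Polynomial.map_sub, Polynomial.map_pow, Polynomial.map_X, Polynomial.map_one]
  rw [h1]
  have h2 : (X ^ m - 1 : ℂ[X]).leadingCoeff = 1 := (monic_X_pow_sub_C (1 : ℂ) hm.ne')
  rw [h2, norm_one, one_mul]
  refine Multiset.prod_eq_one fun x hx => ?_
  obtain ⟨a, ha, rfl⟩ := Multiset.mem_map.1 hx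
  have h3 : (X ^ m - 1 : ℂ[X]) ≠ 0 := (monic_X_pow_sub_C (1 : ℂ) hm.ne').ne_zero
  rw [mem_roots h3, IsRoot.def, eval_sub, eval_pow, eval_X, eval_one, sub_eq_zero] at ha
  have h4 : ‖a‖ = 1 := by
    have h5 := congrArg norm ha
    rw [norm_pow, norm_one] at h5
    exact (pow_eq_one_iff_of_nonneg (norm_nonneg a) hm.ne').1 h5
  rw [h4, max_self]

theorem M_X : M X = 1 := by
  unfold M
  have h := mahlerMeasure_X_sub_C 0
  rw [C_0, sub_zero, norm_zero, max_eq_left zero_le_one] at h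
  rw [Polynomial.map_X]
  exact h

theorem dvd_of_root {g : ℤ[X]} (hm : g.Monic) (hirr : Irreducible g) {z : ℂ}
    (hz : aeval z g = 0) {f : ℤ[X]} (hf : aeval z f = 0) : g ∣ f := by
  have hzi : IsIntegral ℤ z := ⟨g, hm, by rw [← Polynomial.aeval_def]; exact hz⟩
  have h1 : minpoly ℤ z ∣ g := minpoly.isIntegrallyClosed_dvd hzi hz
  have h2 : g ∣ minpoly ℤ z := (minpoly.irreducible hzi).dvd_symm hirr h1
  exact h2.trans (minpoly.isIntegrallyClosed_dvd hzi hf)

theorem dob : S_DOB := by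
  obtain ⟨c, hc, hdob⟩ := Pool.Agent.H388SL.dob
  refine ⟨c, hc, fun T d g hg => ?_⟩
  obtain ⟨hm, hirr, hd, h1, h2⟩ := hg
  rw [← hd]
  refine Pool.Agent.H196R3.LI.dob_poly hdob hirr hm fun z hz => ⟨?_, ?_⟩
  · rintro rfl
    have h3 : g ∣ X := dvd_of_root hm hirr hz (aeval_X 0)
    have h4 := M_le_of_dvd X_ne_zero h3
    rw [M_X] at h4
    linarith
  · intro n hn h
    have h3 : g ∣ X ^ n - 1 := dvd_of_root hm hirr hz (by
      rw [map_sub, map_pow, aeval_X, map_one, h, sub_self])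
    have h5 : (X ^ n - 1 : ℤ[X]) ≠ 0 := (monic_X_pow_sub_C (1 : ℤ) hn.ne').ne_zero
    have h4 := M_le_of_dvd h5 h3
    rw [M_X_pow_sub_one n hn] at h4
    linarith

theorem M_le_one (a : ℤ[X]) (h0 : a ≠ 0) (h : ∀ h : ℤ[X], Irreducible h → h ∣ a → M h ≤ 1) :
    M a ≤ 1 := by
  induction a using WfDvdMonoid.induction_on_irreducible with
  | zero => exact absurd rfl h0
  | unit u hu =>
    have h1 := M_le_of_dvd one_ne_zero hu.dvd
    rwa [M_one] at h1
  | mul a i ha hi ih =>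
    have ha' : a ≠ 0 := ha
    have h1 := ih ha' fun k hk hd => h k hk (hd.mul_left i)
    have h2 := h i hi (dvd_mul_right i a)
    rw [M_mul]
    have h3 := one_le_M ha'
    have h4 := one_le_M hi.ne_zero
    have h5 : M a = 1 := le_antisymm h1 h3
    have h6 : M i = 1 := le_antisymm h2 h4
    rw [h5, h6, mul_one]

theorem reduction : S_RED := by
  intro T hT f g hgf h1 h2
  have hg0 : g ≠ 0 := by
    rintro rfl
    unfold M at h1
    rw [Polynomial.map_zero, mahlerMeasure_zero] at h1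
    linarith
  obtain ⟨k, hk, hkg, hk1⟩ : ∃ k : ℤ[X], Irreducible k ∧ k ∣ g ∧ 1 < M k := by
    by_contra hcon
    push Not at hcon
    have h3 := M_le_one g hg0 hcon
    linarith
  have hkT : M k ≤ T := (M_le_of_dvd hg0 hkg).trans h2
  have hs : √(2 : ℝ) < 2 := by
    rw [Real.sqrt_lt' (by norm_num)]
    norm_num
  have hlc : |k.leadingCoeff| = 1 := by
    have h3 := lead_le_M k
    have h4 : (|k.leadingCoeff| : ℝ) < 2 := by linarith
    have h5 : |k.leadingCoeff| < 2 := by exact_mod_cast h4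
    have h6 : 1 ≤ |k.leadingCoeff| := Int.one_le_abs (leadingCoeff_ne_zero.2 hk.ne_zero)
    omega
  have key : ∀ h : ℤ[X], Associated k h → h.Monic → ∃ (d : ℕ) (h : ℤ[X]), 1 ≤ d ∧
      Small T d h ∧ h ∣ f := by
    intro h has hmon
    have hirr : Irreducible h := has.irreducible hk
    have hM : M h = M k := le_antisymm (M_le_of_dvd hk.ne_zero has.symm.dvd)
      (M_le_of_dvd hirr.ne_zero has.dvd)
    refine ⟨h.natDegree, h, ?_, ⟨hmon, hirr, rfl, by rw [hM]; exact hk1, by rw [hM]; exact hkT⟩,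
      (has.symm.dvd.trans hkg).trans hgf⟩
    by_contra hcon
    have h3 : h.natDegree = 0 := by omega
    have h4 : h = 1 := hmon.natDegree_eq_zero.1 h3
    exact hirr.not_isUnit (h4 ▸ isUnit_one)
  rcases abs_eq (zero_le_one (α := ℤ)) |>.1 hlc with h3 | h3
  · exact key k (Associated.refl k) h3
  · refine key (-k) (Associated.neg_right (Associated.refl k)) ?_
    change (-k).leadingCoeff = 1
    rw [leadingCoeff_neg, h3, neg_neg]

end Pool.Agent.K4H76.RP
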