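import Mathlib
import Pool.Agent.K4H76.RP.Count

/-!
# The main estimate
-/

set_option autoImplicit false

open Polynomial Finset Filter

namespace Pool.Agent.K4H76.RP

/-- the numerical conditions for large `n` -/
lemma eventually_cond {K B l c ε : ℝ} (hK : 0 < K) (hl : 0 < l) (hε : 0 < ε)
    (hε1 : ε < 1) :
    ∀ᶠ x : ℝ in atTop, 1 ≤ x ∧ 2 * (K * (1 + Real.log x)) * x ≤ Real.exp (x ^ (1 - ε)) ∧
      2 * B + 4 ≤ l * x ^ (ε / 8) ∧ Real.log (2 * x) ≤ x ^ (ε / 32) ∧
      2 / c + 2 ≤ x ^ (ε / 32) := by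
  have h1 : ∀ᶠ x : ℝ in atTop, (1 : ℝ) ≤ x := eventually_ge_atTop 1
  have hδ : 0 < ε / 32 := by positivity
  have hlog : ∀ᶠ x : ℝ in atTop, Real.log x ≤ 1 / 2 * x ^ (ε / 32) := by
    have h2 := (isLittleO_log_rpow_atTop hδ).bound (show (0 : ℝ) < 1 / 2 by norm_num)
    filter_upwards [h2, eventually_ge_atTop (1 : ℝ)] with x hx hx1
    rw [Real.norm_of_nonneg (Real.log_nonneg hx1), 
      Real.norm_of_nonneg (Real.rpow_nonneg (by linarith) _)] at hx
    exact hx
  have hpow : ∀ (δ A : ℝ), 0 < δ → ∀ᶠ x : ℝ in atTop, A ≤ x ^ δ := fun δ A hδ =>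
    (tendsto_rpow_atTop hδ).eventually_ge_atTop A
  have h5 := hpow (ε / 32) (2 * Real.log 2) hδ
  have h6 := hpow (ε / 32) (2 / c + 2) hδ
  have h7 := hpow (ε / 8) ((2 * B + 4) / l) (by positivity)
  have h8 : ∀ᶠ x : ℝ in atTop, 2 * K * x ^ (2 : ℝ) ≤ Real.exp (x ^ (1 - ε)) := by
    have h9 := tendsto_rpow_mul_exp_neg_mul_atTop_nhds_zero (2 / (1 - ε)) 1 one_pos
    have h10 : Tendsto (fun x : ℝ => x ^ (1 - ε)) atTop atTop :=
      tendsto_rpow_atTop (by linarith)
    have h11 := (h9.comp h10).eventually (gt_mem_nhds (show (0 : ℝ) < 1 / (2 * K) by positivity))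
    filter_upwards [h11, eventually_ge_atTop (1 : ℝ)] with x hx hx1
    simp only [Function.comp] at hx
    have hx0 : 0 ≤ x := by linarith
    have e1 : (x ^ (1 - ε)) ^ (2 / (1 - ε)) = x ^ (2 : ℝ) := by
      rw [← Real.rpow_mul hx0]
      congr 1
      field_simp [show (1 - ε) ≠ 0 by linarith]
    rw [e1, neg_one_mul, Real.exp_neg, ← div_eq_mul_inv, div_lt_iff₀ (Real.exp_pos _)] at hx
    have hK2 : 0 < 2 * K := by positivity
    calc 2 * K * x ^ (2 : ℝ) ≤ 2 * K * (1 / (2 * K) * Real.exp (x ^ (1 - ε))) :=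
          mul_le_mul_of_nonneg_left hx.le hK2.le
      _ = Real.exp (x ^ (1 - ε)) := by field_simp
  filter_upwards [h1, hlog, h5, h6, h7, h8] with x a1 a2 a3 a4 a5 a6
  have hx0 : 0 < x := by linarith
  refine ⟨a1, ?_, ?_, ?_, a4⟩
  · refine le_trans ?_ a6
    have e1 : x ^ (2 : ℝ) = x * x := by
      rw [show (2 : ℝ) = ((2 : ℕ) : ℝ) by norm_num, Real.rpow_natCast]
      ring
    have e2 : 1 + Real.log x ≤ x := by
      have := Real.log_le_sub_one_of_pos hx0
      linarith
    rw [e1]
    have e3 : K * (1 + Real.log x) ≤ K * x := mul_le_mul_of_nonneg_left e2 hK.le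
    nlinarith
  · rw [div_le_iff₀ hl] at a5
    linarith
  · rw [Real.log_mul (by norm_num) hx0.ne']
    linarith

theorem main (hC : S_CLASS) (hD : S_DIV) (hB : S_BLOCK) (hDob : S_DOB) (hR : S_RED) 
    (T : ℝ) (hT : T < √2) (r : ℝ) (hr1 : r < 1) (ε : ℝ) (hε : 0 < ε) (hε1 : ε < 1)
    (hrε : (2 : ℝ) ^ ε * r < 1) : ∃ n0 : ℕ, ∀ n : ℕ, n0 ≤ n → ∀ H : ℕ, 1 ≤ H → 
      Real.log H ≤ (n : ℝ) ^ (ε / 2) → ∀ w : Fin (n + 1) → ℤ → ℝ, (∀ j x, 0 ≤ w j x) → 
      (∀ j, ∑ x ∈ Icc (-(H : ℤ)) H, w j x = 1) → 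
      (∀ j : Fin (n + 1), (j : ℕ) < n → ∀ x y, Even x → Odd y → w j x + w j y ≤ r) → 
      (∀ x, Even x → w (Fin.last n) x = 0) → 
      prob H w (fun a => ∃ g, g ∣ poly a ∧ 1 < M g ∧ M g ≤ T) ≤ 
        Real.exp (-(n : ℝ) ^ (1 - ε)) := by
  classical
  -- we may assume `r ≥ 1 / 2`
  obtain ⟨s, hs2, hs1, hrs, hsε⟩ : ∃ s : ℝ, 1 / 2 ≤ s ∧ s < 1 ∧ r ≤ s ∧ (2 : ℝ) ^ ε * s < 1 := by
    refine ⟨max r (1 / 2), le_max_right _ _, max_lt hr1 (by norm_num), le_max_left _ _, ?_⟩
    rcases max_cases r (1 / 2) with ⟨h, _⟩ | ⟨h, _⟩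
    · rw [h]; exact hrε
    · rw [h]
      have h2 : (2 : ℝ) ^ ε < (2 : ℝ) ^ (1 : ℝ) := 
        Real.rpow_lt_rpow_of_exponent_lt (by norm_num) hε1
      rw [Real.rpow_one] at h2
      linarith
  have hs0 : 0 < s := by linarith
  set σ : ℝ := 3 * ε / 4 with hσ
  have hσ0 : 0 < σ := by positivity
  have hσε : σ ≤ ε := by rw [hσ]; linarith
  have hσ1 : σ < 1 := by linarith
  obtain ⟨K, hK, hcl⟩ := hC T hT
  obtain ⟨K', hK', hdv⟩ := hD σ hσ0 hσ1
  obtain ⟨c, hc, hdob⟩ := hDob
  set ρ : ℝ := (2 : ℝ) ^ ε * s with hρ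
  have hρ0 : 0 < ρ := by positivity
  set lρ : ℝ := -Real.log ρ with hlρ
  have hlρ0 : 0 < lρ := by
    rw [hlρ]
    have := Real.log_neg hρ0 hsε
    linarith
  set l : ℝ := -Real.log s with hl
  have hl0 : 0 < l := by
    rw [hl]
    have := Real.log_neg hs0 hs1
    linarith
  have hl2 : l ≤ 1 := by
    have h2 : Real.log (1 / 2) ≤ Real.log s := Real.log_le_log (by norm_num) hs2
    rw [Real.log_div (by norm_num) (by norm_num), Real.log_one] at h2
    have := Real.log_two_lt_d9
    rw [hl]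
    linarith
  set B : ℝ := (K' + 2) / lρ with hBdef
  have hB0 : 0 < B := by positivity
  have hev := (eventually_cond (K := K) (B := B) (l := l) (c := c) hK hl0 hε hε1)
  obtain ⟨n1, hn1⟩ := (tendsto_natCast_atTop_atTop.eventually hev).exists_forall_of_atTop
  refine ⟨max n1 1, fun n hn H hH hHlog w h0 h1 hr hodd => ?_⟩
  obtain ⟨c1, c2, c3, c4, c5⟩ := hn1 n (le_of_max_le_left hn)
  have hn : 1 ≤ n := le_of_max_le_right hn
  set x : ℝ := (n : ℝ) with hx
  have hx0 : 0 < x := by linarith
  have hr' : ∀ j : Fin (n + 1), (j : ℕ) < n → ∀ x y, Even x → Odd y → w j x + w j y ≤ s :=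
    fun j hj x y hxe hyo => (hr j hj x y hxe hyo).trans hrs
  have hlogx : 0 ≤ Real.log x := Real.log_nonneg c1
  have hKx : ∀ d : ℕ, 1 ≤ d → d ≤ n → K * (1 + Real.log d) ≤ K * (1 + Real.log x) := by
    intro d hd hdn
    refine mul_le_mul_of_nonneg_left ?_ hK.le
    have h2 : Real.log d ≤ Real.log x := 
      Real.log_le_log (by exact_mod_cast hd) (by rw [hx]; exact_mod_cast hdn)
    linarith
  have hK1 : ∀ d : ℕ, 1 ≤ d → 0 ≤ K * (1 + Real.log d) := by
    intro d hd
    have : 0 ≤ Real.log d := Real.log_nonneg (by exact_mod_cast hd)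
    positivity
  -- powers
  have hxσ : 1 ≤ x ^ (1 - σ) := Real.one_le_rpow c1 (by linarith)
  have hu : x ^ (1 - ε) ≤ x ^ (1 - σ) := Real.rpow_le_rpow_of_exponent_le c1 (by linarith)
  have hR := all_degrees (H := H) (w := w) hR hT h0 hodd
  -- each degree
  have hdeg : ∀ d ∈ Icc 1 n, prob H w (fun a => ∃ g, Small T d g ∧ g ∣ poly a) ≤ 
      K * (1 + Real.log x) * (Real.exp (-(2 * x ^ (1 - σ))) + 
        Real.exp (2 * B * x ^ (1 - σ) - l * x ^ (1 - 5 * ε / 8))) := by
    intro d hd
    rw [mem_Icc] at hd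
    rcases le_or_gt (B * x ^ (1 - σ)) (d : ℝ) with hdB | hdB
    · -- large degree
      have h2 := large_degree h0 h1 hd.2 hr' hodd (hK1 d hd.1) (hcl d hd.1) 
        (fun F hF hFn S hS => hdv n hn F hF hFn d S hS) (by positivity)
      refine h2.trans ?_
      have h3 : (2 : ℝ) ^ (σ * d) * Real.exp (K' * x ^ (1 - σ)) * s ^ d ≤ 
          Real.exp (-(2 * x ^ (1 - σ))) := by
        have e1 : (2 : ℝ) ^ (σ * d) * s ^ d ≤ Real.exp (-(lρ * d)) := by
          have e2 : (2 : ℝ) ^ (σ * d) ≤ (2 : ℝ) ^ (ε * d) := by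
            apply Real.rpow_le_rpow_of_exponent_le (by norm_num)
            exact mul_le_mul_of_nonneg_right hσε (Nat.cast_nonneg d)
          have e3 : Real.exp (-(lρ * d)) = (2 : ℝ) ^ (ε * d) * s ^ d := by
            rw [hlρ]
            have e4 : -(-Real.log ρ * d) = Real.log ρ * d := by ring
            rw [e4, Real.exp_mul, Real.exp_log hρ0, Real.rpow_natCast, hρ, mul_pow, 
              Real.rpow_mul (by norm_num), Real.rpow_natCast]
          rw [e3]
          exact mul_le_mul_of_nonneg_right e2 (pow_nonneg hs0.le d)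
        have e5 : (K' + 2) * x ^ (1 - σ) ≤ lρ * d := by
          have e6 : lρ * (B * x ^ (1 - σ)) ≤ lρ * d := mul_le_mul_of_nonneg_left hdB hlρ0.le
          have e7 : lρ * (B * x ^ (1 - σ)) = (K' + 2) * x ^ (1 - σ) := by
            rw [hBdef]
            field_simp
          linarith
        calc (2 : ℝ) ^ (σ * d) * Real.exp (K' * x ^ (1 - σ)) * s ^ d 
            = ((2 : ℝ) ^ (σ * d) * s ^ d) * Real.exp (K' * x ^ (1 - σ)) := by ring
          _ ≤ Real.exp (-(lρ * d)) * Real.exp (K' * x ^ (1 - σ)) := 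
              mul_le_mul_of_nonneg_right e1 (Real.exp_pos _).le
          _ = Real.exp (-(lρ * d) + K' * x ^ (1 - σ)) := (Real.exp_add _ _).symm
          _ ≤ Real.exp (-(2 * x ^ (1 - σ))) := by
              apply Real.exp_le_exp.2
              linarith
      calc K * (1 + Real.log d) * ((2 : ℝ) ^ (σ * d) * Real.exp (K' * x ^ (1 - σ))) * s ^ d 
          = K * (1 + Real.log d) * 
              ((2 : ℝ) ^ (σ * d) * Real.exp (K' * x ^ (1 - σ)) * s ^ d) := by ring
        _ ≤ K * (1 + Real.log d) * Real.exp (-(2 * x ^ (1 - σ))) := 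
            mul_le_mul_of_nonneg_left h3 (hK1 d hd.1)
        _ ≤ K * (1 + Real.log x) * Real.exp (-(2 * x ^ (1 - σ))) := 
            mul_le_mul_of_nonneg_right (hKx d hd.1 hd.2) (Real.exp_pos _).le
        _ ≤ _ := by
            refine mul_le_mul_of_nonneg_left ?_ (by positivity)
            have := Real.exp_pos (2 * B * x ^ (1 - σ) - l * x ^ (1 - 5 * ε / 8))
            linarith
    · -- small degree
      have hd1 : (1 : ℝ) ≤ d := by exact_mod_cast hd.1
      have hdx : (d : ℝ) ≤ x := by rw [hx]; exact_mod_cast hd.2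
      set Λ : ℝ := Real.log 2 + Real.log H + 2 * Real.log x with hΛ
      have hH1 : (1 : ℝ) ≤ H := by exact_mod_cast hH
      have hlogH : 0 ≤ Real.log H := Real.log_nonneg hH1
      have hlog2 : 0 < Real.log 2 := Real.log_pos (by norm_num)
      have hΛ0 : 0 < Λ := by rw [hΛ]; linarith
      set L : ℝ := Real.log (2 * x) with hL
      have hL0 : 0 < L := Real.log_pos (by linarith)
      set lam : ℝ := c / L ^ 3 with hlam
      have hlam0 : 0 < lam := by positivity
      set q : ℕ := ⌊Λ / lam⌋₊ + 2 with hq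
      have hq1 : Λ / lam < (q : ℝ) - 1 := by
        have := Nat.lt_floor_add_one (Λ / lam)
        rw [hq]
        push_cast
        linarith
      have hq2 : (q : ℝ) ≤ Λ / lam + 2 := by
        have := Nat.floor_le (show 0 ≤ Λ / lam by positivity)
        rw [hq]
        push_cast
        linarith
      have hq0 : 2 ≤ q := by rw [hq]; omega
      have hM : ∀ g, Small T d g → lam ≤ Real.log (M g) := by
        intro g hg
        refine le_trans ?_ (hdob T d g hg)
        rw [hlam]
        have e1 : Real.log (2 * d) ≤ L := Real.log_le_log (by linarith) (by linarith)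
        have e2 : 0 < Real.log (2 * d) := Real.log_pos (by linarith)
        exact div_le_div_of_nonneg_left hc.le (by positivity) 
          (pow_le_pow_left₀ e2.le e1 3)
      have h2 := small_degree hB h0 h1 hH hn hd.1 hs0.le hs1.le hr' (hK1 d hd.1) (hcl d hd.1)
        (k := d * q) (by nlinarith) (by
          intro g hg
          have e1 : Real.log (2 * H * d * n) ≤ Λ := by
            have e2 : Real.log (2 * H * d * n) ≤ Real.log (2 * H * x * x) := by
              apply Real.log_le_log (by positivity)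
              rw [← hx]
              gcongr
            have e5 : Real.log (2 * H * x * x) = Λ := by
              have e6 : (2 * (H : ℝ)) ≠ 0 := by linarith
              rw [Real.log_mul (mul_ne_zero e6 hx0.ne') hx0.ne', Real.log_mul e6 hx0.ne', 
                Real.log_mul (by norm_num) (by linarith), hΛ]
              ring
            linarith
          have e3 := hM g hg
          rw [div_lt_iff₀ hlam0] at hq1
          push_cast
          have e4 : ((d : ℝ) * q - d) = d * (q - 1) := by ring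
          rw [e4, mul_assoc (d : ℝ)]
          refine mul_lt_mul_of_pos_left ?_ (by linarith)
          have hq3 : (0 : ℝ) ≤ (q : ℝ) - 1 := by
            have : (2 : ℝ) ≤ q := by exact_mod_cast hq0
            linarith
          calc Real.log (2 * H * d * n) ≤ Λ := e1
            _ < ((q : ℝ) - 1) * lam := hq1
            _ ≤ ((q : ℝ) - 1) * Real.log (M g) := mul_le_mul_of_nonneg_left e3 hq3)
      refine h2.trans ?_
      -- the bound for `q`
      have hqx : (q : ℝ) ≤ x ^ (5 * ε / 8) := by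
        refine hq2.trans ?_
        have e1 : Λ / lam = Λ * L ^ 3 / c := by
          rw [hlam]
          field_simp
        rw [e1]
        set y : ℝ := x ^ (ε / 32) with hy
        have hy2 : 2 ≤ y := by
          have : 0 < 2 / c := by positivity
          linarith
        have hpow : ∀ m : ℕ, x ^ ((m : ℝ) * ε / 32) = y ^ m := by
          intro m
          rw [hy, ← Real.rpow_natCast, ← Real.rpow_mul hx0.le]
          congr 1
          ring
        have e2 : x ^ (ε / 2) = y ^ 16 := by
          rw [← hpow 16]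
          congr 1
          push_cast
          ring
        have e3 : x ^ (5 * ε / 8) = y ^ 20 := by
          rw [← hpow 20]
          congr 1
          push_cast
          ring
        rw [e3]
        have hy0 : 0 < y := by linarith
        have e4 : Λ ≤ 2 * y ^ 16 := by
          have e5 : Λ ≤ y ^ 16 + 2 * L := by
            rw [← e2, hΛ, hL, Real.log_mul (by norm_num) hx0.ne']
            linarith
          have e6 : 2 * L ≤ y ^ 16 := by
            have e7 : y ^ 2 ≤ y ^ 16 := pow_le_pow_right₀ (by linarith) (by norm_num)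
            nlinarith
          linarith
        have e8 : L ^ 3 ≤ y ^ 3 := pow_le_pow_left₀ hL0.le c4 3
        have e9 : Λ * L ^ 3 ≤ 2 * y ^ 16 * y ^ 3 := 
          mul_le_mul e4 e8 (by positivity) (by positivity)
        have e10 : Λ * L ^ 3 / c ≤ 2 / c * y ^ 19 := by
          calc Λ * L ^ 3 / c ≤ (2 * y ^ 16 * y ^ 3) / c := by gcongr
            _ = 2 / c * y ^ 19 := by ring
        have e11 : 1 ≤ y ^ 19 := one_le_pow₀ (by linarith)
        calc Λ * L ^ 3 / c + 2 ≤ 2 / c * y ^ 19 + 2 * y ^ 19 := by linarith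
          _ = (2 / c + 2) * y ^ 19 := by ring
          _ ≤ y * y ^ 19 := by gcongr
          _ = y ^ 20 := by ring
      have hq00 : (0 : ℝ) < q := by
        have : (2 : ℝ) ≤ q := by exact_mod_cast hq0
        linarith
      -- the exponent
      have hexp : x ^ (1 - 5 * ε / 8) - d ≤ ((d * (n / (d * q)) : ℕ) : ℝ) := by
        have e1 : x / (d * q) - 1 ≤ ((n / (d * q) : ℕ) : ℝ) := by
          have e2 := Nat.lt_div_mul_add (a := n) (b := d * q) (Nat.mul_pos (by omega) (by omega))
          have e3 : x < ((n / (d * q) : ℕ) : ℝ) * (d * q) + d * q := by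
            rw [hx]
            exact_mod_cast e2
          have e4 : (0 : ℝ) < d * q := by positivity
          rw [sub_le_iff_le_add, div_le_iff₀ e4]
          nlinarith
        have e5 : x ^ (1 - 5 * ε / 8) ≤ x / q := by
          rw [le_div_iff₀ hq00]
          calc x ^ (1 - 5 * ε / 8) * q ≤ x ^ (1 - 5 * ε / 8) * x ^ (5 * ε / 8) := 
                mul_le_mul_of_nonneg_left hqx (by positivity)
            _ = x := by
                rw [← Real.rpow_add hx0]
                rw [show 1 - 5 * ε / 8 + 5 * ε / 8 = 1 by ring, Real.rpow_one]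
        push_cast
        have e6 : (d : ℝ) * (x / (d * q) - 1) ≤ d * ((n / (d * q) : ℕ) : ℝ) := 
          mul_le_mul_of_nonneg_left e1 (by linarith)
        have e7 : (d : ℝ) * (x / (d * q) - 1) = x / q - d := by
          field_simp
        linarith
      have h3 : (2 : ℝ) ^ d * s ^ (d * (n / (d * q))) ≤ 
          Real.exp (2 * B * x ^ (1 - σ) - l * x ^ (1 - 5 * ε / 8)) := by
        have e1 : s ^ (d * (n / (d * q))) = 
            Real.exp (-(l * ((d * (n / (d * q)) : ℕ) : ℝ))) := by
          rw [hl]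
          have e4 : -(-Real.log s * ((d * (n / (d * q)) : ℕ) : ℝ)) = 
              Real.log s * ((d * (n / (d * q)) : ℕ) : ℝ) := by ring
          rw [e4, Real.exp_mul, Real.exp_log hs0, Real.rpow_natCast]
        have e2 : (2 : ℝ) ^ d ≤ Real.exp d := by
          have e5 : (2 : ℝ) ≤ Real.exp 1 := by
            have := Real.add_one_le_exp (1 : ℝ)
            linarith
          calc (2 : ℝ) ^ d ≤ (Real.exp 1) ^ d := pow_le_pow_left₀ (by norm_num) e5 d
            _ = Real.exp d := by rw [← Real.exp_nat_mul, mul_one]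
        rw [e1]
        calc (2 : ℝ) ^ d * Real.exp (-(l * ((d * (n / (d * q)) : ℕ) : ℝ))) 
            ≤ Real.exp d * Real.exp (-(l * ((d * (n / (d * q)) : ℕ) : ℝ))) := by gcongr
          _ = Real.exp (d + -(l * ((d * (n / (d * q)) : ℕ) : ℝ))) := (Real.exp_add _ _).symm
          _ ≤ _ := by
              apply Real.exp_le_exp.2
              have e6 : l * (x ^ (1 - 5 * ε / 8) - d) ≤ l * ((d * (n / (d * q)) : ℕ) : ℝ) :=
                mul_le_mul_of_nonneg_left hexp hl0.le
              have e7 : l * d ≤ 1 * d := mul_le_mul_of_nonneg_right hl2 (by linarith)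
              nlinarith
      calc (2 : ℝ) ^ d * (K * (1 + Real.log d)) * s ^ (d * (n / (d * q))) 
          = K * (1 + Real.log d) * ((2 : ℝ) ^ d * s ^ (d * (n / (d * q)))) := by ring
        _ ≤ K * (1 + Real.log d) * 
              Real.exp (2 * B * x ^ (1 - σ) - l * x ^ (1 - 5 * ε / 8)) := 
            mul_le_mul_of_nonneg_left h3 (hK1 d hd.1)
        _ ≤ K * (1 + Real.log x) * 
              Real.exp (2 * B * x ^ (1 - σ) - l * x ^ (1 - 5 * ε / 8)) := 
            mul_le_mul_of_nonneg_right (hKx d hd.1 hd.2) (Real.exp_pos _).le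
        _ ≤ _ := by
            refine mul_le_mul_of_nonneg_left ?_ (by positivity)
            have := Real.exp_pos (-(2 * x ^ (1 - σ)))
            linarith
  -- the sum
  have hsum : ∑ d ∈ Icc 1 n, prob H w (fun a => ∃ g, Small T d g ∧ g ∣ poly a) ≤ 
      x * (K * (1 + Real.log x) * (Real.exp (-(2 * x ^ (1 - σ))) + 
        Real.exp (2 * B * x ^ (1 - σ) - l * x ^ (1 - 5 * ε / 8)))) := by
    refine (sum_le_sum hdeg).trans ?_
    rw [sum_const, nsmul_eq_mul, Nat.card_Icc]
    simp only [Nat.add_sub_cancel]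
    exact le_rfl
  refine (hR.trans hsum).trans ?_
  set u : ℝ := x ^ (1 - ε) with hudef
  have f1 : Real.exp (-(2 * x ^ (1 - σ))) ≤ Real.exp (-u) * Real.exp (-u) := by
    rw [← Real.exp_add]
    apply Real.exp_le_exp.2
    linarith
  have f2 : Real.exp (2 * B * x ^ (1 - σ) - l * x ^ (1 - 5 * ε / 8)) ≤ 
      Real.exp (-u) * Real.exp (-u) := by
    rw [← Real.exp_add]
    apply Real.exp_le_exp.2
    have e1 : x ^ (1 - 5 * ε / 8) = x ^ (1 - σ) * x ^ (ε / 8) := by
      rw [← Real.rpow_add hx0]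
      congr 1
      rw [hσ]
      ring
    have e2 : x ^ (1 - σ) * (2 * B + 4) ≤ x ^ (1 - σ) * (l * x ^ (ε / 8)) := 
      mul_le_mul_of_nonneg_left c3 (by linarith)
    rw [e1]
    nlinarith
  have hpos : 0 ≤ x * (K * (1 + Real.log x)) := by positivity
  calc x * (K * (1 + Real.log x) * (Real.exp (-(2 * x ^ (1 - σ))) + 
        Real.exp (2 * B * x ^ (1 - σ) - l * x ^ (1 - 5 * ε / 8)))) 
      ≤ x * (K * (1 + Real.log x)) * (2 * (Real.exp (-u) * Real.exp (-u))) := by
        rw [← mul_assoc]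
        refine mul_le_mul_of_nonneg_left ?_ hpos
        linarith
    _ = (2 * (K * (1 + Real.log x)) * x) * (Real.exp (-u) * Real.exp (-u)) := by ring
    _ ≤ Real.exp u * (Real.exp (-u) * Real.exp (-u)) := 
        mul_le_mul_of_nonneg_right c2 (by positivity)
    _ = Real.exp (-u) := by
        rw [← mul_assoc, ← Real.exp_add]
        simp

end Pool.Agent.K4H76.RP
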