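import Mathlib
import Pool.Agent.K4H76.RP.Main
import Pool.Agent.K4H76.RP.Count2

/-!
# The main estimate for arbitrary distributions
-/

set_option autoImplicit false

open Polynomial Finset Filter

namespace Pool.Agent.K4H76.RP

theorem main2 (hC : S_CLASS) (hD : S_DIV) (hB : S_BLOCK) (hDob : S_DOB) (hR : S_RED) 
    (hpair : S_PAIR) (hrecip : S_RECIP)
    (T : ℝ) (hT : T < √2) (hT' : T < (1 + √17) / 4) 
    (s : ℝ) (hs2 : 1 / 2 ≤ s) (hs1 : s < 1) (ε : ℝ) (hε : 0 < ε) (hε1 : ε < 1)
    (hsε : (2 : ℝ) ^ ε * √s < 1) : ∃ n0 : ℕ, 1 ≤ n0 ∧ ∀ n : ℕ, n0 ≤ n → ∀ H : ℕ, 1 ≤ H → 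
      Real.log H ≤ (n : ℝ) ^ (ε / 2) → ∀ (h : ℤ[X]) (D : ℤ), h.natDegree ≤ n → D ≠ 0 → 
      ∀ Q : (Fin (n + 1) → ℤ) → ℤ[X], Aux h D Q →
      ∀ w : Fin (n + 1) → ℤ → ℝ, (∀ j x, 0 ≤ w j x) → 
      (∀ j, ∑ x ∈ Icc (-(H : ℤ)) H, w j x = 1) → Par H w s → 
      prob H w (fun a => red (Q a) = 0) ≤ s ^ ((n - 1) / 2) →
      prob H w (fun a => ∃ g, g ∣ h + C D * poly a ∧ 1 < M g ∧ M g ≤ T) ≤ 
        Real.exp (-(n : ℝ) ^ (1 - ε)) := by
  classical
  have hs0 : 0 < s := by linarith
  set t : ℝ := √s with ht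
  have ht0 : 0 < t := Real.sqrt_pos.2 hs0
  have htt : t * t = s := Real.mul_self_sqrt hs0.le
  have ht1 : t < 1 := by nlinarith
  have htpow : ∀ m d : ℕ, d ≤ 2 * m + 2 → s ^ m ≤ 2 * t ^ d := by
    intro m d hmd
    have e1 : t ^ (2 * m + 2) ≤ t ^ d := pow_le_pow_of_le_one ht0.le ht1.le hmd
    have e2 : t ^ (2 * m + 2) = s ^ m * s := by
      rw [← htt]
      ring
    have e3 : 0 < s ^ m := pow_pos hs0 m
    nlinarith
  set σ : ℝ := 3 * ε / 4 with hσ
  have hσ0 : 0 < σ := by positivity
  have hσε : σ ≤ ε := by rw [hσ]; linarith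
  have hσ1 : σ < 1 := by linarith
  obtain ⟨K0, hK00, hcl0⟩ := hC T hT
  obtain ⟨K, hK, hK1', hcl⟩ : ∃ K : ℝ, 0 < K ∧ 1 ≤ K ∧ ∀ d : ℕ, 1 ≤ d →
      ∀ (c : (ZMod 2)[X]) (S : Finset ℤ[X]), (∀ g ∈ S, Small T d g ∧ red g = c) →
      (S.card : ℝ) ≤ K * (1 + Real.log d) := by
    refine ⟨max K0 1, lt_of_lt_of_le one_pos (le_max_right _ _), le_max_right _ _, ?_⟩
    intro d hd c S hS
    refine (hcl0 d hd c S hS).trans ?_
    have : 0 ≤ Real.log d := Real.log_nonneg (by exact_mod_cast hd)
    exact mul_le_mul_of_nonneg_right (le_max_left _ _) (by linarith)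
  obtain ⟨K', hK', hdv⟩ := hD σ hσ0 hσ1
  obtain ⟨c, hc, hdob⟩ := hDob
  set ρ : ℝ := (2 : ℝ) ^ ε * t with hρ
  have hρ0 : 0 < ρ := by positivity
  set lρ : ℝ := -Real.log ρ with hlρ
  have hlρ0 : 0 < lρ := by
    rw [hlρ]
    have := Real.log_neg hρ0 hsε
    linarith
  set l : ℝ := -Real.log s with hl
  have hl0 : 0 < l := by
    rw [hl]
    have := Real.log_neg hs0 hs1
    linarith
  have hl2 : l ≤ 1 := by
    have h2 : Real.log (1 / 2) ≤ Real.log s := Real.log_le_log (by norm_num) hs2
    rw [Real.log_div (by norm_num) (by norm_num), Real.log_one] at h2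
    have := Real.log_two_lt_d9
    rw [hl]
    linarith
  set B : ℝ := (K' + 2) / lρ with hBdef
  have hB0 : 0 < B := by positivity
  have hev := (eventually_cond (K := 4 * K) (B := B) (l := l) (c := c) (by positivity) hl0 hε hε1)
  obtain ⟨n1, hn1⟩ := (tendsto_natCast_atTop_atTop.eventually hev).exists_forall_of_atTop
  refine ⟨max n1 1, le_max_right _ _, fun n hn H hH hHlog h D hhn hD0 Q hQ w h0 h1 hpar hz => ?_⟩
  obtain ⟨c1, c2, c3, c4, c5⟩ := hn1 n (le_of_max_le_left hn)
  have hn : 1 ≤ n := le_of_max_le_right hn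
  set x : ℝ := (n : ℝ) with hx
  have hx0 : 0 < x := by linarith
  have hlogx : 0 ≤ Real.log x := Real.log_nonneg c1
  have hKx : ∀ d : ℕ, 1 ≤ d → d ≤ n → K * (1 + Real.log d) ≤ K * (1 + Real.log x) := by
    intro d hd hdn
    refine mul_le_mul_of_nonneg_left ?_ hK.le
    have h2 : Real.log d ≤ Real.log x := 
      Real.log_le_log (by exact_mod_cast hd) (by rw [hx]; exact_mod_cast hdn)
    linarith
  have hK1 : ∀ d : ℕ, 1 ≤ d → 0 ≤ K * (1 + Real.log d) := by
    intro d hd
    have : 0 ≤ Real.log d := Real.log_nonneg (by exact_mod_cast hd)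
    positivity
  -- powers
  have hxσ : 1 ≤ x ^ (1 - σ) := Real.one_le_rpow c1 (by linarith)
  have hu : x ^ (1 - ε) ≤ x ^ (1 - σ) := Real.rpow_le_rpow_of_exponent_le c1 (by linarith)
  have hR := all_degrees2 (H := H) (w := w) hR hT h0 hhn hQ
  -- each degree
  have hdeg : ∀ d ∈ Icc 1 n, prob H w (fun a => (∃ g, Small T d g ∧ g ∣ h + C D * poly a) ∧ 
        red (Q a) ≠ 0) ≤ 
      2 * (K * (1 + Real.log x)) * (Real.exp (-(2 * x ^ (1 - σ))) + 
        Real.exp (2 * B * x ^ (1 - σ) - l * x ^ (1 - 5 * ε / 8))) := by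
    intro d hd
    rw [mem_Icc] at hd
    rcases le_or_gt (B * x ^ (1 - σ)) (d : ℝ) with hdB | hdB
    · -- large degree
      have h2 := large_degree2 hpair h0 h1 hs0.le hs1.le hpar (fun g hg => 
        hrecip T hT' d g hg) hd.1 hd.2 (hK1 d hd.1) (hcl d hd.1) 
        (fun F hF hFn S hS => hdv n hn F hF hFn d S hS) (by positivity) hD0 hQ
      refine h2.trans ?_
      have h3 : (2 : ℝ) ^ (σ * d) * Real.exp (K' * x ^ (1 - σ)) * s ^ ((d - 1) / 2) ≤ 
          2 * Real.exp (-(2 * x ^ (1 - σ))) := by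
        have e0 := htpow ((d - 1) / 2) d (by omega)
        have e1 : (2 : ℝ) ^ (σ * d) * t ^ d ≤ Real.exp (-(lρ * d)) := by
          have e2 : (2 : ℝ) ^ (σ * d) ≤ (2 : ℝ) ^ (ε * d) := by
            apply Real.rpow_le_rpow_of_exponent_le (by norm_num)
            exact mul_le_mul_of_nonneg_right hσε (Nat.cast_nonneg d)
          have e3 : Real.exp (-(lρ * d)) = (2 : ℝ) ^ (ε * d) * t ^ d := by
            rw [hlρ]
            have e4 : -(-Real.log ρ * d) = Real.log ρ * d := by ring
            rw [e4, Real.exp_mul, Real.exp_log hρ0, Real.rpow_natCast, hρ, mul_pow, 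
              Real.rpow_mul (by norm_num), Real.rpow_natCast]
          rw [e3]
          exact mul_le_mul_of_nonneg_right e2 (pow_nonneg ht0.le d)
        have e5 : (K' + 2) * x ^ (1 - σ) ≤ lρ * d := by
          have e6 : lρ * (B * x ^ (1 - σ)) ≤ lρ * d := mul_le_mul_of_nonneg_left hdB hlρ0.le
          have e7 : lρ * (B * x ^ (1 - σ)) = (K' + 2) * x ^ (1 - σ) := by
            rw [hBdef]
            field_simp
          linarith
        calc (2 : ℝ) ^ (σ * d) * Real.exp (K' * x ^ (1 - σ)) * s ^ ((d - 1) / 2) 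
            ≤ (2 : ℝ) ^ (σ * d) * Real.exp (K' * x ^ (1 - σ)) * (2 * t ^ d) := 
              mul_le_mul_of_nonneg_left e0 (by positivity)
          _ = 2 * (((2 : ℝ) ^ (σ * d) * t ^ d) * Real.exp (K' * x ^ (1 - σ))) := by ring
          _ ≤ 2 * (Real.exp (-(lρ * d)) * Real.exp (K' * x ^ (1 - σ))) := by gcongr
          _ = 2 * Real.exp (-(lρ * d) + K' * x ^ (1 - σ)) := by rw [Real.exp_add]
          _ ≤ 2 * Real.exp (-(2 * x ^ (1 - σ))) := by
              have : Real.exp (-(lρ * d) + K' * x ^ (1 - σ)) ≤ Real.exp (-(2 * x ^ (1 - σ))) := by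
                apply Real.exp_le_exp.2
                linarith
              linarith
      calc K * (1 + Real.log d) * ((2 : ℝ) ^ (σ * d) * Real.exp (K' * x ^ (1 - σ))) * 
            s ^ ((d - 1) / 2) 
          = K * (1 + Real.log d) * 
              ((2 : ℝ) ^ (σ * d) * Real.exp (K' * x ^ (1 - σ)) * s ^ ((d - 1) / 2)) := by ring
        _ ≤ K * (1 + Real.log d) * (2 * Real.exp (-(2 * x ^ (1 - σ)))) := 
            mul_le_mul_of_nonneg_left h3 (hK1 d hd.1)
        _ ≤ K * (1 + Real.log x) * (2 * Real.exp (-(2 * x ^ (1 - σ)))) := 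
            mul_le_mul_of_nonneg_right (hKx d hd.1 hd.2) (by positivity)
        _ = 2 * (K * (1 + Real.log x)) * Real.exp (-(2 * x ^ (1 - σ))) := by ring
        _ ≤ _ := by
            refine mul_le_mul_of_nonneg_left ?_ (by positivity)
            have := Real.exp_pos (2 * B * x ^ (1 - σ) - l * x ^ (1 - 5 * ε / 8))
            linarith
    · -- small degree
      have hd1 : (1 : ℝ) ≤ d := by exact_mod_cast hd.1
      have hdx : (d : ℝ) ≤ x := by rw [hx]; exact_mod_cast hd.2
      set Λ : ℝ := Real.log 2 + Real.log H + 2 * Real.log x with hΛ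
      have hH1 : (1 : ℝ) ≤ H := by exact_mod_cast hH
      have hlogH : 0 ≤ Real.log H := Real.log_nonneg hH1
      have hlog2 : 0 < Real.log 2 := Real.log_pos (by norm_num)
      have hΛ0 : 0 < Λ := by rw [hΛ]; linarith
      set L : ℝ := Real.log (2 * x) with hL
      have hL0 : 0 < L := Real.log_pos (by linarith)
      set lam : ℝ := c / L ^ 3 with hlam
      have hlam0 : 0 < lam := by positivity
      set q : ℕ := ⌊Λ / lam⌋₊ + 2 with hq
      have hq1 : Λ / lam < (q : ℝ) - 1 := by
        have := Nat.lt_floor_add_one (Λ / lam)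
        rw [hq]
        push_cast
        linarith
      have hq2 : (q : ℝ) ≤ Λ / lam + 2 := by
        have := Nat.floor_le (show 0 ≤ Λ / lam by positivity)
        rw [hq]
        push_cast
        linarith
      have hq0 : 2 ≤ q := by rw [hq]; omega
      have hM : ∀ g, Small T d g → lam ≤ Real.log (M g) := by
        intro g hg
        refine le_trans ?_ (hdob T d g hg)
        rw [hlam]
        have e1 : Real.log (2 * d) ≤ L := Real.log_le_log (by linarith) (by linarith)
        have e2 : 0 < Real.log (2 * d) := Real.log_pos (by linarith)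
        exact div_le_div_of_nonneg_left hc.le (by positivity) 
          (pow_le_pow_left₀ e2.le e1 3)
      have h2 := small_degree2 hB h0 h1 hH hn hd.1 hs0.le hs1.le hpar (hK1 d hd.1) (hcl d hd.1)
        (k := d * q) (by nlinarith) (h := h) (hD0 := hD0) (hlog := by
          intro g hg
          have e1 : Real.log (2 * H * d * n) ≤ Λ := by
            have e2 : Real.log (2 * H * d * n) ≤ Real.log (2 * H * x * x) := by
              apply Real.log_le_log (by positivity)
              rw [← hx]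
              gcongr
            have e5 : Real.log (2 * H * x * x) = Λ := by
              have e6 : (2 * (H : ℝ)) ≠ 0 := by linarith
              rw [Real.log_mul (mul_ne_zero e6 hx0.ne') hx0.ne', Real.log_mul e6 hx0.ne', 
                Real.log_mul (by norm_num) (by linarith), hΛ]
              ring
            linarith
          have e3 := hM g hg
          rw [div_lt_iff₀ hlam0] at hq1
          push_cast
          have e4 : ((d : ℝ) * q - d) = d * (q - 1) := by ring
          rw [e4, mul_assoc (d : ℝ)]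
          refine mul_lt_mul_of_pos_left ?_ (by linarith)
          have hq3 : (0 : ℝ) ≤ (q : ℝ) - 1 := by
            have : (2 : ℝ) ≤ q := by exact_mod_cast hq0
            linarith
          calc Real.log (2 * H * d * n) ≤ Λ := e1
            _ < ((q : ℝ) - 1) * lam := hq1
            _ ≤ ((q : ℝ) - 1) * Real.log (M g) := mul_le_mul_of_nonneg_left e3 hq3)
      have h2m : prob H w (fun a => (∃ g, Small T d g ∧ g ∣ h + C D * poly a) ∧ 
          red (Q a) ≠ 0) ≤ 
          prob H w (fun a => ∃ g, Small T d g ∧ g ∣ h + C D * poly a) := 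
        prob_mono h0 fun a _ _ h3 => h3.1
      refine (h2m.trans h2).trans ?_
      -- the bound for `q`
      have hqx : (q : ℝ) ≤ x ^ (5 * ε / 8) := by
        refine hq2.trans ?_
        have e1 : Λ / lam = Λ * L ^ 3 / c := by
          rw [hlam]
          field_simp
        rw [e1]
        set y : ℝ := x ^ (ε / 32) with hy
        have hy2 : 2 ≤ y := by
          have : 0 < 2 / c := by positivity
          linarith
        have hpow : ∀ m : ℕ, x ^ ((m : ℝ) * ε / 32) = y ^ m := by
          intro m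
          rw [hy, ← Real.rpow_natCast, ← Real.rpow_mul hx0.le]
          congr 1
          ring
        have e2 : x ^ (ε / 2) = y ^ 16 := by
          rw [← hpow 16]
          congr 1
          push_cast
          ring
        have e3 : x ^ (5 * ε / 8) = y ^ 20 := by
          rw [← hpow 20]
          congr 1
          push_cast
          ring
        rw [e3]
        have hy0 : 0 < y := by linarith
        have e4 : Λ ≤ 2 * y ^ 16 := by
          have e5 : Λ ≤ y ^ 16 + 2 * L := by
            rw [← e2, hΛ, hL, Real.log_mul (by norm_num) hx0.ne']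
            linarith
          have e6 : 2 * L ≤ y ^ 16 := by
            have e7 : y ^ 2 ≤ y ^ 16 := pow_le_pow_right₀ (by linarith) (by norm_num)
            nlinarith
          linarith
        have e8 : L ^ 3 ≤ y ^ 3 := pow_le_pow_left₀ hL0.le c4 3
        have e9 : Λ * L ^ 3 ≤ 2 * y ^ 16 * y ^ 3 := 
          mul_le_mul e4 e8 (by positivity) (by positivity)
        have e10 : Λ * L ^ 3 / c ≤ 2 / c * y ^ 19 := by
          calc Λ * L ^ 3 / c ≤ (2 * y ^ 16 * y ^ 3) / c := by gcongr
            _ = 2 / c * y ^ 19 := by ring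
        have e11 : 1 ≤ y ^ 19 := one_le_pow₀ (by linarith)
        calc Λ * L ^ 3 / c + 2 ≤ 2 / c * y ^ 19 + 2 * y ^ 19 := by linarith
          _ = (2 / c + 2) * y ^ 19 := by ring
          _ ≤ y * y ^ 19 := by gcongr
          _ = y ^ 20 := by ring
      have hq00 : (0 : ℝ) < q := by
        have : (2 : ℝ) ≤ q := by exact_mod_cast hq0
        linarith
      -- the exponent
      have hexp : x ^ (1 - 5 * ε / 8) - d ≤ ((d * (n / (d * q)) : ℕ) : ℝ) := by
        have e1 : x / (d * q) - 1 ≤ ((n / (d * q) : ℕ) : ℝ) := by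
          have e2 := Nat.lt_div_mul_add (a := n) (b := d * q) (Nat.mul_pos (by omega) (by omega))
          have e3 : x < ((n / (d * q) : ℕ) : ℝ) * (d * q) + d * q := by
            rw [hx]
            exact_mod_cast e2
          have e4 : (0 : ℝ) < d * q := by positivity
          rw [sub_le_iff_le_add, div_le_iff₀ e4]
          nlinarith
        have e5 : x ^ (1 - 5 * ε / 8) ≤ x / q := by
          rw [le_div_iff₀ hq00]
          calc x ^ (1 - 5 * ε / 8) * q ≤ x ^ (1 - 5 * ε / 8) * x ^ (5 * ε / 8) := 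
                mul_le_mul_of_nonneg_left hqx (by positivity)
            _ = x := by
                rw [← Real.rpow_add hx0]
                rw [show 1 - 5 * ε / 8 + 5 * ε / 8 = 1 by ring, Real.rpow_one]
        push_cast
        have e6 : (d : ℝ) * (x / (d * q) - 1) ≤ d * ((n / (d * q) : ℕ) : ℝ) := 
          mul_le_mul_of_nonneg_left e1 (by linarith)
        have e7 : (d : ℝ) * (x / (d * q) - 1) = x / q - d := by
          field_simp
        linarith
      have h3 : (2 : ℝ) ^ d * s ^ (d * (n / (d * q))) ≤ 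
          Real.exp (2 * B * x ^ (1 - σ) - l * x ^ (1 - 5 * ε / 8)) := by
        have e1 : s ^ (d * (n / (d * q))) = 
            Real.exp (-(l * ((d * (n / (d * q)) : ℕ) : ℝ))) := by
          rw [hl]
          have e4 : -(-Real.log s * ((d * (n / (d * q)) : ℕ) : ℝ)) = 
              Real.log s * ((d * (n / (d * q)) : ℕ) : ℝ) := by ring
          rw [e4, Real.exp_mul, Real.exp_log hs0, Real.rpow_natCast]
        have e2 : (2 : ℝ) ^ d ≤ Real.exp d := by
          have e5 : (2 : ℝ) ≤ Real.exp 1 := by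
            have := Real.add_one_le_exp (1 : ℝ)
            linarith
          calc (2 : ℝ) ^ d ≤ (Real.exp 1) ^ d := pow_le_pow_left₀ (by norm_num) e5 d
            _ = Real.exp d := by rw [← Real.exp_nat_mul, mul_one]
        rw [e1]
        calc (2 : ℝ) ^ d * Real.exp (-(l * ((d * (n / (d * q)) : ℕ) : ℝ))) 
            ≤ Real.exp d * Real.exp (-(l * ((d * (n / (d * q)) : ℕ) : ℝ))) := by gcongr
          _ = Real.exp (d + -(l * ((d * (n / (d * q)) : ℕ) : ℝ))) := (Real.exp_add _ _).symm
          _ ≤ _ := by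
              apply Real.exp_le_exp.2
              have e6 : l * (x ^ (1 - 5 * ε / 8) - d) ≤ l * ((d * (n / (d * q)) : ℕ) : ℝ) :=
                mul_le_mul_of_nonneg_left hexp hl0.le
              have e7 : l * d ≤ 1 * d := mul_le_mul_of_nonneg_right hl2 (by linarith)
              nlinarith
      have h4 : s ^ (d * (n / (d * q)) - 1) ≤ 2 * s ^ (d * (n / (d * q))) := by
        rcases Nat.eq_zero_or_pos (d * (n / (d * q))) with hm | hm
        · rw [hm]
          norm_num
        · have e1 : s ^ (d * (n / (d * q))) = s ^ (d * (n / (d * q)) - 1) * s := by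
            rw [← pow_succ]
            congr 1
            omega
          rw [e1]
          have := pow_pos hs0 (d * (n / (d * q)) - 1)
          nlinarith
      calc (2 : ℝ) ^ d * (K * (1 + Real.log d)) * s ^ (d * (n / (d * q)) - 1) 
          ≤ (2 : ℝ) ^ d * (K * (1 + Real.log d)) * (2 * s ^ (d * (n / (d * q)))) := 
            mul_le_mul_of_nonneg_left h4 (mul_nonneg (by positivity) (hK1 d hd.1))
        _ = 2 * (K * (1 + Real.log d)) * ((2 : ℝ) ^ d * s ^ (d * (n / (d * q)))) := by ring
        _ ≤ 2 * (K * (1 + Real.log d)) * 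
              Real.exp (2 * B * x ^ (1 - σ) - l * x ^ (1 - 5 * ε / 8)) := 
            mul_le_mul_of_nonneg_left h3 (mul_nonneg (by norm_num) (hK1 d hd.1))
        _ ≤ 2 * (K * (1 + Real.log x)) * 
              Real.exp (2 * B * x ^ (1 - σ) - l * x ^ (1 - 5 * ε / 8)) := by
            have := hKx d hd.1 hd.2
            gcongr
        _ ≤ _ := by
            refine mul_le_mul_of_nonneg_left ?_ (by positivity)
            have := Real.exp_pos (-(2 * x ^ (1 - σ)))
            linarith
  -- the sum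
  have hsum : ∑ d ∈ Icc 1 n, prob H w (fun a => (∃ g, Small T d g ∧ g ∣ h + C D * poly a) ∧ 
        red (Q a) ≠ 0) ≤ 
      x * (2 * (K * (1 + Real.log x)) * (Real.exp (-(2 * x ^ (1 - σ))) + 
        Real.exp (2 * B * x ^ (1 - σ) - l * x ^ (1 - 5 * ε / 8)))) := by
    refine (sum_le_sum hdeg).trans ?_
    rw [sum_const, nsmul_eq_mul, Nat.card_Icc]
    simp only [Nat.add_sub_cancel]
    exact le_rfl
  have hz2 := htpow ((n - 1) / 2) n (by omega)
  refine hR.trans ((add_le_add (hz.trans hz2) hsum).trans ?_)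
  set u : ℝ := x ^ (1 - ε) with hudef
  have hu0 : 0 < Real.exp u := Real.exp_pos u
  have f1 : Real.exp (-(2 * x ^ (1 - σ))) ≤ Real.exp (-u) * Real.exp (-u) := by
    rw [← Real.exp_add]
    apply Real.exp_le_exp.2
    linarith
  have f2 : Real.exp (2 * B * x ^ (1 - σ) - l * x ^ (1 - 5 * ε / 8)) ≤ 
      Real.exp (-u) * Real.exp (-u) := by
    rw [← Real.exp_add]
    apply Real.exp_le_exp.2
    have e1 : x ^ (1 - 5 * ε / 8) = x ^ (1 - σ) * x ^ (ε / 8) := by
      rw [← Real.rpow_add hx0]
      congr 1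
      rw [hσ]
      ring
    have e2 : x ^ (1 - σ) * (2 * B + 4) ≤ x ^ (1 - σ) * (l * x ^ (ε / 8)) := 
      mul_le_mul_of_nonneg_left c3 (by linarith)
    rw [e1]
    nlinarith
  have f3 : t ^ n ≤ Real.exp (-u) * Real.exp (-u) := by
    have e1 : t ^ n = Real.exp (-(l / 2 * x)) := by
      have e2 : Real.log t = Real.log s / 2 := by
        rw [ht, Real.log_sqrt hs0.le]
      have e3 : -(l / 2 * x) = Real.log t * n := by
        rw [e2, hl, hx]
        ring
      rw [e3, Real.exp_mul, Real.exp_log ht0, Real.rpow_natCast]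
    rw [e1, ← Real.exp_add]
    apply Real.exp_le_exp.2
    have e4 : x ^ (1 - σ) * x ^ (ε / 8) ≤ x := by
      rw [← Real.rpow_add hx0]
      calc x ^ (1 - σ + ε / 8) ≤ x ^ (1 : ℝ) := by
            apply Real.rpow_le_rpow_of_exponent_le c1
            rw [hσ]
            linarith
        _ = x := Real.rpow_one x
    have e5 : x ^ (1 - σ) * (2 * B + 4) ≤ x ^ (1 - σ) * (l * x ^ (ε / 8)) := 
      mul_le_mul_of_nonneg_left c3 (by linarith)
    have e6 : l * (x ^ (1 - σ) * x ^ (ε / 8)) ≤ l * x := mul_le_mul_of_nonneg_left e4 hl0.le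
    nlinarith
  have hpos : 0 ≤ x * (2 * (K * (1 + Real.log x))) := by positivity
  have g1 : (4 : ℝ) ≤ Real.exp u := by
    refine le_trans ?_ c2
    have e1 : (1 : ℝ) ≤ 1 + Real.log x := by linarith
    have e2 : (4 : ℝ) ≤ 4 * K * (1 + Real.log x) := by nlinarith
    nlinarith
  have g2 : x * (2 * (K * (1 + Real.log x))) ≤ Real.exp u / 4 := by
    have e1 : x * (2 * (K * (1 + Real.log x))) = 2 * (4 * K * (1 + Real.log x)) * x / 4 := by ring
    rw [e1]
    linarith
  have g3 : Real.exp u * (Real.exp (-u) * Real.exp (-u)) = Real.exp (-u) := by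
    rw [← mul_assoc, ← Real.exp_add]
    simp
  have g4 : 0 ≤ Real.exp (-u) * Real.exp (-u) := by positivity
  have g5 : 4 * (Real.exp (-u) * Real.exp (-u)) ≤ Real.exp (-u) := by
    rw [← g3]
    rw [g3]
    calc 4 * (Real.exp (-u) * Real.exp (-u)) ≤ Real.exp u * (Real.exp (-u) * Real.exp (-u)) := 
          mul_le_mul_of_nonneg_right g1 g4
      _ = Real.exp (-u) := g3
  calc 2 * t ^ n + x * (2 * (K * (1 + Real.log x)) * (Real.exp (-(2 * x ^ (1 - σ))) + 
        Real.exp (2 * B * x ^ (1 - σ) - l * x ^ (1 - 5 * ε / 8)))) 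
      ≤ 2 * (Real.exp (-u) * Real.exp (-u)) + 
        x * (2 * (K * (1 + Real.log x))) * (2 * (Real.exp (-u) * Real.exp (-u))) := by
        rw [← mul_assoc x]
        refine add_le_add (by linarith) (mul_le_mul_of_nonneg_left ?_ hpos)
        linarith
    _ ≤ 2 * (Real.exp (-u) * Real.exp (-u)) + 
        Real.exp u / 4 * (2 * (Real.exp (-u) * Real.exp (-u))) := by
        have := mul_le_mul_of_nonneg_right g2 (show 0 ≤ 2 * (Real.exp (-u) * Real.exp (-u)) by 
          linarith)
        linarith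
    _ = 2 * (Real.exp (-u) * Real.exp (-u)) + 
        1 / 2 * (Real.exp u * (Real.exp (-u) * Real.exp (-u))) := by ring
    _ ≤ Real.exp (-u) := by
        rw [g3]
        linarith

end Pool.Agent.K4H76.RP
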