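import Pool.Agent.K4H76.RP.Defs2

/-!
# Counting with the parities of the sums of opposite coefficients
-/

set_option autoImplicit false

open Polynomial Finset

namespace Pool.Agent.K4H76.RP

namespace PairP

/-- the largest product of probabilities in a class modulo 2 -/
theorem exists_U {H : ℕ} {w w' : ℤ → ℝ} {q : ℝ} (hq : 0 ≤ q) (h0 : ∀ x, 0 ≤ w x)
    (h0' : ∀ x, 0 ≤ w' x) (h1 : ∑ x ∈ Icc (-(H : ℤ)) H, w x = 1)
    (h1' : ∑ x ∈ Icc (-(H : ℤ)) H, w' x = 1)
    (hp0 : ∑ x ∈ (Icc (-(H : ℤ)) H).filter (fun x => x % 2 = 0), w x ≤ q)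
    (hp1 : ∑ x ∈ (Icc (-(H : ℤ)) H).filter (fun x => x % 2 = 1), w x ≤ q)
    (hp0' : ∑ x ∈ (Icc (-(H : ℤ)) H).filter (fun x => x % 2 = 0), w' x ≤ q)
    (hp1' : ∑ x ∈ (Icc (-(H : ℤ)) H).filter (fun x => x % 2 = 1), w' x ≤ q) :
    ∃ U : ℤ → ℝ, (∀ b, 0 ≤ U b) ∧ (∀ x ∈ Icc (-(H : ℤ)) H, ∀ y ∈ Icc (-(H : ℤ)) H,
      w x * w' y ≤ U ((x + y) % 2)) ∧ U 0 + U 1 ≤ q := by
  classical
  have hle : ∀ (v : ℤ → ℝ), (∀ x, 0 ≤ v x) →
      ∑ x ∈ (Icc (-(H : ℤ)) H).filter (fun x => x % 2 = 0), v x ≤ q →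
      ∑ x ∈ (Icc (-(H : ℤ)) H).filter (fun x => x % 2 = 1), v x ≤ q →
      ∀ x ∈ Icc (-(H : ℤ)) H, v x ≤ q := by
    intro v hv hv0 hv1 x hx
    rcases Int.emod_two_eq_zero_or_one x with h | h
    · exact (single_le_sum (f := v) (fun y _ => hv y) (mem_filter.2 ⟨hx, h⟩)).trans hv0
    · exact (single_le_sum (f := v) (fun y _ => hv y) (mem_filter.2 ⟨hx, h⟩)).trans hv1
  have hone : ∀ (v : ℤ → ℝ), (∀ x, 0 ≤ v x) → ∑ x ∈ Icc (-(H : ℤ)) H, v x = 1 →
      ∀ x ∈ Icc (-(H : ℤ)) H, v x ≤ 1 := fun v hv hv1 x hx =>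
    (single_le_sum (f := v) (fun y _ => hv y) hx).trans hv1.le
  have htwo : ∀ (v : ℤ → ℝ), (∀ x, 0 ≤ v x) → ∑ x ∈ Icc (-(H : ℤ)) H, v x = 1 →
      ∀ x ∈ Icc (-(H : ℤ)) H, ∀ y ∈ Icc (-(H : ℤ)) H, x ≠ y → v x + v y ≤ 1 := by
    intro v hv hv1 x hx y hy hxy
    rw [← hv1, ← sum_pair hxy]
    refine sum_le_sum_of_subset_of_nonneg ?_ fun z _ _ => hv z
    intro z hz
    rw [mem_insert, mem_singleton] at hz
    rcases hz with rfl | rfl
    · exact hx
    · exact hy
  have hmax : ∀ s : ℤ, ∃ u : ℝ, 0 ≤ u ∧ (∀ x ∈ Icc (-(H : ℤ)) H, ∀ y ∈ Icc (-(H : ℤ)) H,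
      (x + y) % 2 = s → w x * w' y ≤ u) ∧ (u = 0 ∨ ∃ x ∈ Icc (-(H : ℤ)) H,
        ∃ y ∈ Icc (-(H : ℤ)) H, (x + y) % 2 = s ∧ u = w x * w' y) := by
    intro s
    set P := ((Icc (-(H : ℤ)) H) ×ˢ (Icc (-(H : ℤ)) H)).filter (fun p => (p.1 + p.2) % 2 = s) with hP
    by_cases hne : P.Nonempty
    · obtain ⟨p, hp, hmx⟩ := exists_max_image P (fun p => w p.1 * w' p.2) hne
      have hp' := hp
      rw [hP, mem_filter, mem_product] at hp'
      refine ⟨w p.1 * w' p.2, mul_nonneg (h0 _) (h0' _), fun x hx y hy hxy => ?_,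
        Or.inr ⟨p.1, hp'.1.1, p.2, hp'.1.2, hp'.2, rfl⟩⟩
      exact hmx (x, y) (by rw [hP, mem_filter, mem_product]; exact ⟨⟨hx, hy⟩, hxy⟩)
    · refine ⟨0, le_rfl, fun x hx y hy hxy => ?_, Or.inl rfl⟩
      exact absurd ⟨(x, y), by rw [hP, mem_filter, mem_product]; exact ⟨⟨hx, hy⟩, hxy⟩⟩ hne
  choose U hU0 hU1 hU2 using hmax
  refine ⟨U, hU0, fun x hx y hy => hU1 _ x hx y hy rfl, ?_⟩
  have hsingle : ∀ s, U s ≤ q := by
    intro s
    rcases hU2 s with h | ⟨x, hx, y, hy, -, h⟩
    · rw [h]; exact hq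
    · rw [h]
      calc w x * w' y ≤ q * 1 := mul_le_mul (hle w h0 hp0 hp1 x hx) (hone w' h0' h1' y hy) (h0' y) hq
        _ = q := mul_one q
  rcases hU2 0 with h | ⟨x, hx, y, hy, hxy, h⟩
  · rw [h, zero_add]; exact hsingle 1
  rcases hU2 1 with h' | ⟨x', hx', y', hy', hxy', h'⟩
  · rw [h', add_zero]; exact hsingle 0
  rw [h, h']
  by_cases hxx : x % 2 = x' % 2
  · have hyy : y ≠ y' := by
      intro e
      subst e
      omega
    have h3 := htwo w' h0' h1' y hy y' hy' hyy
    have h4 := hle w h0 hp0 hp1 x hx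
    have h5 := hle w h0 hp0 hp1 x' hx'
    have h6 := h0' y
    have h7 := h0' y'
    calc w x * w' y + w x' * w' y' ≤ q * w' y + q * w' y' :=
          add_le_add (mul_le_mul_of_nonneg_right h4 h6) (mul_le_mul_of_nonneg_right h5 h7)
      _ = q * (w' y + w' y') := by ring
      _ ≤ q * 1 := mul_le_mul_of_nonneg_left h3 hq
      _ = q := mul_one q
  · have hxx' : x ≠ x' := fun e => hxx (by rw [e])
    have h3 := htwo w h0 h1 x hx x' hx' hxx'
    have h4 := hle w' h0' hp0' hp1' y hy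
    have h5 := hle w' h0' hp0' hp1' y' hy'
    have h6 := h0 x
    have h7 := h0 x'
    calc w x * w' y + w x' * w' y' ≤ w x * q + w x' * q :=
          add_le_add (mul_le_mul_of_nonneg_left h4 h6) (mul_le_mul_of_nonneg_left h5 h7)
      _ = (w x + w x') * q := by ring
      _ ≤ 1 * q := mul_le_mul_of_nonneg_right h3 hq
      _ = q := one_mul q

theorem win_rev {n d : ℕ} {j : Fin (n + 1)} : Win n d j.rev ↔ Win n d j := by
  have := j.2
  unfold Win
  rw [Fin.val_rev]
  omega

open Classical in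
theorem card_V {n d : ℕ} (hd : 1 ≤ d) (hdn : d ≤ n) :
    (d - 1) / 2 ≤ (univ.filter fun j : Fin (n + 1) => Win n d j ∧ 2 * (j : ℕ) < n).card := by
  set m := (n - d) / 2 + 1 with hm
  have h1 : ∀ i ∈ range ((d - 1) / 2), m + i < n + 1 := by
    intro i hi
    rw [mem_range] at hi
    omega
  have h2 : ((range ((d - 1) / 2)).attach.image
      fun i => (⟨m + i.1, h1 i.1 i.2⟩ : Fin (n + 1))) ⊆
      (univ.filter fun j : Fin (n + 1) => Win n d j ∧ 2 * (j : ℕ) < n) := by
    intro j hj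
    rw [mem_image] at hj
    obtain ⟨i, -, rfl⟩ := hj
    have hi := mem_range.1 i.2
    rw [mem_filter]
    refine ⟨mem_univ _, ?_, ?_⟩
    · unfold Win
      simp only
      omega
    · simp only
      omega
  have h3 := card_le_card h2
  rw [card_image_of_injective, card_attach, card_range] at h3
  · exact h3
  · intro i i' h
    have := congrArg Fin.val h
    simp only at this
    exact Subtype.ext (by omega)

open Classical in
/-- the product over the window -/
theorem prod_win {n d : ℕ} (f : Fin (n + 1) → ℝ) :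
    ∏ j ∈ univ.filter (fun j : Fin (n + 1) => Win n d j), f j =
      (∏ j ∈ univ.filter (fun j : Fin (n + 1) => Win n d j ∧ 2 * (j : ℕ) < n), f j * f j.rev) *
        ∏ j ∈ univ.filter (fun j : Fin (n + 1) => Win n d j ∧ 2 * (j : ℕ) = n), f j := by
  have h1 : univ.filter (fun j : Fin (n + 1) => Win n d j) =
      (univ.filter (fun j : Fin (n + 1) => Win n d j ∧ 2 * (j : ℕ) < n) ∪
        univ.filter (fun j : Fin (n + 1) => Win n d j ∧ n < 2 * (j : ℕ))) ∪
        univ.filter (fun j : Fin (n + 1) => Win n d j ∧ 2 * (j : ℕ) = n) := by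
    ext j
    simp only [mem_filter, mem_univ, true_and, mem_union]
    constructor
    · intro h
      rcases lt_trichotomy (2 * (j : ℕ)) n with h' | h' | h'
      · exact Or.inl (Or.inl ⟨h, h'⟩)
      · exact Or.inr ⟨h, h'⟩
      · exact Or.inl (Or.inr ⟨h, h'⟩)
    · rintro ((h | h) | h)
      · exact h.1
      · exact h.1
      · exact h.1
  rw [h1, prod_union, prod_union, prod_mul_distrib]
  · congr 2
    refine prod_nbij' (fun j => j.rev) (fun j => j.rev) ?_ ?_ ?_ ?_ ?_
    · intro j hj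
      rw [mem_filter] at hj ⊢
      refine ⟨mem_univ _, win_rev.2 hj.2.1, ?_⟩
      rw [Fin.val_rev]
      have := j.2
      omega
    · intro j hj
      rw [mem_filter] at hj ⊢
      refine ⟨mem_univ _, win_rev.2 hj.2.1, ?_⟩
      rw [Fin.val_rev]
      have := j.2
      omega
    · intro j _
      exact Fin.rev_rev j
    · intro j _
      exact Fin.rev_rev j
    · intro j _
      rw [Fin.rev_rev]
  · rw [disjoint_left]
    intro j hj hj'
    rw [mem_filter] at hj hj'
    omega
  · rw [disjoint_left]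
    intro j hj hj'
    rw [mem_union, mem_filter, mem_filter] at hj
    rw [mem_filter] at hj'
    omega

end PairP

/-- PAIR -/
theorem pair_bound : S_PAIR := by
  classical
  intro n H w q hq0 hq1 h0 h1 hpar d hd hdn E K hK hE
  have hex : ∀ j : Fin (n + 1), ∃ U : ℤ → ℝ, (∀ b, 0 ≤ U b) ∧ (Win n d j ∧ 2 * (j : ℕ) < n →
      (∀ x ∈ Icc (-(H : ℤ)) H, ∀ y ∈ Icc (-(H : ℤ)) H, w j x * w j.rev y ≤ U ((x + y) % 2)) ∧
        U 0 + U 1 ≤ q) := by
    intro j
    by_cases hj : Win n d j ∧ 2 * (j : ℕ) < n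
    · have hj1 : 0 < (j : ℕ) ∧ (j : ℕ) < n := by
        obtain ⟨⟨h2, h3⟩, h4⟩ := hj
        omega
      have hj2 : 0 < (j.rev : ℕ) ∧ (j.rev : ℕ) < n := by
        rw [Fin.val_rev]
        have := j.2
        omega
      obtain ⟨ha, hb⟩ := hpar j hj1.1 hj1.2
      obtain ⟨ha', hb'⟩ := hpar j.rev hj2.1 hj2.2
      obtain ⟨U, hU0, hU1, hU2⟩ := PairP.exists_U hq0 (h0 j) (h0 j.rev) (h1 j) (h1 j.rev)
        ha hb ha' hb'
      exact ⟨U, hU0, fun _ => ⟨hU1, hU2⟩⟩
    · exact ⟨fun _ => 0, fun _ => le_rfl, fun h => absurd h hj⟩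
  choose U hU0 hU using hex
  set φ : (Fin (n + 1) → ℤ) → (Fin (n + 1) → ℤ) := fun a j =>
    if Win n d j then (if 2 * (j : ℕ) < n then (a j + a j.rev) % 2 else 0) else a j with hφ
  set w' : Fin (n + 1) → ℤ → ℝ := fun j x =>
    if Win n d j then (if 2 * (j : ℕ) < n then U j x else 1) else w j x with hw'
  set A' : Fin (n + 1) → Finset ℤ := fun j =>
    if Win n d j then (if 2 * (j : ℕ) < n then {0, 1} else {0}) else Icc (-(H : ℤ)) H with hA'
  have hw'0 : ∀ j x, 0 ≤ w' j x := by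
    intro j x
    simp only [hw']
    split_ifs
    · exact hU0 j x
    · exact zero_le_one
    · exact h0 j x
  set S := (Fintype.piFinset (fun _ : Fin (n + 1) => Icc (-(H : ℤ)) H)).filter E with hS
  have hmaps : ∀ a ∈ S, φ a ∈ Fintype.piFinset A' := by
    intro a ha
    rw [hS, mem_filter, Fintype.mem_piFinset] at ha
    rw [Fintype.mem_piFinset]
    intro j
    simp only [hφ, hA']
    by_cases hj : Win n d j
    · rw [if_pos hj, if_pos hj]
      by_cases hj2 : 2 * (j : ℕ) < n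
      · rw [if_pos hj2, if_pos hj2]
        rcases Int.emod_two_eq_zero_or_one (a j + a j.rev) with h | h <;> rw [h] <;> simp
      · rw [if_neg hj2, if_neg hj2]
        exact mem_singleton_self _
    · rw [if_neg hj, if_neg hj]
      exact ha.1 j
  have hle1 : ∀ j, ∀ x ∈ Icc (-(H : ℤ)) H, w j x ≤ 1 := fun j x hx =>
    (single_le_sum (f := w j) (fun y _ => h0 j y) hx).trans (h1 j).le
  have hpt : ∀ a ∈ S, ∏ j, w j (a j) ≤ ∏ j, w' j (φ a j) := by
    intro a ha
    rw [hS, mem_filter, Fintype.mem_piFinset] at ha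
    have e1 : ∏ j, w j (a j) = (∏ j ∈ univ.filter (fun j : Fin (n + 1) => Win n d j), w j (a j)) *
        ∏ j ∈ univ.filter (fun j : Fin (n + 1) => ¬ Win n d j), w j (a j) :=
      (prod_filter_mul_prod_filter_not univ _ _).symm
    have e2 : ∏ j, w' j (φ a j) =
        (∏ j ∈ univ.filter (fun j : Fin (n + 1) => Win n d j), w' j (φ a j)) *
        ∏ j ∈ univ.filter (fun j : Fin (n + 1) => ¬ Win n d j), w' j (φ a j) :=
      (prod_filter_mul_prod_filter_not univ _ _).symm
    have e3 : ∏ j ∈ univ.filter (fun j : Fin (n + 1) => ¬ Win n d j), w' j (φ a j) =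
        ∏ j ∈ univ.filter (fun j : Fin (n + 1) => ¬ Win n d j), w j (a j) := by
      refine prod_congr rfl fun j hj => ?_
      have hj' : ¬ Win n d j := (mem_filter.1 hj).2
      simp only [hw', hφ]
      rw [if_neg hj', if_neg hj']
    have e4 : ∏ j ∈ univ.filter (fun j : Fin (n + 1) => Win n d j), w' j (φ a j) =
        ∏ j ∈ univ.filter (fun j : Fin (n + 1) => Win n d j ∧ 2 * (j : ℕ) < n),
          U j ((a j + a j.rev) % 2) := by
      have e5 : univ.filter (fun j : Fin (n + 1) => Win n d j ∧ 2 * (j : ℕ) < n) =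
          (univ.filter (fun j : Fin (n + 1) => Win n d j)).filter (fun j : Fin (n + 1) => 2 * (j : ℕ) < n) := by
        rw [filter_filter]
      rw [e5]
      refine Eq.trans ?_ (prod_filter _ _).symm
      refine prod_congr rfl fun j hj => ?_
      have hj' : Win n d j := (mem_filter.1 hj).2
      simp only [hw', hφ]
      rw [if_pos hj', if_pos hj']
      by_cases hj2 : 2 * (j : ℕ) < n
      · rw [if_pos hj2, if_pos hj2, if_pos hj2]
      · rw [if_neg hj2, if_neg hj2]
    have e6 : ∏ j ∈ univ.filter (fun j : Fin (n + 1) => Win n d j), w j (a j) ≤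
        ∏ j ∈ univ.filter (fun j : Fin (n + 1) => Win n d j ∧ 2 * (j : ℕ) < n),
          U j ((a j + a j.rev) % 2) := by
      rw [PairP.prod_win (fun j => w j (a j))]
      have e7 : ∏ j ∈ univ.filter (fun j : Fin (n + 1) => Win n d j ∧ 2 * (j : ℕ) = n), w j (a j) ≤ 1 :=
        prod_le_one (fun j _ => h0 j _) fun j _ => hle1 j _ (ha.1 j)
      have e8 : ∏ j ∈ univ.filter (fun j : Fin (n + 1) => Win n d j ∧ 2 * (j : ℕ) < n),
          w j (a j) * w j.rev (a j.rev) ≤
          ∏ j ∈ univ.filter (fun j : Fin (n + 1) => Win n d j ∧ 2 * (j : ℕ) < n),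
          U j ((a j + a j.rev) % 2) := by
        refine prod_le_prod (fun j _ => mul_nonneg (h0 j _) (h0 _ _)) fun j hj => ?_
        exact (hU j (mem_filter.1 hj).2).1 _ (ha.1 j) _ (ha.1 j.rev)
      calc _ ≤ (∏ j ∈ univ.filter (fun j : Fin (n + 1) => Win n d j ∧ 2 * (j : ℕ) < n),
          U j ((a j + a j.rev) % 2)) * 1 := mul_le_mul e8 e7 (prod_nonneg fun j _ => h0 j _)
            (prod_nonneg fun j _ => hU0 j _)
        _ = _ := mul_one _
    rw [e1, e2, e3, e4]
    exact mul_le_mul_of_nonneg_right e6 (prod_nonneg fun j _ => h0 j _)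
  have hfib : ∀ v ∈ Fintype.piFinset A', ((S.filter (fun a => φ a = v)).card : ℝ) ≤ K := by
    intro v _
    refine hE _ ?_ ?_
    · intro a ha
      rw [mem_filter, hS, mem_filter, Fintype.mem_piFinset] at ha
      exact ⟨ha.1.1, ha.1.2⟩
    · intro a ha a' ha'
      rw [mem_filter] at ha ha'
      have h2 : ∀ j, φ a j = φ a' j := fun j => congrFun (ha.2.trans ha'.2.symm) j
      have h3 : ∀ j, ¬ Win n d j → a j = a' j := by
        intro j hj
        have := h2 j
        simp only [hφ] at this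
        rwa [if_neg hj, if_neg hj] at this
      have h4 : ∀ j : Fin (n + 1), Win n d j → 2 * (j : ℕ) < n →
          (a j + a j.rev) % 2 = (a' j + a' j.rev) % 2 := by
        intro j hj hj2
        have := h2 j
        simp only [hφ] at this
        rwa [if_pos hj, if_pos hj, if_pos hj2, if_pos hj2] at this
      intro j
      refine ⟨?_, h3 j⟩
      by_cases hj : Win n d j
      · rcases lt_trichotomy (2 * (j : ℕ)) n with h' | h' | h'
        · exact h4 j hj h'
        · have hrev : j.rev = j := by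
            ext
            rw [Fin.val_rev]
            omega
          rw [hrev]
          omega
        · have h5 := h4 j.rev (PairP.win_rev.2 hj) (by
            rw [Fin.val_rev]
            have := j.2
            omega)
          rw [Fin.rev_rev] at h5
          rw [add_comm (a j), add_comm (a' j)]
          exact h5
      · rw [h3 j hj, h3 j.rev (fun h => hj (PairP.win_rev.1 h))]
  have hprob : prob H w E = ∑ a ∈ S, ∏ j, w j (a j) := by
    rw [prob_eq]
  rw [hprob]
  calc ∑ a ∈ S, ∏ j, w j (a j) ≤ ∑ a ∈ S, ∏ j, w' j (φ a j) := sum_le_sum hpt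
    _ = ∑ v ∈ Fintype.piFinset A', ∑ a ∈ S.filter (fun a => φ a = v), ∏ j, w' j (φ a j) :=
        (sum_fiberwise_of_maps_to hmaps _).symm
    _ = ∑ v ∈ Fintype.piFinset A', ((S.filter (fun a => φ a = v)).card : ℝ) *
          ∏ j, w' j (v j) := by
        refine sum_congr rfl fun v _ => ?_
        rw [← nsmul_eq_mul, ← sum_const]
        refine sum_congr rfl fun a ha => ?_
        rw [(mem_filter.1 ha).2]
    _ ≤ ∑ v ∈ Fintype.piFinset A', K * ∏ j, w' j (v j) := by
        refine sum_le_sum fun v hv => ?_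
        exact mul_le_mul_of_nonneg_right (hfib v hv) (prod_nonneg fun j _ => hw'0 j _)
    _ = K * ∏ j, ∑ x ∈ A' j, w' j x := by
        rw [← mul_sum, prod_univ_sum]
    _ ≤ K * q ^ ((d - 1) / 2) := by
        refine mul_le_mul_of_nonneg_left ?_ hK
        have h3 : ∀ j : Fin (n + 1), ∑ x ∈ A' j, w' j x ≤
            if Win n d j ∧ 2 * (j : ℕ) < n then q else 1 := by
          intro j
          simp only [hA', hw']
          by_cases hj : Win n d j
          · by_cases hj2 : 2 * (j : ℕ) < n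
            · simp only [hj, hj2, if_true, and_self]
              rw [sum_pair (by norm_num)]
              exact (hU j ⟨hj, hj2⟩).2
            · simp only [hj, hj2, if_true, if_false, and_false]
              rw [sum_singleton]
          · simp only [hj, if_false, false_and]
            exact (h1 j).le
        calc ∏ j, ∑ x ∈ A' j, w' j x ≤
              ∏ j : Fin (n + 1), (if Win n d j ∧ 2 * (j : ℕ) < n then q else 1) :=
              prod_le_prod (fun j _ => sum_nonneg fun x _ => hw'0 j x) fun j _ => h3 j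
          _ = q ^ (univ.filter fun j : Fin (n + 1) => Win n d j ∧ 2 * (j : ℕ) < n).card := by
              rw [prod_ite, prod_const_one, mul_one, prod_const]
          _ ≤ q ^ ((d - 1) / 2) := pow_le_pow_of_le_one hq0 hq1 (PairP.card_V hd hdn)

end Pool.Agent.K4H76.RP
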