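import Pool.Agent.K4H76.RP.Defs2
import Pool.Agent.K4H76.RP.DobRed
import Pool.Agent.H338R2.Smyth2

/-!
# Polynomials of small Mahler measure are reciprocal
-/

set_option autoImplicit false

open Polynomial Finset

namespace Pool.Agent.K4H76.RP

namespace Rc

lemma eq_of_dvd {g h : ℤ[X]} (hg : g.Monic) (hi : Irreducible g) (hh : h.Monic) (hd : h.natDegree = 1)
    (h1 : h ∣ g) : g = h := by
  have h2 : ¬ IsUnit h := by
    intro h3
    have h4 := natDegree_eq_zero_of_isUnit h3
    omega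
  have h3 : Associated h g := (hi.dvd_iff.1 h1).resolve_left h2 |>.symm
  exact (eq_of_monic_of_associated hh hg h3).symm

lemma coeff_zero_le (g : ℤ[X]) : |(g.coeff 0 : ℝ)| ≤ M g := by
  have h1 := (g.map (Int.castRingHom ℂ)).norm_coeff_le_choose_mul_mahlerMeasure 0
  rw [Nat.choose_zero_right, Nat.cast_one, one_mul, coeff_map, eq_intCast, Complex.norm_intCast] at h1
  exact h1

lemma eval_one_rev (g : ℤ[X]) : g.reverse.eval 1 = g.eval 1 := by
  let _ : Invertible (1 : ℤ) := invertibleOne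
  have h1 := eval₂_reverse_mul_pow (RingHom.id ℤ) (1 : ℤ) g
  rw [one_pow, mul_one, invOf_one, eval₂_id, eval₂_id] at h1
  exact h1

end Rc

theorem recip : S_RECIP := by
  intro T hT d g hg
  obtain ⟨hmon, hirr, -, hM1, hMT⟩ := hg
  have h17 : √17 < 5 := by
    rw [Real.sqrt_lt' (by norm_num)]
    norm_num
  have hMlt : M g < (1 + √17) / 4 := lt_of_le_of_lt hMT hT
  have hM2 : M g < 2 := by linarith
  have hc0 : g.coeff 0 ≠ 0 := by
    intro h
    have h1 : X ∣ g := X_dvd_iff.2 h
    have h2 := Rc.eq_of_dvd hmon hirr monic_X natDegree_X h1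
    rw [h2, M_X] at hM1
    exact lt_irrefl _ hM1
  have habs : |g.coeff 0| = 1 := by
    have h1 : 1 ≤ |g.coeff 0| := Int.one_le_abs hc0
    have h2 : ((|g.coeff 0| : ℤ) : ℝ) < ((2 : ℤ) : ℝ) := by
      rw [Int.cast_abs]
      push_cast
      exact lt_of_le_of_lt (Rc.coeff_zero_le g) hM2
    have h3 : |g.coeff 0| < 2 := by exact_mod_cast h2
    omega
  have hrev : g = C (g.coeff 0) * g.reverse := by
    by_contra hne
    have h1 := Pool.Agent.H338R2.smyth_lite hmon habs hne
    change M g ≤ 2 * (M g ^ 2 - 1) at h1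
    have h2 : √17 ^ 2 = 17 := Real.sq_sqrt (by norm_num)
    have h3 : 0 ≤ √17 := Real.sqrt_nonneg _
    nlinarith
  rcases (abs_eq (by norm_num : (0 : ℤ) ≤ 1)).1 habs with h | h
  · rw [h, C_1, one_mul] at hrev
    exact ⟨hrev.symm, h⟩
  · exfalso
    rw [h] at hrev
    have h1 : g.eval 1 = 0 := by
      have h2 := congrArg (eval 1) hrev
      rw [eval_mul, eval_C, Rc.eval_one_rev] at h2
      omega
    have h2 : (X - C 1 : ℤ[X]) ∣ g := dvd_iff_isRoot.2 h1
    have h3 := Rc.eq_of_dvd hmon hirr (monic_X_sub_C 1) (natDegree_X_sub_C 1) h2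
    have h4 := M_X_pow_sub_one 1 one_pos
    rw [pow_one] at h4
    rw [h3, C_1, h4] at hM1
    exact lt_irrefl _ hM1

theorem refl : S_REFL := by
  intro g hmon hrev n f hf hgf
  obtain ⟨u, rfl⟩ := hgf
  by_cases hu : u = 0
  · rw [hu, mul_zero, reflect_zero]
    exact dvd_zero g
  · have h1 : (g * u).natDegree = g.natDegree + u.natDegree := hmon.natDegree_mul' hu
    have h2 : n = g.natDegree + (n - g.natDegree) := by omega
    rw [h2, reflect_mul g u le_rfl (by omega)]
    have h3 : reflect g.natDegree g = g := hrev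
    rw [h3]
    exact dvd_mul_right _ _

end Pool.Agent.K4H76.RP
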