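import Mathlib
import Pool.Agent.K4H76.RP.Zero

/-!
# The reciprocal event modulo 2, with a shift (after `Zero.lean` by helper26)
-/

set_option autoImplicit false

open Polynomial Finset

namespace Pool.Agent.K4H76.RP

namespace Shift

theorem main {n H : ℕ} {w : Fin (n + 1) → ℤ → ℝ} {q : ℝ} (h0 : ∀ j x, 0 ≤ w j x)
    (h1 : ∀ j, ∑ x ∈ Icc (-(H : ℤ)) H, w j x = 1) (hpar : Par H w q) 
    (c : Fin (n + 1) → ℤ) :
    prob H w (fun a => ∀ j, (a j + a j.rev + c j) % 2 = 0) ≤
      q ^ (univ.filter (fun j : Fin (n + 1) => 0 < (j : ℕ) ∧ 2 * (j : ℕ) < n)).card := by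
  classical
  set V := univ.filter (fun j : Fin (n + 1) => 0 < (j : ℕ) ∧ 2 * (j : ℕ) < n) with hV
  have hVrev : ∀ j ∈ V, j.rev ∉ V := by
    intro j hj hj'
    rw [hV, mem_filter] at hj hj'
    have h2 := hj.2.2
    have h3 := hj'.2.2
    rw [Fin.val_rev] at h3
    omega
  set S := (Fintype.piFinset (fun _ : Fin (n + 1) => Icc (-(H : ℤ)) H)).filter
    (fun a => ∀ j, (a j + a j.rev + c j) % 2 = 0) with hS
  have hprob : prob H w (fun a => ∀ j, (a j + a j.rev + c j) % 2 = 0) = ∑ a ∈ S, ∏ j, w j (a j) := by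
    unfold prob
    rw [hS, sum_filter]
    refine sum_congr rfl fun a _ => ?_
    by_cases ha : ∀ j, (a j + a j.rev + c j) % 2 = 0
    · rw [if_pos ha, if_pos ha]
    · rw [if_neg ha, if_neg ha]
  rw [hprob]
  set φ : (Fin (n + 1) → ℤ) → (Fin (n + 1) → ℤ) := fun a j => if j ∈ V then 0 else a j with hφ
  set A' : Fin (n + 1) → Finset ℤ := fun j => if j ∈ V then {0} else Icc (-(H : ℤ)) H with hA'
  set u : Fin (n + 1) → ℤ → ℝ := fun j x => if j ∈ V then q else w j x with hu
  have hmaps : ∀ a ∈ S, φ a ∈ Fintype.piFinset A' := by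
    intro a ha
    rw [hS, mem_filter, Fintype.mem_piFinset] at ha
    rw [Fintype.mem_piFinset]
    intro j
    simp only [hφ, hA']
    by_cases hj : j ∈ V
    · rw [if_pos hj, if_pos hj]
      exact mem_singleton_self _
    · rw [if_neg hj, if_neg hj]
      exact ha.1 j
  have hinner : ∀ v ∈ Fintype.piFinset A',
      ∑ a ∈ S.filter (fun a => φ a = v), ∏ j, w j (a j) ≤ ∏ j, u j (v j) := by
    intro v _
    set B : Fin (n + 1) → Finset ℤ := fun j =>
      if j ∈ V then (Icc (-(H : ℤ)) H).filter (fun x => x % 2 = (v j.rev + c j) % 2) else {v j} with hB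
    have hsub : S.filter (fun a => φ a = v) ⊆ Fintype.piFinset B := by
      intro a ha
      rw [mem_filter, hS, mem_filter, Fintype.mem_piFinset] at ha
      obtain ⟨⟨ha1, ha2⟩, ha3⟩ := ha
      rw [Fintype.mem_piFinset]
      intro j
      simp only [hB]
      by_cases hj : j ∈ V
      · rw [if_pos hj, mem_filter]
        refine ⟨ha1 j, ?_⟩
        have h2 := congrFun ha3 j.rev
        simp only [hφ] at h2
        rw [if_neg (hVrev j hj)] at h2
        have h3 := ha2 j
        rw [← h2]
        omega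
      · rw [if_neg hj, mem_singleton]
        have h2 := congrFun ha3 j
        simp only [hφ] at h2
        rwa [if_neg hj] at h2
    calc ∑ a ∈ S.filter (fun a => φ a = v), ∏ j, w j (a j)
        ≤ ∑ a ∈ Fintype.piFinset B, ∏ j, w j (a j) :=
          sum_le_sum_of_subset_of_nonneg hsub fun a _ _ => prod_nonneg fun j _ => h0 j _
      _ = ∏ j, ∑ x ∈ B j, w j x := (prod_univ_sum B w).symm
      _ ≤ ∏ j, u j (v j) := by
          refine prod_le_prod (fun j _ => sum_nonneg fun x _ => h0 j x) fun j _ => ?_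
          simp only [hB, hu]
          by_cases hj : j ∈ V
          · rw [if_pos hj, if_pos hj]
            have hj2 := hj
            rw [hV, mem_filter] at hj2
            obtain ⟨h3, h4⟩ := hpar j hj2.2.1 (by have := hj2.2.2; omega)
            rcases Int.emod_two_eq_zero_or_one (v j.rev + c j) with h | h
            · rw [h]; exact h3
            · rw [h]; exact h4
          · rw [if_neg hj, if_neg hj, sum_singleton]
  rw [← sum_fiberwise_of_maps_to hmaps]
  calc ∑ v ∈ Fintype.piFinset A', ∑ a ∈ S.filter (fun a => φ a = v), ∏ j, w j (a j)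
      ≤ ∑ v ∈ Fintype.piFinset A', ∏ j, u j (v j) := sum_le_sum hinner
    _ = ∏ j, ∑ x ∈ A' j, u j x := (prod_univ_sum A' u).symm
    _ = ∏ j, (if j ∈ V then q else 1) := by
        refine prod_congr rfl fun j _ => ?_
        simp only [hA', hu]
        by_cases hj : j ∈ V
        · simp [hj]
        · simp only [hj, if_false]
          exact h1 j
    _ = q ^ V.card := by
        rw [prod_ite, prod_const_one, mul_one, prod_const]
        congr 1
        rw [filter_mem_eq_inter, univ_inter]

end Shift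

theorem shift_prob {n H : ℕ} {w : Fin (n + 1) → ℤ → ℝ} {q : ℝ} (hn : 1 ≤ n)
    (h0 : ∀ j x, 0 ≤ w j x) (h1 : ∀ j, ∑ x ∈ Icc (-(H : ℤ)) H, w j x = 1) (hpar : Par H w q) 
    (c : Fin (n + 1) → ℤ) :
    prob H w (fun a => ∀ j, (a j + a j.rev + c j) % 2 = 0) ≤ q ^ ((n - 1) / 2) := by
  rw [← Zero.card_V n hn]
  exact Shift.main h0 h1 hpar c

end Pool.Agent.K4H76.RP
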