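import Mathlib
import Pool.Agent.K4H76.RP.Main2
import Pool.Agent.K4H76.RP.Shift
import Pool.Agent.K4H76.RP.Pair
import Pool.Agent.K4H76.RP.Recip
import Pool.Agent.K4H76.RP.Class
import Pool.Agent.K4H76.RP.Div
import Pool.Agent.K4H76.RP.Block
import Pool.Agent.K4H76.RP.DobRed

/-!
# The final estimate
-/

set_option autoImplicit false

open Polynomial Finset

namespace Pool.Agent.K4H76.RP

lemma red_eq_zero_iff (f : ℤ[X]) : red f = 0 ↔ C 2 ∣ f := by
  rw [C_dvd_iff_dvd_coeff]
  constructor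
  · intro h i
    have h1 := congrArg (fun p => p.coeff i) h
    simp only [red, coeff_map, coeff_zero, eq_intCast] at h1
    exact_mod_cast (ZMod.intCast_zmod_eq_zero_iff_dvd _ 2).1 h1
  · intro h
    ext i
    simp only [red, coeff_map, coeff_zero, eq_intCast]
    exact (ZMod.intCast_zmod_eq_zero_iff_dvd _ 2).2 (by exact_mod_cast h i)

/-- removing powers of two -/
lemma strip (N : ℕ) : ∀ (D : ℤ) (p : ℤ[X]), D ≠ 0 → D.natAbs ≤ N → ∃ (e D' : ℤ) (p' : ℤ[X]), e ≠ 0 ∧ 
    D = e * D' ∧ p = C e * p' ∧ (Odd D' ∨ red p' ≠ 0) := by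
  induction N with
  | zero =>
    intro D p hD hN
    exact absurd (Int.natAbs_eq_zero.1 (Nat.le_zero.1 hN)) hD
  | succ N ih =>
    intro D p hD hN
    rcases Int.even_or_odd D with hev | hodd
    · by_cases hp : red p = 0
      · obtain ⟨D1, hD1⟩ := hev
        obtain ⟨p1, hp1⟩ := (red_eq_zero_iff p).1 hp
        obtain ⟨e, D', p', he, h1, h2, h3⟩ := ih D1 p1 (by
          rintro rfl
          exact hD (by rw [hD1]; simp)) (by omega)
        refine ⟨2 * e, D', p', mul_ne_zero (by norm_num) he, ?_, ?_, h3⟩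
        · rw [hD1, h1]
          ring
        · rw [hp1, h2, C_mul]
          ring
      · exact ⟨1, D, p, one_ne_zero, by ring, by simp, Or.inr hp⟩
    · exact ⟨1, D, p, one_ne_zero, by ring, by simp, Or.inl hodd⟩

section
variable {n : ℕ}

lemma red_asym_coeff (a : Fin (n + 1) → ℤ) (j : Fin (n + 1)) : 
    (red (asym a)).coeff (j : ℕ) = ((a j + a j.rev : ℤ) : ZMod 2) := by
  unfold red asym
  rw [coeff_map, poly_coeff, eq_intCast]
  rw [ZMod.intCast_eq_intCast_iff_dvd_sub]
  exact ⟨a j.rev, by push_cast; ring⟩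

lemma red_asym_eq {a a' : Fin (n + 1) → ℤ} 
    (h : ∀ j : Fin (n + 1), (a j + a j.rev) % 2 = (a' j + a' j.rev) % 2) :
    red (asym a) = red (asym a') := by
  ext j
  by_cases hjn : j < n + 1
  · have e1 := red_asym_coeff a ⟨j, hjn⟩
    have e2 := red_asym_coeff a' ⟨j, hjn⟩
    simp only at e1 e2
    rw [e1, e2]
    exact (ZMod.intCast_eq_intCast_iff' _ _ 2).2 (by exact_mod_cast h ⟨j, hjn⟩)
  · unfold red asym
    rw [coeff_map, coeff_map, poly_coeff_big _ (by omega), poly_coeff_big _ (by omega)]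

lemma red_add' (f g : ℤ[X]) : red (f + g) = red f + red g := Polynomial.map_add _

lemma red_C_mul (D : ℤ) (g : ℤ[X]) : red (C D * g) = C (D : ZMod 2) * red g := by
  unfold red
  rw [Polynomial.map_mul, map_C, eq_intCast]

lemma sub_reflect {h : ℤ[X]} (D : ℤ) (a : Fin (n + 1) → ℤ) : 
    h + C D * poly a - (h + C D * poly a).reflect n = (h - h.reflect n) + C D * asym a := by
  rw [reflect_add, reflect_C_mul, reflect_poly]
  unfold asym
  rw [← poly_sub]
  ring

lemma natDegree_reflect_le' {h : ℤ[X]} (hn : h.natDegree ≤ n) : (h.reflect n).natDegree ≤ n := by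
  rw [natDegree_le_iff_coeff_eq_zero]
  intro j hj
  rw [coeff_reflect, revAt_eq_self_of_lt hj]
  exact coeff_eq_zero_of_natDegree_lt (by omega)

/-- the auxiliary polynomials exist for all `h` and `D` -/
lemma exists_aux (h : ℤ[X]) (hn : h.natDegree ≤ n) (D : ℤ) (hD : D ≠ 0) (hn1 : 1 ≤ n) : 
    ∃ Q : (Fin (n + 1) → ℤ) → ℤ[X], Aux h D Q ∧ 
      ∀ (H : ℕ) (w : Fin (n + 1) → ℤ → ℝ) (q : ℝ), 0 ≤ q → (∀ j x, 0 ≤ w j x) → 
        (∀ j, ∑ x ∈ Icc (-(H : ℤ)) H, w j x = 1) → Par H w q → 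
        prob H w (fun a => red (Q a) = 0) ≤ q ^ ((n - 1) / 2) := by
  obtain ⟨e, D', p', he, h1, h2, h3⟩ := strip D.natAbs D (h - h.reflect n) hD le_rfl
  have key : ∀ a : Fin (n + 1) → ℤ, h + C D * poly a - (h + C D * poly a).reflect n = 
      C e * (p' + C D' * asym a) := by
    intro a
    rw [sub_reflect, h2, h1, C_mul]
    ring
  have hp'deg : p'.natDegree ≤ n := by
    have e1 : (h - h.reflect n).natDegree ≤ n := 
      (natDegree_sub_le _ _).trans (max_le hn (natDegree_reflect_le' hn))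
    rw [h2, natDegree_C_mul he] at e1
    exact e1
  refine ⟨fun a => p' + C D' * asym a, ⟨?_, ?_, ?_, ?_⟩, ?_⟩
  · intro a
    refine (natDegree_add_le _ _).trans (max_le hp'deg ?_)
    exact (natDegree_C_mul_le _ _).trans (poly_natDegree_le _)
  · intro a a' haa
    rw [red_add', red_add', red_C_mul, red_C_mul, red_asym_eq haa]
  · intro g a hg hi hgd hrev hdvd
    have hdeg : (h + C D * poly a).natDegree ≤ n := by
      refine (natDegree_add_le _ _).trans (max_le hn ?_)
      exact (natDegree_C_mul_le _ _).trans (poly_natDegree_le a)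
    have e1 := refl g hg hrev n _ hdeg hdvd
    have e2 : g ∣ C e * (p' + C D' * asym a) := by
      rw [← key a]
      exact dvd_sub hdvd e1
    exact dvd_of_dvd_C_mul hi hgd he e2
  · intro a ha
    have e1 := key a
    rw [ha, reflect_zero, sub_zero] at e1
    have e2 : p' + C D' * asym a = 0 := by
      rcases mul_eq_zero.1 e1.symm with h4 | h4
      · exact absurd (C_eq_zero.1 h4) he
      · exact h4
    show red (p' + C D' * asym a) = 0
    rw [e2]
    exact Polynomial.map_zero _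
  · intro H w q hq0 h0 hw1 hpar
    rcases Int.even_or_odd D' with hev | hodd
    · have hp' : red p' ≠ 0 := by
        rcases h3 with h3 | h3
        · exact absurd hev (Int.not_even_iff_odd.2 h3)
        · exact h3
      refine le_trans (prob_mono h0 (F := fun a => ∀ j, (a j + a j.rev + 0) % 2 = 0) ?_)
        (shift_prob hn1 h0 hw1 hpar (fun _ => 0))
      intro a _ _ h4
      exfalso
      rw [red_add', red_C_mul] at h4
      have e1 : ((D' : ℤ) : ZMod 2) = 0 := 
        (ZMod.intCast_zmod_eq_zero_iff_dvd _ 2).2 (by exact_mod_cast hev.two_dvd)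
      rw [e1, C_0, zero_mul, add_zero] at h4
      exact hp' h4
    · refine le_trans (prob_mono h0 (F := fun a => ∀ j : Fin (n + 1), 
        (a j + a j.rev + p'.coeff (j : ℕ)) % 2 = 0) ?_)
        (shift_prob hn1 h0 hw1 hpar (fun j => p'.coeff (j : ℕ)))
      intro a _ _ h4 j
      have e1 := congrArg (fun p => p.coeff (j : ℕ)) h4
      simp only [coeff_zero] at e1
      rw [red_add', red_C_mul, coeff_add, coeff_C_mul, red_asym_coeff] at e1
      have e2 : ((D' : ℤ) : ZMod 2) = 1 := by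
        obtain ⟨m, hm⟩ := hodd
        rw [hm]
        push_cast
        have : (2 : ZMod 2) = 0 := by decide
        rw [this]
        ring
      have e3 : (red p').coeff (j : ℕ) = ((p'.coeff (j : ℕ) : ℤ) : ZMod 2) := by
        unfold red
        rw [coeff_map, eq_intCast]
      rw [e2, e3, one_mul, ← Int.cast_add] at e1
      have e4 := (ZMod.intCast_zmod_eq_zero_iff_dvd _ 2).1 e1
      have e5 : (2 : ℤ) ∣ p'.coeff (j : ℕ) + (a j + a j.rev) := by exact_mod_cast e4
      omega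

end

lemma sqrt17_lt : (1 + √17) / 4 < √2 := by
  have h1 : √17 < 4.2 := by
    rw [Real.sqrt_lt' (by norm_num)]
    norm_num
  have h2 : (1.4 : ℝ) < √2 := by
    rw [Real.lt_sqrt (by norm_num)]
    norm_num
  linarith

/-- **The final estimate.** -/
theorem final (T : ℝ) (hT : T < (1 + √17) / 4) (q : ℝ) (hq : q < 1) (ε : ℝ) (hε : 0 < ε) :
    ∃ δ : ℝ, 0 < δ ∧ ∃ n₀ : ℕ, ∀ n : ℕ, n₀ ≤ n → ∀ H : ℕ, Real.log H ≤ (n : ℝ) ^ δ →
      ∀ (h : ℤ[X]) (D : ℤ), h.natDegree ≤ n → D ≠ 0 →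
      ∀ w : Fin (n + 1) → ℤ → ℝ, (∀ j x, 0 ≤ w j x) →
      (∀ j, ∑ x ∈ Icc (-(H : ℤ)) H, w j x = 1) → Par H w q →
      prob H w (fun a => ∃ g : ℤ[X], g ∣ h + C D * poly a ∧ 1 < M g ∧ M g ≤ T) ≤
        Real.exp (-(n : ℝ) ^ (1 - ε)) := by
  set s : ℝ := max q (1 / 2) with hs
  have hs2 : 1 / 2 ≤ s := le_max_right _ _
  have hs1 : s < 1 := max_lt hq (by norm_num)
  have hs0 : 0 < s := by linarith
  have ht1 : √s < 1 := by
    rw [Real.sqrt_lt' one_pos]
    linarith
  have ht0 : 0 < √s := Real.sqrt_pos.2 hs0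
  -- choose a smaller exponent
  obtain ⟨ε', hε'0, hε'1, hε'ε, hε's⟩ : ∃ ε' : ℝ, 0 < ε' ∧ ε' < 1 ∧ ε' ≤ ε ∧ 
      (2 : ℝ) ^ ε' * √s < 1 := by
    have h1 : 0 < -Real.log √s / Real.log 2 := by
      have := Real.log_neg ht0 ht1
      have h2 : 0 < Real.log 2 := Real.log_pos (by norm_num)
      exact div_pos (by linarith) h2
    refine ⟨min ε (min (1 / 2) (-Real.log √s / Real.log 2 / 2)), ?_, ?_, min_le_left _ _, ?_⟩
    · exact lt_min hε (lt_min (by norm_num) (by positivity))
    · exact lt_of_le_of_lt ((min_le_right _ _).trans (min_le_left _ _)) (by norm_num)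
    · have h2 : (2 : ℝ) ^ (min ε (min (1 / 2) (-Real.log √s / Real.log 2 / 2))) < 
          (2 : ℝ) ^ (-Real.log √s / Real.log 2) := by
        apply Real.rpow_lt_rpow_of_exponent_lt (by norm_num)
        refine lt_of_le_of_lt ((min_le_right _ _).trans (min_le_right _ _)) ?_
        linarith
      have h3 : (2 : ℝ) ^ (-Real.log √s / Real.log 2) = (√s)⁻¹ := by
        rw [Real.rpow_def_of_pos (by norm_num)]
        have h4 : Real.log 2 ≠ 0 := (Real.log_pos (by norm_num)).ne'
        rw [mul_div_cancel₀ _ h4, Real.exp_neg, Real.exp_log ht0]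
      rw [h3] at h2
      calc _ < (√s)⁻¹ * √s := mul_lt_mul_of_pos_right h2 ht0
        _ = 1 := inv_mul_cancel₀ ht0.ne'
  obtain ⟨n0, hn01, hmain⟩ := main2 class_bound div_bound block dob reduction pair_bound recip T
    (hT.trans sqrt17_lt) hT s hs2 hs1 ε' hε'0 hε'1 hε's
  refine ⟨ε' / 2, by positivity, max n0 2, fun n hn H hH h D hhn hD w h0 h1 hpar => ?_⟩
  have hn0 : n0 ≤ n := le_of_max_le_left hn
  have hn2 : 2 ≤ n := le_of_max_le_right hn
  have hpar' : Par H w s := fun j hj hjn => 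
    ⟨(hpar j hj hjn).1.trans (le_max_left _ _), (hpar j hj hjn).2.trans (le_max_left _ _)⟩
  have hH1 : 1 ≤ H := by
    rcases Nat.eq_zero_or_pos H with h2 | h2
    · exfalso
      subst h2
      have h3 := (hpar ⟨1, by omega⟩ (by simp) (by simp only; omega)).1
      have h4 := h1 ⟨1, by omega⟩
      have h5 : (Icc (-((0 : ℕ) : ℤ)) ((0 : ℕ) : ℤ)).filter (fun x => x % 2 = 0) = 
          Icc (-((0 : ℕ) : ℤ)) ((0 : ℕ) : ℤ) := by
        decide
      rw [h5, h4] at h3
      linarith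
    · exact h2
  obtain ⟨Q, hQ, hQz⟩ := exists_aux h hhn D hD (by omega)
  refine (hmain n hn0 H hH1 hH h D hhn hD Q hQ w h0 h1 hpar' 
    (hQz H w s hs0.le h0 h1 hpar')).trans ?_
  apply Real.exp_le_exp.2
  have h2 : (1 : ℝ) ≤ n := by
    have : 1 ≤ n := by omega
    exact_mod_cast this
  have h3 : (n : ℝ) ^ (1 - ε) ≤ (n : ℝ) ^ (1 - ε') := 
    Real.rpow_le_rpow_of_exponent_le h2 (by linarith)
  linarith

end Pool.Agent.K4H76.RP
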